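import Pool.Agent.XPR.Targets

/-!
# XPR: the end of the proof, with the targets as hypotheses
-/

set_option autoImplicit false

open scoped Quaternion NumberField

noncomputable section

namespace Pool.Agent.XPR

/-- one prime `l` -/
theorem final_l (hCLS : T_CLS) (hMOD : T_MOD) (hPDV : T_PDV) (hCNT : T_CNT) (hSUM : T_SUM)
    (hEXK : T_EXK) (hGRP : T_GRP) (l : ℕ) (hl : l = 3 ∨ l = 11)
    (hG : ∃ ρ : Fin (l + 1) → ℍ[ℤ], Gens l (l + 1) ρ) (p : ℕ) (hp : p.Prime) (h5 : 5 ≤ p)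
    (hn : ¬ p ^ 2 ∣ l ^ p - l) :
    ∃ (K : Type) (_ : Field K) (_ : NumberField K),
      Module.finrank ℚ K = 2 ∧ NumberField.discr K < 0 ∧
      p ∣ Nat.card (ClassGroup (𝓞 K)) ∧ ¬ p ^ 2 ∣ Nat.card (ClassGroup (𝓞 K)) ∧
      Nat.card (ClassGroup (𝓞 K) ⧸
        (powMonoidHom p : ClassGroup (𝓞 K) →* ClassGroup (𝓞 K)).range) = p ^ 1 := by
  have hodd : Odd p := hp.odd_of_ne_two (by omega)
  have hlp : l.Prime := by rcases hl with rfl | rfl <;> norm_num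
  have hl8 : l % 8 = 3 := by rcases hl with rfl | rfl <;> norm_num
  obtain ⟨ρ, hρ⟩ := hG
  have hc := hCNT l p ρ hρ hlp hl8 hodd
  by_contra hcon
  apply hn
  have hdvd : p ^ 2 ∣ Nat.card (XSet l p) := by
    refine hSUM l p (p ^ 2) ?_
    intro x m hx hlx hxm
    obtain ⟨hm0, hm1, hm3⟩ := hMOD l p m x hl hodd hx hlx hxm
    obtain ⟨K, hF, hN, s, hK2, hKd, hs⟩ := hEXK m hm0
    have h1 := hCLS K m s hm0 hm1 hm3 hK2 hs
    have h2 := hPDV K m l p s x hK2 hs hl hp h5 hx hlx hxm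
    by_cases h3 : p ^ 2 ∣ Nat.card (ClassGroup (𝓞 K))
    · exact h3.trans h1
    · exfalso
      apply hcon
      refine ⟨K, hF, hN, hK2, hKd, h2, h3, ?_⟩
      rw [pow_one]
      exact hGRP (ClassGroup (𝓞 K)) p hp h2 h3
  -- `p² ∣ 2 (l^p - l)`
  have hle : l ≤ l ^ p := Nat.le_self_pow hp.ne_zero l
  have h4 : Nat.card (XSet l p) = 2 * (l ^ p - l) := by omega
  rw [h4] at hdvd
  have hcop : Nat.Coprime (p ^ 2) 2 := by
    apply Nat.Coprime.pow_left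
    exact hodd.coprime_two_right
  exact hcop.dvd_of_dvd_mul_left hdvd

theorem final (hCLS : T_CLS) (hMOD : T_MOD) (hPDV : T_PDV) (hCNT : T_CNT) (hSUM : T_SUM)
    (hEXK : T_EXK) (hGRP : T_GRP) (hG3 : T_G3) (hG11 : T_G11) :
    ∀ p : ℕ, p.Prime → 5 ≤ p → (¬ p ^ 2 ∣ 3 ^ p - 3 ∨ ¬ p ^ 2 ∣ 11 ^ p - 11) →
    ∃ (K : Type) (_ : Field K) (_ : NumberField K),
      Module.finrank ℚ K = 2 ∧ NumberField.discr K < 0 ∧
      p ∣ Nat.card (ClassGroup (𝓞 K)) ∧ ¬ p ^ 2 ∣ Nat.card (ClassGroup (𝓞 K)) ∧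
      Nat.card (ClassGroup (𝓞 K) ⧸
        (powMonoidHom p : ClassGroup (𝓞 K) →* ClassGroup (𝓞 K)).range) = p ^ 1 := by
  intro p hp h5 h
  rcases h with h | h
  · exact final_l hCLS hMOD hPDV hCNT hSUM hEXK hGRP 3 (Or.inl rfl) hG3 p hp h5 h
  · exact final_l hCLS hMOD hPDV hCNT hSUM hEXK hGRP 11 (Or.inr rfl) hG11 p hp h5 h

end Pool.Agent.XPR
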