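import Pool.Agent.XPR.Targets

/-!
# Project XPR: `2m 𝓞 K ⊆ ℤ[s]`
-/

set_option autoImplicit false

open scoped Quaternion NumberField

namespace Pool.Agent.XPR

theorem P_C1 (h1 : T_QXY) (h2 : T_IN2) : T_C1 := by
  intro K _ _ m s hm hK hs z
  obtain ⟨x, y, hxy⟩ := h1 K m s hm hK hs z
  obtain ⟨⟨t, ht⟩, n, hn⟩ := h2 K m s hm hK hs z x y hxy
  have hsq : (2 * m * y) * (2 * m * y) = ((4 * m * n - m * t ^ 2 : ℤ) : ℚ) := by
    push_cast
    rw [← ht, ← hn]
    ring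
  obtain ⟨b, hb⟩ : ∃ b : ℤ, (b : ℚ) = 2 * m * y := by
    have h3 : IsIntegral ℤ (2 * m * y : ℚ) := by
      refine ⟨Polynomial.X ^ 2 - Polynomial.C (4 * m * n - m * t ^ 2 : ℤ), ?_, ?_⟩
      · exact Polynomial.monic_X_pow_sub_C _ two_ne_zero
      · simp only [Polynomial.eval₂_sub, Polynomial.eval₂_X_pow, Polynomial.eval₂_C]
        rw [pow_two, hsq]
        simp
    obtain ⟨b, hb⟩ := IsIntegrallyClosed.isIntegral_iff.1 h3
    exact ⟨b, by simpa using hb⟩
  refine ⟨⟨m * t, b⟩, ?_⟩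
  apply FaithfulSMul.algebraMap_injective (𝓞 K) K
  rw [psi, Zsqrtd.lift_apply_apply]
  have hz : algebraMap (𝓞 K) K z = (x : K) + (y : K) * algebraMap (𝓞 K) K s := hxy
  simp only [map_mul, map_add, map_intCast, map_natCast, map_ofNat, hz]
  push_cast
  have e1 : ((m : K) * (t : K)) = 2 * m * (x : K) := by
    have : ((t : ℚ) : K) = ((2 * x : ℚ) : K) := by rw [ht]
    push_cast at this
    rw [this]; ring
  have e2 : (b : K) = 2 * m * (y : K) := by
    have : ((b : ℚ) : K) = ((2 * m * y : ℚ) : K) := by rw [hb]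
    push_cast at this
    exact this
  rw [e1, e2]
  ring

end Pool.Agent.XPR
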