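import Pool.Agent.XPR.Targets

/-!
# XPR, target C2: an element of `𝓞 K` with `N z` in `ℤ[s]`, `N` prime to `2m`, is in `ℤ[s]`
-/

set_option autoImplicit false

open scoped Quaternion NumberField

noncomputable section

namespace Pool.Agent.XPR

theorem P_C2 (h1 : T_C1) : T_C2 := by
  intro K _ _ m s hm hd hs N z hN ha
  obtain ⟨a, ha⟩ := ha
  obtain ⟨c, hc⟩ := h1 K m s hm hd hs z
  obtain ⟨u, w, huw⟩ := hN
  refine ⟨(u : ℤ√(-(m : ℤ))) * a + (w : ℤ√(-(m : ℤ))) * c, ?_⟩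
  have hu : psi m s hs (u : ℤ√(-(m : ℤ))) = (u : 𝓞 K) := map_intCast _ u
  have hw : psi m s hs (w : ℤ√(-(m : ℤ))) = (w : 𝓞 K) := map_intCast _ w
  have h2 : (u : 𝓞 K) * N + w * (2 * (m : 𝓞 K)) = 1 := by
    have := congrArg (fun x : ℤ => (x : 𝓞 K)) huw
    push_cast at this
    exact this
  rw [map_add, map_mul, map_mul, hu, hw, ha, hc]
  linear_combination z * h2

end Pool.Agent.XPR
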