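import Pool.Agent.XPR.Targets

/-! # XPR: the centralizer of a pure quaternion (target CEN) -/

set_option autoImplicit false

open scoped Quaternion

namespace Pool.Agent.XPR

theorem P_CEN : T_CEN := by
  intro v β hv hv0 h
  have hI := congrArg (fun q : ℍ[ℚ] => q.imI) h
  have hJ := congrArg (fun q : ℍ[ℚ] => q.imJ) h
  have hK := congrArg (fun q : ℍ[ℚ] => q.imK) h
  simp only [Quaternion.imI_mul, Quaternion.imJ_mul, Quaternion.imK_mul, hv] at hI hJ hK
  have h1 : v.imJ * β.imK = v.imK * β.imJ := by linarith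
  have h2 : v.imK * β.imI = v.imI * β.imK := by linarith
  have h3 : v.imI * β.imJ = v.imJ * β.imI := by linarith
  have hn : v.imI ^ 2 + v.imJ ^ 2 + v.imK ^ 2 ≠ 0 := by
    intro h0
    apply hv0
    have e1 : v.imI = 0 := by nlinarith [sq_nonneg v.imI, sq_nonneg v.imJ, sq_nonneg v.imK]
    have e2 : v.imJ = 0 := by nlinarith [sq_nonneg v.imI, sq_nonneg v.imJ, sq_nonneg v.imK]
    have e3 : v.imK = 0 := by nlinarith [sq_nonneg v.imI, sq_nonneg v.imJ, sq_nonneg v.imK]
    exact Quaternion.ext _ _ hv e1 e2 e3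
  refine ⟨β.re, (v.imI * β.imI + v.imJ * β.imJ + v.imK * β.imK) /
    (v.imI ^ 2 + v.imJ ^ 2 + v.imK ^ 2), ?_⟩
  refine Quaternion.ext _ _ ?_ ?_ ?_ ?_
  · simp [hv]
  · simp only [Quaternion.imI_add, Quaternion.imI_smul, Quaternion.imI_one, smul_eq_mul, mul_zero,
      zero_add]
    rw [div_mul_eq_mul_div, eq_div_iff hn]
    linear_combination (-v.imJ) * h3 + v.imK * h2
  · simp only [Quaternion.imJ_add, Quaternion.imJ_smul, Quaternion.imJ_one, smul_eq_mul, mul_zero,
      zero_add]
    rw [div_mul_eq_mul_div, eq_div_iff hn]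
    linear_combination v.imI * h3 - v.imK * h1
  · simp only [Quaternion.imK_add, Quaternion.imK_smul, Quaternion.imK_one, smul_eq_mul, mul_zero,
      zero_add]
    rw [div_mul_eq_mul_div, eq_div_iff hn]
    linear_combination v.imJ * h1 - v.imI * h2

end Pool.Agent.XPR
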