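import Pool.Agent.XPR.Targets

/-! # XPR, target `T_CJI`: image and conjugation (helper89) -/

set_option autoImplicit false

open scoped Quaternion NumberField

namespace Pool.Agent.XPR

namespace CJI_

theorem key (d : ℤ) {v v' β : ℍ[ℚ]} (h : β * v = v' * β) (a : ℤ√d) :
    ev d v' a * β = β * ev d v a := by
  rw [ev_apply, ev_apply, add_mul, mul_add, mul_assoc, ← h, ← mul_assoc, ← mul_assoc,
    int_comm a.re β, int_comm a.im β]

end CJI_

theorem P_CJI : T_CJI := by
  intro d v v' β h A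
  apply le_antisymm
  · rw [Submodule.mul_le]
    intro x hx y hy
    obtain ⟨a, ha, rfl⟩ := Submodule.mem_map.1 hx
    obtain ⟨n, rfl⟩ := Submodule.mem_span_singleton.1 hy
    rw [mul_smul_comm, CJI_.key d h a, ← smul_mul_assoc]
    exact Submodule.mul_mem_mul (Submodule.mem_span_singleton.2 ⟨n, rfl⟩)
      (Submodule.mem_map.2 ⟨a, ha, rfl⟩)
  · rw [Submodule.mul_le]
    intro y hy x hx
    obtain ⟨a, ha, rfl⟩ := Submodule.mem_map.1 hx
    obtain ⟨n, rfl⟩ := Submodule.mem_span_singleton.1 hy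
    rw [smul_mul_assoc, ← CJI_.key d h a, ← mul_smul_comm]
    exact Submodule.mul_mem_mul (Submodule.mem_map.2 ⟨a, ha, rfl⟩)
      (Submodule.mem_span_singleton.2 ⟨n, rfl⟩)

end Pool.Agent.XPR
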