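import Pool.Agent.XPR.Targets

/-! # XPR: target CLS (the class number divides the number of representations) -/

set_option autoImplicit false

open scoped Quaternion NumberField

noncomputable section

namespace Pool.Agent.XPR

theorem P_CLS (hORB : T_ORB) (hVFI : T_VFI) (hEQV : T_EQV) (hSIZ : T_SIZ) (hCLM : T_CLM)
    (hTOT : T_TOT) (hCNG : T_CNG) (hRIN : T_RIN) (hINV : T_INV) (hMUL : T_MUL) (hSTB : T_STB) :
    T_CLS := by
  intro K _ _ m s hm h1 h3 hK hs
  obtain ⟨c, hc, hc1⟩ := hCLM K m s hm hK hs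
  obtain ⟨k, hk⟩ := hSIZ m hm h1 h3
  have : Finite (VSet m) := (hVFI m).1.to_subtype
  rw [← (hVFI m).2]
  refine hORB (VSet m) (CopM m) (ClassGroup (𝓞 K)) (fun v w => Cj v w)
    ⟨fun v => hEQV.refl v, fun h => hEQV.symm h, fun h h' => hEQV.trans h h'⟩ k hk
    (fun A v v' => Rel m A v v') c hc ?_ ?_ ?_ ?_ ?_
  · intro A v
    obtain ⟨v', hv', h⟩ := hTOT m A A.2 v v.2
    exact ⟨⟨v', hv'⟩, h⟩
  · intro A v w v' w' h h' h''
    exact hCNG m A v w v' w' v.2 w.2 h h' h''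
  · intro A v w v' w' h h' h''
    obtain ⟨B, hB, N, hN, hAB⟩ := hINV K m s hm hK hs A A.2
    exact hRIN m A B N hN hB hAB v w v' w' v.2 w.2 h h' h''
  · intro A B v v' v'' h h'
    exact hMUL m A B v v' v'' v.2 h h'
  · intro A v v' h h'
    obtain ⟨B, hB, N, hN, hAB⟩ := hINV K m s hm hK hs A A.2
    exact hc1 A (hSTB K m s hm hK hs A B N hN hAB v v' v.2 h h')

end Pool.Agent.XPR
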