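import Pool.Agent.XPR.Targets

/-!
# XPR: target `T_CNT`, the count of `XSet`
-/

set_option autoImplicit false

open scoped Quaternion NumberField

noncomputable section

namespace Pool.Agent.XPR

namespace CNT_

theorem odd_sq {a : ℤ} (h : Odd a) : a ^ 2 % 8 = 1 := by
  obtain ⟨k, rfl⟩ := h
  obtain ⟨m, hm⟩ := Int.even_mul_succ_self k
  have : (2 * k + 1) ^ 2 = 4 * (k * (k + 1)) + 1 := by ring
  rw [this, hm]
  omega

theorem even_sq {a : ℤ} (h : Even a) : a ^ 2 % 4 = 0 := by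
  obtain ⟨k, rfl⟩ := h
  have : (k + k) ^ 2 = 4 * (k * k) := by ring
  rw [this]
  omega

theorem four_dvd_sq {a : ℤ} (h : 4 ∣ a) : a ^ 2 % 8 = 0 := by
  obtain ⟨k, rfl⟩ := h
  have : (4 * k) ^ 2 = 8 * (2 * (k * k)) := by ring
  rw [this]
  omega

theorem pow_mod (l n : ℕ) (hl : l % 8 = 3) (hn : Odd n) : ((l : ℤ) ^ n) % 8 = 3 := by
  obtain ⟨k, rfl⟩ := hn
  have h1 : ((l : ℤ) ^ 2) % 8 = 1 := odd_sq (by
    rw [Int.odd_iff]; omega)
  have h2 : ∀ k : ℕ, (((l : ℤ) ^ 2) ^ k) % 8 = 1 := by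
    intro k
    induction k with
    | zero => norm_num
    | succ k ih => rw [pow_succ, Int.mul_emod, ih, h1]; norm_num
  rw [pow_succ, pow_mul, Int.mul_emod, h2 k]
  omega

/-- the sign of a boolean -/
def sg (b : Bool) : ℤ := if b then 1 else -1

theorem sg_cases (b : Bool) : sg b = 1 ∨ sg b = -1 := by
  cases b <;> simp [sg]

theorem sg_inj {b b' : Bool} (h : sg b = sg b') : b = b' := by
  cases b <;> cases b' <;> simp_all [sg]

theorem coords {e : ℤ} (he : e = 1 ∨ e = -1) (q : ℍ[ℤ]) :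
    ((e : ℍ[ℤ]) * q).re = e * q.re ∧
    ((e : ℍ[ℤ]) * q).re ^ 2 + ((e : ℍ[ℤ]) * q).imI ^ 2 + ((e : ℍ[ℤ]) * q).imJ ^ 2 +
      ((e : ℍ[ℤ]) * q).imK ^ 2 = q.re ^ 2 + q.imI ^ 2 + q.imJ ^ 2 + q.imK ^ 2 := by
  rcases he with rfl | rfl
  · simp
  · simp

theorem value {l n : ℕ} {ρ : Fin (l + 1) → ℍ[ℤ]} (hG : Gens l (l + 1) ρ) (hp : l.Prime)
    (hl : l % 8 = 3) (hn : Odd n) (h_W6 : T_W6) (h_W7 : T_W7) {e : ℤ} (he : e = 1 ∨ e = -1)
    {w : List (Fin (l + 1))} (hlen : w.length = n) (hr : Red w) (hc : w.head? ≠ w.getLast?) :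
    (e : ℍ[ℤ]) * W ρ w ∈ XSet l n := by
  obtain ⟨hpar, hnorm⟩ := h_W6 l (l + 1) ρ hG w
  obtain ⟨h1, h2⟩ := coords he (W ρ w)
  rw [hlen] at hpar hnorm
  have hodd : Odd l := Nat.odd_iff.2 (by omega)
  have hne : w ≠ [] := by
    rintro rfl
    rw [List.length_nil] at hlen
    rw [← hlen] at hn
    simp at hn
  have hdiv : ¬ (l : ℤ) ∣ (W ρ w).re := by
    rw [h_W7 l (l + 1) ρ hG hp hodd w hr hne]
    exact hc
  unfold Par at hpar
  rw [if_neg (Nat.not_even_iff_odd.2 hn)] at hpar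
  obtain ⟨e0, e1, e2, e3⟩ := hpar
  have hre : (4 : ℤ) ∣ (W ρ w).re := by
    obtain ⟨r, hr'⟩ := e0
    have hs1 := odd_sq e1
    have hs2 := odd_sq e2
    have hs3 := odd_sq e3
    have hpm := pow_mod l n hl hn
    have hsq : (W ρ w).re ^ 2 % 8 = 0 := by omega
    rcases Int.even_or_odd r with h | h
    · obtain ⟨t, rfl⟩ := h
      exact ⟨t, by rw [hr']; ring⟩
    · exfalso
      have := odd_sq h
      rw [hr'] at hsq
      have e : (r + r) ^ 2 = 4 * r ^ 2 := by ring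
      rw [e] at hsq
      omega
  refine ⟨by rw [h2]; exact hnorm, ?_, ?_⟩
  · rw [h1]; exact Dvd.dvd.mul_left hre e
  · rw [h1]
    rcases he with rfl | rfl
    · simpa using hdiv
    · simpa using hdiv

theorem onto {l n : ℕ} {ρ : Fin (l + 1) → ℍ[ℤ]} (hG : Gens l (l + 1) ρ) (hp : l.Prime)
    (hl : l % 8 = 3) (hn : Odd n) (h_W5 : T_W5) (h_W7 : T_W7) {τ : ℍ[ℤ]} (hτ : τ ∈ XSet l n) :
    ∃ (b : Bool) (w : List (Fin (l + 1))), (w.length = n ∧ Red w ∧ w.head? ≠ w.getLast?) ∧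
      ((sg b : ℤ) : ℍ[ℤ]) * W ρ w = τ := by
  obtain ⟨hnorm, h4, hnd⟩ := hτ
  have hodd : Odd l := Nat.odd_iff.2 (by omega)
  have hpm := pow_mod l n hl hn
  have hs := four_dvd_sq h4
  have hsum : (τ.imI ^ 2 + τ.imJ ^ 2 + τ.imK ^ 2) % 4 = 3 := by omega
  have hcase : ∀ a : ℤ, (a ^ 2 % 4 = 0 ∧ Even a) ∨ (a ^ 2 % 4 = 1 ∧ Odd a) := by
    intro a
    rcases Int.even_or_odd a with h | h
    · exact Or.inl ⟨even_sq h, h⟩
    · exact Or.inr ⟨by have := odd_sq h; omega, h⟩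
  have hpar : Par n τ := by
    unfold Par
    rw [if_neg (Nat.not_even_iff_odd.2 hn)]
    refine ⟨?_, ?_, ?_, ?_⟩
    · obtain ⟨k, hk⟩ := h4
      exact ⟨2 * k, by rw [hk]; ring⟩
    · rcases hcase τ.imI with h | h
      · exfalso
        rcases hcase τ.imJ with h' | h' <;> rcases hcase τ.imK with h'' | h'' <;> omega
      · exact h.2
    · rcases hcase τ.imJ with h | h
      · exfalso
        rcases hcase τ.imI with h' | h' <;> rcases hcase τ.imK with h'' | h'' <;> omega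
      · exact h.2
    · rcases hcase τ.imK with h | h
      · exfalso
        rcases hcase τ.imI with h' | h' <;> rcases hcase τ.imJ with h'' | h'' <;> omega
      · exact h.2
  have hndiv : ¬ ∃ τ' : ℍ[ℤ], τ = (l : ℍ[ℤ]) * τ' := by
    rintro ⟨τ', h⟩
    apply hnd
    rw [h]
    refine ⟨τ'.re, ?_⟩
    simp
  obtain ⟨e, w, he, hr, hlen, hw⟩ := h_W5 l (l + 1) ρ hG hp hodd n τ hnorm hndiv hpar
  have hne : w ≠ [] := by
    rintro rfl
    rw [List.length_nil] at hlen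
    rw [← hlen] at hn
    simp at hn
  have hc : w.head? ≠ w.getLast? := by
    intro hc
    rw [← h_W7 l (l + 1) ρ hG hp hodd w hr hne] at hc
    apply hnd
    rw [hw, (coords he _).1]
    exact Dvd.dvd.mul_left hc e
  rcases he with rfl | rfl
  · exact ⟨true, w, ⟨hlen, hr, hc⟩, hw.symm⟩
  · exact ⟨false, w, ⟨hlen, hr, hc⟩, hw.symm⟩

end CNT_

open CNT_ in
theorem P_CNT (h_W4 : T_W4) (h_W5 : T_W5) (h_W6 : T_W6) (h_W7 : T_W7) (h_W8 : T_W8) : T_CNT := by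
  intro l n ρ hG hp hl hn
  have hodd : Odd l := Nat.odd_iff.2 (by omega)
  have h8 := h_W8 (l + 1) n (by have := hp.two_le; omega) hn
  rw [Nat.add_sub_cancel] at h8
  let S := {w : List (Fin (l + 1)) // w.length = n ∧ Red w ∧ w.head? ≠ w.getLast?}
  let f : Bool × S → XSet l n := fun x =>
    ⟨((sg x.1 : ℤ) : ℍ[ℤ]) * W ρ x.2.1,
      value hG hp hl hn h_W6 h_W7 (sg_cases x.1) x.2.2.1 x.2.2.2.1 x.2.2.2.2⟩
  have hf : Function.Bijective f := by
    constructor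
    · rintro ⟨b, w, hw⟩ ⟨b', w', hw'⟩ h
      have h1 : ((sg b : ℤ) : ℍ[ℤ]) * W ρ w = ((sg b' : ℤ) : ℍ[ℤ]) * W ρ w' :=
        congrArg Subtype.val h
      obtain ⟨h2, h3⟩ := h_W4 l (l + 1) ρ hG hp hodd w w' _ _ hw.2.1 hw'.2.1
        (hw.1.trans hw'.1.symm) (sg_cases b) (sg_cases b') h1
      obtain rfl := sg_inj h2
      subst h3
      rfl
    · rintro ⟨τ, hτ⟩
      obtain ⟨b, w, hw, h⟩ := onto hG hp hl hn h_W5 h_W7 hτ
      exact ⟨(b, ⟨w, hw⟩), Subtype.ext h⟩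
  have hcard : Nat.card (XSet l n) = 2 * Nat.card S := by
    rw [← Nat.card_congr (Equiv.ofBijective f hf), Nat.card_prod]
    simp
  rw [hcard]
  have h8' : Nat.card S + l = l ^ n := h8
  omega

end Pool.Agent.XPR
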