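import Pool.Agent.XPR.Targets

/-! # XPR: T_COP, every class contains an ideal prime to `n` (helper9) -/

set_option autoImplicit false

open scoped Quaternion NumberField

noncomputable section

namespace Pool.Agent.XPR

namespace COP_

variable {K : Type} [Field K] [NumberField K]

theorem exists_coprime {n : ℤ} (hn : n ≠ 0) (J : Ideal (𝓞 K)) (hJ : J ≠ 0) :
    ∃ (I : Ideal (𝓞 K)) (a : 𝓞 K), a ≠ 0 ∧ I ≠ 0 ∧ I * J = Ideal.span {a} ∧
      Ideal.span {(n : 𝓞 K)} ⊔ I = ⊤ := by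
  have hn' : (n : 𝓞 K) ≠ 0 := by exact_mod_cast hn
  have hs : Ideal.span {(n : 𝓞 K)} ≠ 0 := by
    rw [Ne, Ideal.zero_eq_bot, Ideal.span_singleton_eq_bot]
    exact hn'
  have key : ∃ a : 𝓞 K, a ≠ 0 ∧ J * Ideal.span {(n : 𝓞 K)} ⊔ Ideal.span {a} = J := by
    obtain ⟨a, ha⟩ := IsDedekindDomain.exists_sup_span_eq
      (Ideal.mul_le_left : J * Ideal.span {(n : 𝓞 K)} ≤ J) (mul_ne_zero hJ hs)
    by_cases h0 : a = 0
    · rw [h0, Ideal.span_singleton_eq_bot.2 rfl, sup_bot_eq] at ha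
      obtain ⟨a', ha', ha0⟩ := Submodule.exists_mem_ne_zero_of_ne_bot (p := J) (by simpa using hJ)
      refine ⟨a', ha0, ?_⟩
      rw [ha, sup_eq_left, Ideal.span_singleton_le_iff_mem]
      exact ha'
    · exact ⟨a, h0, ha⟩
  obtain ⟨a, ha0, ha⟩ := key
  have h1 : J ∣ Ideal.span {a} := by
    rw [Ideal.dvd_iff_le]
    calc Ideal.span {a} ≤ J * Ideal.span {(n : 𝓞 K)} ⊔ Ideal.span {a} := le_sup_right
      _ = J := ha
  obtain ⟨I, hI⟩ := h1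
  refine ⟨I, a, ha0, ?_, ?_, ?_⟩
  · rintro rfl
    rw [mul_zero, Ideal.zero_eq_bot, Ideal.span_singleton_eq_bot] at hI
    exact ha0 hI
  · rw [hI, mul_comm]
  · rw [hI, ← Ideal.mul_sup] at ha
    have h2 : J * (Ideal.span {(n : 𝓞 K)} ⊔ I) = J * 1 := by rw [ha, mul_one]
    rw [← Ideal.one_eq_top]
    exact mul_left_cancel₀ hJ h2

theorem coprime_norm {n : ℤ} (I : Ideal (𝓞 K)) (hI : I ≠ 0)
    (h : Ideal.span {(n : 𝓞 K)} ⊔ I = ⊤) : IsCoprime ((Ideal.absNorm I : ℕ) : ℤ) n := by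
  rw [Int.isCoprime_iff_gcd_eq_one, ← Int.natAbs_natCast (Ideal.absNorm I)]
  by_contra hg
  obtain ⟨q, hq, hqg⟩ := Nat.exists_prime_and_dvd hg
  have hqN : q ∣ Ideal.absNorm I := by
    have := (hqg.trans (Nat.gcd_dvd_left _ _))
    simpa using this
  have hqn : q ∣ n.natAbs := hqg.trans (Nat.gcd_dvd_right _ _)
  rw [Ideal.absNorm_apply, Submodule.cardQuot_apply] at hqN
  haveI := Fact.mk hq
  haveI : Finite (𝓞 K ⧸ I) := Ideal.finiteQuotientOfFreeOfNeBot I (by simpa using hI)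
  obtain ⟨x, hx⟩ := exists_prime_addOrderOf_dvd_card' q hqN
  obtain ⟨k, hk⟩ : (q : ℤ) ∣ n := Int.natCast_dvd.2 hqn
  have h1 : (n : 𝓞 K ⧸ I) * x = 0 := by
    have h2 : (q : ℕ) • x = 0 := by rw [← hx]; exact addOrderOf_nsmul_eq_zero x
    rw [hk]
    push_cast
    rw [mul_comm (q : 𝓞 K ⧸ I), mul_assoc, ← nsmul_eq_mul, h2, mul_zero]
  have h3 : (1 : 𝓞 K) ∈ Ideal.span {(n : 𝓞 K)} ⊔ I := by rw [h]; trivial
  obtain ⟨y, hy, z, hz, hyz⟩ := Submodule.mem_sup.1 h3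
  obtain ⟨r, rfl⟩ := Ideal.mem_span_singleton'.1 hy
  have h4 : (Ideal.Quotient.mk I r) * (n : 𝓞 K ⧸ I) = 1 := by
    have h5 := congrArg (Ideal.Quotient.mk I) hyz
    rw [map_add, map_mul, map_one, Ideal.Quotient.eq_zero_iff_mem.2 hz, add_zero,
      map_intCast] at h5
    exact h5
  have h6 : x = 0 := by
    calc x = ((Ideal.Quotient.mk I r) * (n : 𝓞 K ⧸ I)) * x := by rw [h4, one_mul]
      _ = 0 := by rw [mul_assoc, h1, mul_zero]
  rw [h6, addOrderOf_zero] at hx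
  exact hq.one_lt.ne hx

end COP_

open COP_ in
theorem P_COP : T_COP := by
  intro K _ _ n hn c
  obtain ⟨J, hJ⟩ := ClassGroup.mk0_surjective c⁻¹
  have hJ0 : (J : Ideal (𝓞 K)) ≠ 0 := nonZeroDivisors.ne_zero J.2
  obtain ⟨I, a, ha, hI, hIJ, hsup⟩ := exists_coprime hn (J : Ideal (𝓞 K)) hJ0
  refine ⟨I, mem_nonZeroDivisors_of_ne_zero hI, ?_, (Ideal.absNorm I : ℕ),
    coprime_norm I hI hsup, ?_⟩
  · have h1 : ClassGroup.mk0 ⟨I, mem_nonZeroDivisors_of_ne_zero hI⟩ = (ClassGroup.mk0 J)⁻¹ := by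
      rw [ClassGroup.mk0_eq_mk0_inv_iff]
      exact ⟨a, ha, hIJ⟩
    rw [h1, hJ, inv_inv]
  · have := Ideal.absNorm_mem I
    exact_mod_cast this

end Pool.Agent.XPR
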