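import Pool.Agent.XPR.Base

/-!
# XPR: the targets (MP_13aecf_nt, exact `p`-rank one)

THEOREM. Let `p ≥ 5` be a prime such that `p² ∤ 3^p - 3` or `p² ∤ 11^p - 11`. Then there is an
imaginary quadratic field `K` with `p ∣ h(K)`, `p² ∤ h(K)`; so the `p`-rank of `Cl(K)` is `1`.

PROOF. `l = 3` or `11`. For `x ∈ ℤ` with `4 ∣ x`, `l ∤ x`, `x² < l^p` put `m = l^p - x²`,
`K = ℚ(√-m)`. (I) `h(K) ∣ r₃(m)`: the class group acts on the vectors of norm `m` in `ℤ³`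
(= pure Hurwitz quaternions) modulo units. (II) `p ∣ h(K)`: `(x + √-m) = L^p`, `L` not principal.
(III) `∑_x r₃(l^p - x²) = 2 (l^p - l)`: the quaternions of norm `l^p` in question are `±` the
cyclically reduced words in `l + 1` involutions. If `p² ∣ h(K)` for all `x`, then
`p² ∣ 2 (l^p - l)`.

Each `T_*` below is one job; the docstring is the complete proof. Every other `T_*` may be taken
as a hypothesis of the theorem `P_*` (do NOT import the proofs of other targets, only this file).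
Base.lean has `mem_RS_span`, `RS_mul_RS`, `ev_mul`, `ev_int`, `ev_mem`, `mem_img`, `V_sq`, `V_ne`,
`CopM_ne`, `int_comm`. Submodules of `ℍ[ℚ]` over `ℤ` form a semiring under `*`: use
`Submodule.mul_assoc`-style rewriting (`mul_assoc`), `Submodule.span_mul_span`.
-/

set_option autoImplicit false

open scoped Quaternion NumberField

noncomputable section

namespace Pool.Agent.XPR

/-! ## The Hurwitz order -/

/-- PROOF. `star (hq x y z w) = hq (x + w) (-y) (-z) (-w)`. -/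
def T_STAR : Prop := ∀ q : ℍ[ℚ], q ∈ Hur → star q ∈ Hur

/-- PROOF. For `q = hq x y z w`: `2 re = 2x + w` and
`normSq q = x² + y² + z² + w² + xw + yw + zw` (`Quaternion.normSq_def'`), an integer `≥ 0`. -/
def T_INT : Prop := ∀ q : ℍ[ℚ], q ∈ Hur →
  (∃ t : ℤ, 2 * q.re = t) ∧ ∃ n : ℕ, Quaternion.normSq q = n

/-- PROOF. Let `n_i` be the rounded coordinates of `b` (`abs_sub_round : |x - round x| ≤ 1/2`).
`q₀ = (n₀, n₁, n₂, n₃) = hq (n₀-n₃) (n₁-n₃) (n₂-n₃) (2 n₃)` is in `Hur` and `normSq (b - q₀) ≤ 1`,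
with equality only if `|b_i - n_i| = 1/2` for all `i`. In that case all coordinates of `b` are in
`1/2 + ℤ`, so `b ∈ Hur`; take `q = b`. -/
def T_EUC : Prop := ∀ b : ℍ[ℚ], ∃ q ∈ Hur, Quaternion.normSq (b - q) < 1

/-- Left ideals are principal. PROOF. Take `β ∈ L`, `β ≠ 0`, with minimal norm (a natural number by
T_INT). For `a ∈ L` apply T_EUC to `a β⁻¹`: `q ∈ Hur`, `normSq (a β⁻¹ - q) < 1`, so
`normSq (a - q β) < normSq β` and `a - q β ∈ L`; hence `a = q β`. Use `mem_RS_span`. -/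
def T_PRI : Prop := ∀ L : Submodule ℤ ℍ[ℚ], L ≤ RS → RS * L ≤ L → L ≠ ⊥ →
  ∃ β : ℍ[ℚ], β ≠ 0 ∧ RS * Submodule.span ℤ {β} = L

/-- Centralizer of a pure quaternion. PROOF. `v` pure, the pure part `b` of `β` commutes with `v`;
in coordinates `v × b = 0` (cross product), so `b = y v` because `v ≠ 0`
(`y = ⟨v, b⟩ / ⟨v, v⟩`; or divide by a nonzero coordinate of `v`). -/
def T_CEN : Prop := ∀ v β : ℍ[ℚ], v.re = 0 → v ≠ 0 → β * v = v * β →
  ∃ x y : ℚ, β = x • (1 : ℍ[ℚ]) + y • v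

/-- PROOF. `⊆`: `Submodule.map_le_iff_le_comap`; for `c ∈ A * B` use
`Submodule.mul_induction_on` (`Ideal` product) and `ev_mul`. `⊇`: `Submodule.mul_le` and `ev_mul`,
`Ideal.mul_mem_mul`. -/
def T_IMG : Prop := ∀ (d : ℤ) (v : ℍ[ℚ]), v * v = (d : ℍ[ℚ]) → ∀ A B : Ideal (ℤ√d),
  img d v (A * B) = img d v A * img d v B

/-- PROOF. Elementwise: `(a + b v') β = β (a + b v)` for integers `a, b` (`int_comm`). Both
inclusions by `Submodule.mul_le`, `Submodule.mem_span_singleton`. -/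
def T_CJI : Prop := ∀ (d : ℤ) (v v' β : ℍ[ℚ]), β * v = v' * β → ∀ A : Ideal (ℤ√d),
  img d v' A * Submodule.span ℤ {β} = Submodule.span ℤ {β} * img d v A

/-- PROOF. `⊇`: `N = ev N` is in the image. `⊆`: an element of `span {N}` is `N c` and
`ev (N c) = N ev c = ev c * N` with `ev c ∈ Hur` (`ev_mem`, `int_comm`), `RS_mul_RS`. -/
def T_SPN : Prop := ∀ (d : ℤ) (v : ℍ[ℚ]), v * v = (d : ℍ[ℚ]) → v ∈ Hur → ∀ N : ℤ,
  RS * img d v (Ideal.span {(N : ℤ√d)}) = RS * Submodule.span ℤ {(N : ℍ[ℚ])}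

/-- PROOF. `β' = r β` and `β = r' β'` with `r, r' ∈ Hur` (`mem_RS_span`), so `r' r β = β`, `r' r = 1`,
`normSq r' * normSq r = 1`, both are natural numbers (T_INT), so `normSq r = 1`. -/
def T_GEN : Prop := ∀ β β' : ℍ[ℚ], β ≠ 0 → β' ≠ 0 →
  RS * Submodule.span ℤ {β} = RS * Submodule.span ℤ {β'} →
  ∃ ε ∈ Hur, Quaternion.normSq ε = 1 ∧ β' = ε * β

/-- PROOF. If `ε ∈ Hur` and `normSq ε = 1` then `star ε ∈ Hur` and `star ε * ε = 1`; `⊆` is
`RS_mul_RS`; `⊇`: `r = (r star ε) ε`. -/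
def T_UNL : Prop := ∀ ε ∈ Hur, Quaternion.normSq ε = 1 → RS * Submodule.span ℤ {ε} = RS

/-! ## The relation `Rel` -/

/-- `Cj` is an equivalence relation. PROOF. reflexive: `ε = 1`; symmetric: `star ε`
(`star ε * ε = 1 = ε * star ε`); transitive: product. -/
def T_EQV : Prop := Equivalence Cj

/-- PROOF. `L = RS * img v A`. `img v A * span {v} ≤ img v A`, because `ev a * v = ev (a √d)`
(`ev_mul`, `V_sq`). So `β * v ∈ L * span {v} ≤ L = RS * span {β}`, i.e. `β v = r β` with `r ∈ Hur`;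
from `β v = v' β` we get `v' = r ∈ Hur`. `normSq v' = normSq v` (multiplicativity, `β ≠ 0`);
`v'.re = 0`: `v' v' = β v v β⁻¹ = -m` is real while `v' v' = 2 re(v') v' - normSq v'`, so
`re(v') v'` is real, so `re v' = 0` or `v'` real; in the second case `v'^2 = -m ≤ 0` gives `v' = 0`
(or use `re (β v β⁻¹) = re v` directly from `re (a b) = re (b a)`). -/
def T_MEM : Prop := ∀ (m : ℕ) (A : Ideal (ℤ√(-(m : ℤ)))) (v v' : ℍ[ℚ]), v ∈ VSet m →
  Rel m A v v' → v' ∈ VSet m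

/-- PROOF. `L = RS * img v A ≤ RS` (`ev_mem`, `RS_mul_RS`), `RS * L = L`, and `N ∈ L`, `N ≠ 0`
(`CopM_ne`) so `L ≠ ⊥`. T_PRI gives `β`; take `v' = β v β⁻¹`. T_MEM. -/
def T_TOT : Prop := ∀ (m : ℕ) (A : Ideal (ℤ√(-(m : ℤ)))), A ∈ CopM m →
  ∀ v ∈ VSet m, ∃ v' ∈ VSet m, Rel m A v v'

/-- PROOF. Let `β` be for `(v, v')`, `γ` for `(w, w')`, `ε v = w ε`. By T_CJI,
`img w A * span {ε} = span {ε} * img v A`. So
`RS * span {γ ε} = RS * span {γ} * span {ε} = RS * img w A * span {ε} = RS * span {ε} * img v A =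
RS * img v A = RS * span {β}` (T_UNL). By T_GEN `γ ε = δ β` with a unit `δ`. Then
`δ v' β = δ β v = γ ε v = γ w ε = w' γ ε = w' δ β`, so `δ v' = w' δ`. -/
def T_CNG : Prop := ∀ (m : ℕ) (A : Ideal (ℤ√(-(m : ℤ)))) (v w v' w' : ℍ[ℚ]), v ∈ VSet m →
  w ∈ VSet m → Cj v w → Rel m A v v' → Rel m A w w' → Cj v' w'

/-- PROOF. Let `β` be for `(v, v')` and `γ` for `(v', v'')`; take `γ β`. By T_CJI
`img v' B * span {β} = span {β} * img v B`, so `RS * span {γ β} = RS * span {γ} * span {β} =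
RS * img v' B * span {β} = RS * span {β} * img v B = RS * img v A * img v B = RS * img v (A * B)`
(T_IMG, `V_sq`). -/
def T_MUL : Prop := ∀ (m : ℕ) (A B : Ideal (ℤ√(-(m : ℤ)))) (v v' v'' : ℍ[ℚ]), v ∈ VSet m →
  Rel m A v v' → Rel m B v' v'' → Rel m (A * B) v v''

/-- PROOF. `RS * span {β} = RS * span {N}` (T_SPN), so by T_GEN `N = ε β` with a unit `ε`. As `N` is
central, `ε v' β = ε β v = N v = v N = v ε β`, so `ε v' = v ε`. (Then use symmetry: `star ε`.) -/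
def T_SPC : Prop := ∀ (m : ℕ) (N : ℤ) (v v' : ℍ[ℚ]), N ≠ 0 → v ∈ VSet m →
  Rel m (Ideal.span {(N : ℤ√(-(m : ℤ)))}) v v' → Cj v v'

/-- PROOF. Take `v''` with `Rel B v' v''` and `w''` with `Rel B w' w''` (T_TOT, T_MEM). `Cj v'' w''`
by T_CNG. `Rel (A * B) v v''`, `Rel (A * B) w w''` by T_MUL, and `A * B = span {N}`, so `Cj v v''`,
`Cj w w''` by T_SPC. T_EQV. -/
def T_RIN : Prop := ∀ (m : ℕ) (A B : Ideal (ℤ√(-(m : ℤ)))) (N : ℤ), N ≠ 0 → B ∈ CopM m →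
  A * B = Ideal.span {(N : ℤ√(-(m : ℤ)))} → ∀ v w v' w' : ℍ[ℚ], v ∈ VSet m → w ∈ VSet m →
  Rel m A v v' → Rel m A w w' → Cj v' w' → Cj v w

/-- Abstract orbit lemma. PROOF. Let `Z` be the quotient of `V` by `r` (finite). Each `a : M`
induces a map `T a : Z → Z` (`tot`, `cong`), injective by `inj`, so a permutation of `Z`; `mul` gives
`T (a b) = T b ∘ T a = T a ∘ T b`. Let `Γ` be the submonoid `{(T a, c a) : a}` of the finite group
`Perm Z × C`; it is a subgroup (finite, closed under multiplication; `(T 1, 1)`: the set is a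
subsemigroup of a finite group and nonempty). `Γ` acts on `Z` by the first component, and
`Γ → C` (second component) is surjective with kernel `N`; by `stab` the stabilizer of every `z` is
contained in `N`. So the size of every orbit is `|Γ| / |Stab| = |C| * (|N| / |Stab|)`, divisible by
`|C|`. Hence `|C| ∣ |Z|`, and `|V| = k |Z|` by `hk`. -/
def T_ORB : Prop := ∀ (V M C : Type) [Finite V] [CommMonoid M] [CommGroup C] [Finite C]
  (r : V → V → Prop) (_ : Equivalence r) (k : ℕ) (_ : ∀ v, Nat.card {w // r v w} = k)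
  (R : M → V → V → Prop) (c : M →* C) (_ : Function.Surjective c)
  (_ : ∀ a v, ∃ v', R a v v') (_ : ∀ a v w v' w', r v w → R a v v' → R a w w' → r v' w')
  (_ : ∀ a v w v' w', R a v v' → R a w w' → r v' w' → r v w)
  (_ : ∀ a b v v' v'', R a v v' → R b v' v'' → R (a * b) v v'')
  (_ : ∀ a v v', R a v v' → r v v' → c a = 1), Nat.card C ∣ Nat.card V

/-- PROOF. Coordinates of `hq x y z w` of norm `1` are bounded: `(w/2)² ≤ 1`, `(x + w/2)² ≤ 1`, ...,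
so `w ∈ [-2, 2]`, `x, y, z ∈ [-2, 2]`: a subset of the image of a finite set. -/
def T_UFI : Prop := Set.Finite {ε : ℍ[ℚ] | ε ∈ Hur ∧ Quaternion.normSq ε = 1}

/-- PROOF. By T_CEN `ε = x + y v` with `x, y` rational (`v ≠ 0` by `V_ne`). `2x = t ∈ ℤ` (T_INT) and
`x² + m y² = normSq ε = 1`, so `t ∈ {0, ±1, ±2}`. `t = ±2`: `m y² = 0`, `y = 0`, `ε = ±1`.
`t = 0`: `m y² = 1`, so `m = (1/y)²` is the square of a rational number, so a square.
`t = ±1`: `m y² = 3/4`, `3m = (3/(2y))²`, so `3m` is a square. -/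
def T_STU : Prop := ∀ (m : ℕ), m ≠ 0 → ¬ IsSquare m → ¬ IsSquare (3 * m) →
  ∀ v ∈ VSet m, ∀ ε ∈ Hur, Quaternion.normSq ε = 1 → ε * v = v * ε → ε = 1 ∨ ε = -1

/-- PROOF. Let `U` be the finite set (T_UFI) of units. For `v ∈ VSet m` the map
`U → {w : VSet m // Cj v w}`, `ε ↦ ε v ε⁻¹` (`ε⁻¹ = star ε`), is onto, and two units have the same
image iff they differ by a sign (T_STU applied to `(star ε') ε`). So `|U| = 2 * card`;
take `k = |U| / 2`. (`ε v star ε ∈ VSet m`: subring, norm multiplicative, real part of a conjugate.) -/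
def T_SIZ : Prop := ∀ (m : ℕ), m ≠ 0 → ¬ IsSquare m → ¬ IsSquare (3 * m) →
  ∃ k : ℕ, ∀ v : VSet m, Nat.card {w : VSet m // Cj (v : ℍ[ℚ]) (w : ℍ[ℚ])} = k

/-- PROOF. A pure Hurwitz quaternion `hq x y z w` has `x + w/2 = 0`, so `w = -2x` is even and the
coordinates `y + w/2, z + w/2, w/2` are integers; conversely `(a, b, c) ∈ ℤ³` gives
`⟨0, a, b, c⟩ = hq (-c) (a-c) (b-c) (2c)`. The bijection respects the norm. Finite: coordinates are
bounded by `m`. -/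
def T_VFI : Prop := ∀ m : ℕ, (VSet m).Finite ∧ Nat.card (VSet m) = Nat.card (r3set m)

/-! ## Commutative algebra: `ℤ[√-m] ⊆ 𝓞 K` -/

/-- PROOF. `-m < 0` is not the square of a rational number, so `1, s` are linearly independent over
`ℚ` and form a basis, as the dimension is `2`. -/
def T_QXY : Prop := ∀ (K : Type) [Field K] [NumberField K] (m : ℕ) (s : 𝓞 K), m ≠ 0 →
  Module.finrank ℚ K = 2 → s * s = ((-(m : ℤ) : ℤ) : 𝓞 K) →
  ∀ z : K, ∃ x y : ℚ, z = (x : K) + (y : K) * (s : K)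

/-- PROOF. `z = x + y s` satisfies `z² - 2x z + (x² + m y²) = 0`. -/
def T_IN1 : Prop := ∀ (K : Type) [Field K] [NumberField K] (m : ℕ) (s : 𝓞 K),
  s * s = ((-(m : ℤ) : ℤ) : 𝓞 K) → ∀ x y : ℚ, (∃ t : ℤ, 2 * x = t) →
  (∃ n : ℤ, x ^ 2 + m * y ^ 2 = n) → IsIntegral ℤ ((x : K) + (y : K) * (s : K))

/-- PROOF. Trace and norm of `z = x + y s` over `ℚ` are `2x` and `x² + m y²` (basis `1, s`), and they
are integers because `z` is integral (`Algebra.isIntegral_trace`, `Algebra.isIntegral_norm`,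
`IsIntegrallyClosed.isIntegral_iff`). Alternatively: if `y = 0` then `z = x` is a rational integer;
if `y ≠ 0` then `X² - 2x X + (x² + m y²)` is the minimal polynomial of `z` over `ℚ`, and it has
integer coefficients (`minpoly.isIntegrallyClosed_eq_field_fractions'`). -/
def T_IN2 : Prop := ∀ (K : Type) [Field K] [NumberField K] (m : ℕ) (s : 𝓞 K), m ≠ 0 →
  Module.finrank ℚ K = 2 → s * s = ((-(m : ℤ) : ℤ) : 𝓞 K) →
  ∀ (z : 𝓞 K) (x y : ℚ), (z : K) = (x : K) + (y : K) * (s : K) →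
  (∃ t : ℤ, 2 * x = t) ∧ ∃ n : ℤ, x ^ 2 + m * y ^ 2 = n

/-- PROOF. `z = x + y s` (T_QXY), `2x = t`, `x² + m y² = n` integers (T_IN2).
`(2 m y)² = 4 m (n - x²) = 4 m n - m t²` is an integer, so the rational number `2 m y` is an
integer `b` (a rational whose square is an integer is an integer); `2 m x = m t`. So
`2 m z = m t + b s = psi ⟨m t, b⟩`. -/
def T_C1 : Prop := ∀ (K : Type) [Field K] [NumberField K] (m : ℕ) (s : 𝓞 K), m ≠ 0 →
  Module.finrank ℚ K = 2 → ∀ (hs : s * s = ((-(m : ℤ) : ℤ) : 𝓞 K)) (z : 𝓞 K),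
  ∃ a : ℤ√(-(m : ℤ)), psi m s hs a = 2 * (m : 𝓞 K) * z

/-- PROOF. `u N + w (2m) = 1`, so `z = u (N z) + w (2 m z)` is in the image (T_C1). -/
def T_C2 : Prop := ∀ (K : Type) [Field K] [NumberField K] (m : ℕ) (s : 𝓞 K), m ≠ 0 →
  Module.finrank ℚ K = 2 → ∀ (hs : s * s = ((-(m : ℤ) : ℤ) : 𝓞 K)) (N : ℤ) (z : 𝓞 K),
  IsCoprime N (2 * (m : ℤ)) → (∃ a : ℤ√(-(m : ℤ)), psi m s hs a = (N : 𝓞 K) * z) →
  ∃ b : ℤ√(-(m : ℤ)), psi m s hs b = z

/-- PROOF. `a + b s = 0` in `𝓞 K` with integers `a, b`: `a² = -m b²`, so `b = 0 = a`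
(`Zsqrtd.lift_injective`). -/
def T_PIN : Prop := ∀ (K : Type) [Field K] [NumberField K] (m : ℕ) (s : 𝓞 K), m ≠ 0 →
  ∀ (hs : s * s = ((-(m : ℤ) : ℤ) : 𝓞 K)), Function.Injective (psi m s hs)

/-- Ideals prime to `2m` are invertible. PROOF. Let `N ∈ A` be an integer prime to `2m` (`N ≠ 0` by
`CopM_ne`), `I = A.map psi`. As `span {N} ≤ I` there is an ideal `I'` of `𝓞 K` with
`I * I' = span {N}` (`Ideal.dvd_iff_le`, Dedekind). `B = I'.comap psi`. `N ∈ I'` because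
`span {N} = I * I' ≤ I'`; so `N ∈ B` and `B ∈ CopM m`.
(1) `A * B ≤ span {N}`: for `a ∈ A`, `b ∈ B`: `psi (a b) ∈ I * I'`, `psi (a b) = N z`; by T_C2
`z = psi c`, so `a b = N c` (T_PIN).
(2) `N ∈ A * B`: for `i ∈ I` we have `2 m i = psi a` with `a ∈ A` (`i = ∑ psi (a_j) z_j` and
`2 m z_j = psi (c_j)` by T_C1, so `2 m i = psi (∑ a_j c_j)`; use `Submodule.span_induction`); for
`i' ∈ I'`, `2 m i' = psi b` (T_C1) with `b ∈ B`. So `(2m)² t ∈ psi (A * B)` for every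
`t ∈ I * I'` (`Submodule.mul_induction_on`), in particular `(2m)² N ∈ A * B` (T_PIN). Also
`N² = N * N ∈ A * B`. Since `N` and `(2m)²` are coprime, `N = u N² + w (2m)² N ∈ A * B`. -/
def T_INV : Prop := ∀ (K : Type) [Field K] [NumberField K] (m : ℕ) (s : 𝓞 K), m ≠ 0 →
  Module.finrank ℚ K = 2 → s * s = ((-(m : ℤ) : ℤ) : 𝓞 K) →
  ∀ A ∈ CopM m, ∃ B ∈ CopM m, ∃ N : ℤ, N ≠ 0 ∧ A * B = Ideal.span {(N : ℤ√(-(m : ℤ)))}

/-- PROOF. `A = I.comap psi`; `N ∈ A`. `A.map psi ≤ I` is clear. For `i ∈ I`: `2 m i = psi a` (T_C1)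
with `a ∈ A`, and `N i ∈ A.map psi` because `N ∈ A`; `u N + w (2m) = 1`. -/
def T_SUR : Prop := ∀ (K : Type) [Field K] [NumberField K] (m : ℕ) (s : 𝓞 K), m ≠ 0 →
  Module.finrank ℚ K = 2 → ∀ (hs : s * s = ((-(m : ℤ) : ℤ) : 𝓞 K)) (I : Ideal (𝓞 K)),
  (∃ N : ℤ, IsCoprime N (2 * (m : ℤ)) ∧ (N : 𝓞 K) ∈ I) →
  ∃ A ∈ CopM m, A.map (psi m s hs) = I

/-- Every class contains an ideal prime to a given integer `n ≠ 0`. PROOF. Let `J` be an ideal in the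
class `c⁻¹`. By `IsDedekindDomain.exists_sup_span_eq` applied to `J * span {n} ≤ J` there is `a`
with `J * span {n} ⊔ span {a} = J`; `a ∈ J`, so `span {a} = J * I` (if `a = 0` replace: then
`J * span {n} = J` forces `span {n} = ⊤` and any nonzero `a ∈ J` works, or take
`a := n * (nonzero element of J)`), and cancelling `J`, `span {n} ⊔ I = ⊤`. `[I] = [J]⁻¹ = c`
(`ClassGroup.mk0_eq_mk0_inv_iff`). Let `N = absNorm I` (`N ∈ I` by `Ideal.absNorm_mem`, `N ≠ 0`).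
`N` is prime to `n`: multiplication by `n` is surjective on the finite ring `𝓞 K / I`, so bijective;
if a prime `q` divided `n` and `N = |𝓞 K / I|`, there would be an element of additive order `q`
(Cauchy), which is killed by `n`. -/
def T_COP : Prop := ∀ (K : Type) [Field K] [NumberField K] (n : ℤ), n ≠ 0 →
  ∀ c : ClassGroup (𝓞 K), ∃ (I : Ideal (𝓞 K)) (hI : I ∈ nonZeroDivisors (Ideal (𝓞 K))),
  ClassGroup.mk0 ⟨I, hI⟩ = c ∧ ∃ N : ℤ, IsCoprime N n ∧ (N : 𝓞 K) ∈ I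

/-- The map to the class group. PROOF. `c A = mk0 (A.map psi)`; `A.map psi ≠ ⊥` because it contains
`N ≠ 0` (`CopM_ne`; characteristic zero); multiplicative by `Ideal.map_mul`; surjective by T_COP
(with `n = 2m`) and T_SUR; `c A = 1` if `A.map psi` is principal by `ClassGroup.mk0_eq_one_iff`. -/
def T_CLM : Prop := ∀ (K : Type) [Field K] [NumberField K] (m : ℕ) (s : 𝓞 K), m ≠ 0 →
  Module.finrank ℚ K = 2 → ∀ (hs : s * s = ((-(m : ℤ) : ℤ) : 𝓞 K)),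
  ∃ c : CopM m →* ClassGroup (𝓞 K), Function.Surjective c ∧
    ∀ A : CopM m, ((A : Ideal (ℤ√(-(m : ℤ)))).map (psi m s hs)).IsPrincipal → c A = 1

/-- Stabilizers. PROOF. Let `β` be for `(v, v')` and `ε v = v' ε`, `ε` a unit. Replace `β` by
`γ = (star ε) β`: `γ ≠ 0`, `RS * span {γ} = RS * span {star ε} * span {β}`-argument gives
`RS * span {γ} = RS * img v A` (T_UNL; `mem_RS_span`), and `γ v = (star ε) v' β = v (star ε) β = v γ`.
By T_CEN `γ = x + y v`, `x, y` rational; put `c = x + y s ∈ K`, `c ≠ 0`.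
The map `x + y v ↦ x + y s` is a ring isomorphism of `ℚ(v)` with `K` (T_QXY), and if
`x' + y' v ∈ Hur` then `x' + y' s` is integral: `2x' ∈ ℤ`, `x'² + m y'² = normSq ∈ ℤ` (T_INT, T_IN1).
(i) For `a ∈ A`: `ev v a ∈ RS * img v A`, so `ev v a = r γ`, `r ∈ Hur`, `r = (ev v a) γ⁻¹ ∈ ℚ(v)`, so
`psi a = z c` with `z ∈ 𝓞 K`.
(ii) For `b ∈ B`: `γ (ev v b) ∈ RS * img v A * img v B = RS * img v (A B) = RS * span {N}` (T_IMG,
T_SPN), so `γ (ev v b) = N r'`, `r' ∈ Hur ∩ ℚ(v)`, so `c psi(b) = N z_b` with `z_b ∈ 𝓞 K`.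
As `N ∈ A * B`, `N = ∑ a_i b_i`, `c N = ∑ psi (a_i) (c psi (b_i)) = N ∑ psi (a_i) z_i`, so
`c = ∑ psi (a_i) z_i ∈ A.map psi` (in particular `c ∈ 𝓞 K`).
(i) and (ii) give `A.map psi = span {c}`. -/
def T_STB : Prop := ∀ (K : Type) [Field K] [NumberField K] (m : ℕ) (s : 𝓞 K), m ≠ 0 →
  Module.finrank ℚ K = 2 → ∀ (hs : s * s = ((-(m : ℤ) : ℤ) : 𝓞 K))
  (A B : Ideal (ℤ√(-(m : ℤ)))) (N : ℤ), N ≠ 0 → A * B = Ideal.span {(N : ℤ√(-(m : ℤ)))} →
  ∀ v v' : ℍ[ℚ], v ∈ VSet m → Rel m A v v' → Cj v v' → (A.map (psi m s hs)).IsPrincipal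

/-- Gauss: the class number divides the number of representations as a sum of three squares.
PROOF. T_ORB with `V = VSet m` (finite: T_VFI), `M = CopM m`, `C = ClassGroup (𝓞 K)`, `r = Cj`
(T_EQV), `k` from T_SIZ, `R = Rel m`, `c` from T_CLM; the hypotheses are T_TOT, T_CNG, T_RIN (with
T_INV), T_MUL, T_STB (with T_INV). -/
def T_CLS : Prop := ∀ (K : Type) [Field K] [NumberField K] (m : ℕ) (s : 𝓞 K), m ≠ 0 →
  ¬ IsSquare m → ¬ IsSquare (3 * m) → Module.finrank ℚ K = 2 →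
  s * s = ((-(m : ℤ) : ℤ) : 𝓞 K) → Nat.card (ClassGroup (𝓞 K)) ∣ Nat.card (r3set m)

/-! ## `p` divides the class number -/

/-- PROOF. Modulo `8`: `l^n ≡ 3`, `x² ≡ 0`, so `m ≡ 3 (mod 8)` is not a square and `≠ 0`.
`3 ∤ m`: for `l = 3`, `3 ∣ m` gives `3 ∣ x`; for `l = 11`, `11^n ≡ 2 (mod 3)` (`n` odd) and `3 ∣ m`
gives `x² ≡ 2 (mod 3)`. If `3 m = k²` then `3 ∣ k`, `9 ∣ 3 m`, `3 ∣ m`. -/
def T_MOD : Prop := ∀ (l n m : ℕ) (x : ℤ), l = 3 ∨ l = 11 → Odd n → 4 ∣ x → ¬ (l : ℤ) ∣ x →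
  x ^ 2 + m = (l : ℤ) ^ n → m ≠ 0 ∧ ¬ IsSquare m ∧ ¬ IsSquare (3 * m)

/-- PROOF. As in T_STU with T_QXY, T_IN2: `u = x + y s`, `2x = t`, `x² + m y² = n` integers, `n ≥ 0`.
Also for the inverse `u' = x' + y' s`, `n'`; `u u' = 1` gives `n n' = 1` (norms multiply:
`(x x' - m y y')² + m (x y' + x' y)² = n n'`), so `n = 1`. Then `t ∈ {0, ±1, ±2}`: `t = 0` gives
`m` a square, `t = ±1` gives `3m` a square, `t = ±2` gives `u = ±1`. -/
def T_UN : Prop := ∀ (K : Type) [Field K] [NumberField K] (m : ℕ) (s : 𝓞 K), m ≠ 0 →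
  ¬ IsSquare m → ¬ IsSquare (3 * m) → Module.finrank ℚ K = 2 →
  s * s = ((-(m : ℤ) : ℤ) : 𝓞 K) → ∀ u : (𝓞 K)ˣ, (u : 𝓞 K) = 1 ∨ (u : 𝓞 K) = -1

/-- PROOF. `(x + s)(x - s) = x² + m = l^n`. The ideals `span {x + s}` and `span {x - s}` are coprime:
their sum contains `2x` and `l^n`, coprime integers. Their product is `span {l}^n`. Use
`exists_eq_pow_of_mul_eq_pow_of_coprime` (the ideals of a Dedekind domain are a `GCDMonoid` with
trivial units). -/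
def T_PW : Prop := ∀ (K : Type) [Field K] [NumberField K] (m l n : ℕ) (s : 𝓞 K) (x : ℤ),
  s * s = ((-(m : ℤ) : ℤ) : 𝓞 K) → l.Prime → ¬ (l : ℤ) ∣ 2 * x → x ^ 2 + m = (l : ℤ) ^ n →
  ∃ L : Ideal (𝓞 K), L ^ n = Ideal.span {(x : 𝓞 K) + s}

/-- the Lucas sequence `V_0 = 2, V_1 = a, V_{n+2} = a V_{n+1} - b V_n` -/
def lucV (a b : ℤ) : ℕ → ℤ
  | 0 => 2
  | 1 => a
  | (n + 2) => a * lucV a b (n + 1) - b * lucV a b n

/-- PROOF. `α = x₁ + y₁ s` (T_QXY), `a = 2 x₁`, `b = x₁² + m y₁²` integers (T_IN2), `b ≥ 0`,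
`α' = x₁ - y₁ s`: `α + α' = a`, `α α' = b`, so `lucV a b n = α^n + α'^n` (induction). The map
`x + y s ↦ x - y s` is a ring automorphism (or compute: if `(x₁ + y₁ s)^n = X + Y s` then
`(x₁ - y₁ s)^n = X - Y s`, induction), so `x - s = u α'^n` (`u = ±1`) and
`l^n = (x + s)(x - s) = (α α')^n = b^n`, so `b = l` (`n ≠ 0`, both `≥ 0`). Then
`2 x = u (α^n + α'^n) = u lucV a l n` and `4 l - a² = 4 m y₁² ≥ 0`. -/
def T_VP : Prop := ∀ (K : Type) [Field K] [NumberField K] (m l n : ℕ) (s : 𝓞 K) (x : ℤ)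
  (α : 𝓞 K), m ≠ 0 → Module.finrank ℚ K = 2 → s * s = ((-(m : ℤ) : ℤ) : 𝓞 K) → n ≠ 0 →
  x ^ 2 + m = (l : ℤ) ^ n → ((x : 𝓞 K) + s = α ^ n ∨ (x : 𝓞 K) + s = - α ^ n) →
  ∃ a : ℤ, a ^ 2 ≤ 4 * l ∧ (2 * x = lucV a l n ∨ 2 * x = - lucV a l n)

/-- PROOF. `|a| ≤ 3` for `l = 3`, `|a| ≤ 6` for `l = 11`. `n` odd, `3 ∤ n`.
`a` odd: modulo `2` the sequence is `0, 1, 1, 0, 1, 1, ...`, so `V_n` is odd for `3 ∤ n`.
`a ≡ 2 (mod 4)`: `V_n ≡ 2 (mod 4)` for all `n`. `a = ±4` (`l = 11`): `V_n ≡ 2, 4, 2, 4, ... (mod 8)`, so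
`V_n ≡ 4 (mod 8)` for odd `n`. `a = 0`: `V_n = 0` for odd `n`. `l ∣ a`: `l ∣ V_n` for `n ≥ 1`.
So never `8 ∣ V_n` and `l ∤ V_n`. -/
def T_LUC : Prop := ∀ (l n : ℕ) (a : ℤ), l = 3 ∨ l = 11 → Odd n → ¬ 3 ∣ n → a ^ 2 ≤ 4 * l →
  ¬ (8 ∣ lucV a l n ∧ ¬ (l : ℤ) ∣ lucV a l n)

/-- PROOF. T_MOD (`p` is odd). `L` from T_PW (`l ∤ 2x`, `l` odd). If `L` were principal,
`L = span {α}`, then `span {α^p} = span {x + s}`, so `x + s = u α^p` with a unit `u = ±1` (T_UN,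
`Ideal.span_singleton_eq_span_singleton`), and T_VP gives `a` with `2x = ± V_p(a)`; `8 ∣ 2x`,
`l ∤ 2x`: contradiction to T_LUC (`3 ∤ p` as `p ≥ 5` is prime). So the class of `L` is `≠ 1` and its
`p`-th power is `1`: it has order `p` (`orderOf_eq_prime`), which divides the class number.
(`L ≠ 0` because `x + s ≠ 0`: its norm is `l^p`.) -/
def T_PDV : Prop := ∀ (K : Type) [Field K] [NumberField K] (m l p : ℕ) (s : 𝓞 K) (x : ℤ),
  Module.finrank ℚ K = 2 → s * s = ((-(m : ℤ) : ℤ) : 𝓞 K) → l = 3 ∨ l = 11 → p.Prime → 5 ≤ p →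
  4 ∣ x → ¬ (l : ℤ) ∣ x → x ^ 2 + m = (l : ℤ) ^ p → p ∣ Nat.card (ClassGroup (𝓞 K))

/-! ## The count -/

/-- `k` involutions of norm `l`: pure integral quaternions with odd coordinates, which separate
modulo `l` and detect the zero divisors modulo `l` -/
structure Gens (l k : ℕ) (ρ : Fin k → ℍ[ℤ]) : Prop where
  re : ∀ i, (ρ i).re = 0
  odd : ∀ i, Odd (ρ i).imI ∧ Odd (ρ i).imJ ∧ Odd (ρ i).imK
  nrm : ∀ i, (ρ i).imI ^ 2 + (ρ i).imJ ^ 2 + (ρ i).imK ^ 2 = (l : ℤ)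
  sep : ∀ i j, i ≠ j →
    ¬ (l : ℤ) ∣ (ρ i).imI * (ρ j).imI + (ρ i).imJ * (ρ j).imJ + (ρ i).imK * (ρ j).imK
  ex : ∀ τ : ℍ[ℤ], (l : ℤ) ∣ τ.re ^ 2 + τ.imI ^ 2 + τ.imJ ^ 2 + τ.imK ^ 2 →
    ∃ i, ∃ τ' : ℍ[ℤ], ρ i * τ = (l : ℍ[ℤ]) * τ'

/-- PROOF. `i+j+k, i+j-k, i-j+k, -i+j+k` (any sign choice). `ex`: a statement about `τ` modulo `3`:
for `(a, b, c, d) ∈ (ZMod 3)^4` with `a²+b²+c²+d² = 0` there is `i` such that the four coordinates
of `ρ_i τ` vanish; `decide`. -/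
def T_G3 : Prop := ∃ ρ : Fin 4 → ℍ[ℤ], Gens 3 4 ρ

/-- PROOF. The 12 vectors `(3, ±1, ±1), (±1, 3, ±1), (±1, ±1, 3)` (pure quaternions).
`sep`: `decide` (the inner products are odd and `< 11` in absolute value). `ex`: a statement modulo
`11` on `(ZMod 11)^4` (14641 cases, 1441 of them of norm `0`): `decide +kernel` on a boolean
function with natural numbers, or by homogeneity reduce to few cases, or: let `τ` be primitive,
the left kernel of `τ` modulo `11` in the pure quaternions is a line spanned by an isotropic vector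
of `(ZMod 11)^3`, and every isotropic vector is proportional to one of the twelve (`decide` on
`11^3` vectors): if `τ ≠ 0` and `N(τ) = 0` take `u ∈ {1, i, j, k}` with `τ u star τ`... any way. -/
def T_G11 : Prop := ∃ ρ : Fin 12 → ℍ[ℤ], Gens 11 12 ρ

/-- the word `ρ_{w₁} ρ_{w₂} ⋯` -/
def W {k : ℕ} (ρ : Fin k → ℍ[ℤ]) (w : List (Fin k)) : ℍ[ℤ] := (w.map ρ).prod

/-- reduced words -/
def Red {k : ℕ} (w : List (Fin k)) : Prop := w.IsChain (· ≠ ·)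

/-- PROOF. Two facts. (A) `ρ_i ρ_i = -l` (pure, norm `l`). (B) if `i ≠ j` and `l ∣ ρ_i τ`,
`l ∣ ρ_j τ` (all coordinates, i.e. `= l * τ'`) then `l ∣ τ`: `ρ_i ρ_j + ρ_j ρ_i = -2 ⟨ρ_i, ρ_j⟩`, so
`l ∣ 2 ⟨ρ_i, ρ_j⟩ τ`, and `l ∤ 2 ⟨ρ_i, ρ_j⟩`, `l` prime. Induction on the word: `W [] = 1`,
`W [i] = ρ_i` has norm `l`, not divisible by `l²`. `w = i :: j :: w'`: suppose `W w = ρ_i τ ≡ 0`,
`τ = W (j :: w')`; also `ρ_j τ = ρ_j ρ_j W w' ≡ 0`; by (B) `τ ≡ 0`, contradiction to the induction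
hypothesis. -/
def T_W3 : Prop := ∀ (l k : ℕ) (ρ : Fin k → ℍ[ℤ]), Gens l k ρ → l.Prime → Odd l →
  ∀ w : List (Fin k), Red w → ¬ ∃ τ : ℍ[ℤ], W ρ w = (l : ℍ[ℤ]) * τ

/-- PROOF. Induction on the length. `n = 0`: `e = e'`. For `w = i :: u`, `w' = i' :: u'`: with
`τ = W w = ± W w'` we have `ρ_i τ ≡ 0` and `ρ_{i'} τ ≡ 0` modulo `l` (as `ρ_i ρ_i = -l`), `τ ≢ 0` by
T_W3, so `i = i'` by (B) of T_W3; cancel `ρ_i` (`ℍ[ℤ]` has no zero divisors, or multiply by `ρ_i`: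
`-l W u = ∓ ...` and cancel `l`). -/
def T_W4 : Prop := ∀ (l k : ℕ) (ρ : Fin k → ℍ[ℤ]), Gens l k ρ → l.Prime → Odd l →
  ∀ (w w' : List (Fin k)) (e e' : ℤ), Red w → Red w' → w.length = w'.length →
  (e = 1 ∨ e = -1) → (e' = 1 ∨ e' = -1) → (e : ℍ[ℤ]) * W ρ w = (e' : ℍ[ℤ]) * W ρ w' →
  e = e' ∧ w = w'

/-- parity condition: `τ ≡ (i + j + k)^n (mod 2)` -/
def Par (n : ℕ) (τ : ℍ[ℤ]) : Prop :=
  if Even n then Odd τ.re ∧ Even τ.imI ∧ Even τ.imJ ∧ Even τ.imK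
  else Even τ.re ∧ Odd τ.imI ∧ Odd τ.imJ ∧ Odd τ.imK

/-- PROOF. Induction on `n`. `n = 0`: norm `1` and `re` odd: `τ = ±1`, `w = []`.
`n + 1`: by `ex` there are `i` and `τ₁` with `ρ_i τ = l τ₁`; multiply by `ρ_i`: `-l τ = l ρ_i τ₁`, so
`τ = -ρ_i τ₁`. Norms: `l · N(τ₁) = l^(n+1)`, so `N(τ₁) = l^n`. `l ∤ τ₁`, otherwise `l ∣ τ`.
Parity: from `l τ₁ = ρ_i τ`, `l` odd, `ρ_i ≡ i + j + k (mod 2)` and the parity of `τ` one gets
`Par n τ₁` (both parities of `n`; four coordinates). Induction hypothesis: `τ₁ = e W w`, `w` reduced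
of length `n`; then `τ = -e W (i :: w)`, and `i :: w` is reduced: if `w = i :: u` then
`τ = -e ρ_i ρ_i W u = e l W u` would be divisible by `l`. -/
def T_W5 : Prop := ∀ (l k : ℕ) (ρ : Fin k → ℍ[ℤ]), Gens l k ρ → l.Prime → Odd l →
  ∀ (n : ℕ) (τ : ℍ[ℤ]), τ.re ^ 2 + τ.imI ^ 2 + τ.imJ ^ 2 + τ.imK ^ 2 = (l : ℤ) ^ n →
  (¬ ∃ τ' : ℍ[ℤ], τ = (l : ℍ[ℤ]) * τ') → Par n τ →
  ∃ (e : ℤ) (w : List (Fin k)), (e = 1 ∨ e = -1) ∧ Red w ∧ w.length = n ∧ τ = (e : ℍ[ℤ]) * W ρ w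

/-- PROOF. Norm: multiplicative, each letter has norm `l`. Parity: induction, all coordinates of the
letters are odd (`re = 0`): multiply `i + j + k` with `1`, resp. with `i + j + k` modulo `2`. -/
def T_W6 : Prop := ∀ (l k : ℕ) (ρ : Fin k → ℍ[ℤ]), Gens l k ρ →
  ∀ w : List (Fin k), Par w.length (W ρ w) ∧
    (W ρ w).re ^ 2 + (W ρ w).imI ^ 2 + (W ρ w).imJ ^ 2 + (W ρ w).imK ^ 2 = (l : ℤ) ^ w.length

/-- Trace criterion. PROOF. `τ = W w`, `τ² = 2 re(τ) τ - l^n` (every quaternion satisfies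
`τ² = 2 re(τ) τ - N(τ)`; `n ≥ 1`), and `τ² = W (w ++ w)`. If the last letter of `w` differs from the
first one, `w ++ w` is reduced, so `l ∤ W (w ++ w)` (T_W3), so `l ∤ re τ`. If it is equal, `w ++ w`
contains `i i` and `ρ_i ρ_i = -l`, so `l ∣ τ²`, `l ∣ 2 re(τ) τ`, and `l ∤ τ` (T_W3), so `l ∣ re τ`
(`l` odd prime; look at a coordinate of `τ` not divisible by `l`). -/
def T_W7 : Prop := ∀ (l k : ℕ) (ρ : Fin k → ℍ[ℤ]), Gens l k ρ → l.Prime → Odd l →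
  ∀ w : List (Fin k), Red w → w ≠ [] →
  ((l : ℤ) ∣ (W ρ w).re ↔ w.head? = w.getLast?)

/-- Proper colourings of a cycle. PROOF. Let `d n` (`e n`) be the number of reduced words of length `n`
with first letter `≠` (`=`) last letter. Append a letter: `e (n+1) = d n` (the new letter must be
the first letter), `d (n+1) = (k-2) d n + (k-1) e n` for `n ≥ 1`; `d 1 = 0`, `e 1 = k`. So
`d (n+2) = (k-2) d (n+1) + (k-1) d n`, `d n = (k-1)^n + (-1)^n (k-1)`. (Count with `Fin n → Fin k`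
or with lists and bijections; `k ≥ 2`.) -/
def T_W8 : Prop := ∀ (k n : ℕ), 2 ≤ k → Odd n →
  Nat.card {w : List (Fin k) // w.length = n ∧ Red w ∧ w.head? ≠ w.getLast?} + (k - 1)
    = (k - 1) ^ n

/-- the quaternions that are counted -/
def XSet (l n : ℕ) : Set ℍ[ℤ] := {τ | τ.re ^ 2 + τ.imI ^ 2 + τ.imJ ^ 2 + τ.imK ^ 2 = (l : ℤ) ^ n ∧
  4 ∣ τ.re ∧ ¬ (l : ℤ) ∣ τ.re}

/-- PROOF. `(e, w) ↦ e W w` is a bijection from `{±1} × {cyclically reduced words of length n}` onto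
`XSet l n`. Values: norm by T_W6; `re` even and the others odd (T_W6, `n` odd), and the norm
`l^n ≡ 3 (mod 8)` gives `re² ≡ 0 (mod 8)`, so `4 ∣ re`; `l ∤ re` by T_W7. Injective: T_W4. Onto: for
`τ ∈ XSet l n`: `re` is `≡ 0 (mod 4)`, the sum of the other three squares is `≡ 3 (mod 8)`, so all
three are odd (modulo `4`): `Par n τ`; `l ∤ τ` because `l ∤ re`; T_W5; cyclically reduced by T_W7.
Then T_W8 with `k = l + 1`. -/
def T_CNT : Prop := ∀ (l n : ℕ) (ρ : Fin (l + 1) → ℍ[ℤ]), Gens l (l + 1) ρ → l.Prime →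
  l % 8 = 3 → Odd n → Nat.card (XSet l n) + 2 * l = 2 * l ^ n

/-- PROOF. `XSet l n` is the disjoint union over `x ∈ ℤ` with `4 ∣ x`, `l ∤ x`, `x² ≤ l^n` of
`{τ : re τ = x}`, which is in bijection with `r3set (l^n - x²)`; all sets are finite. So the
cardinality is a sum of multiples of `D` (`Finset.dvd_sum`). -/
def T_SUM : Prop := ∀ l n D : ℕ, (∀ (x : ℤ) (m : ℕ), 4 ∣ x → ¬ (l : ℤ) ∣ x →
  x ^ 2 + m = (l : ℤ) ^ n → D ∣ Nat.card (r3set m)) → D ∣ Nat.card (XSet l n)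

/-! ## The end -/

/-- PROOF. `K = ℚ(√-m)` as `AdjoinRoot (X ^ 2 + C (m : ℚ))` (irreducible: degree `2`, no rational
root) or `IntermediateField.adjoin ℚ {√m i}` in `ℂ` or `QuadraticAlgebra`. Degree `2`. `s` = the root,
integral. No real embedding (`s² = -m < 0`), so `r₂ = 1` and the sign of the discriminant is `-1`
(`NumberField.sign_discr`). -/
def T_EXK : Prop := ∀ m : ℕ, m ≠ 0 → ∃ (K : Type) (_ : Field K) (_ : NumberField K) (s : 𝓞 K),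
  Module.finrank ℚ K = 2 ∧ NumberField.discr K < 0 ∧ s * s = ((-(m : ℤ) : ℤ) : 𝓞 K)

/-- PROOF. `C ≅ P × Q` with `|P| = p`, or: the kernel of `x ↦ x^p` has order `p` (it is a `p`-group
whose order divides `|C|`, nontrivial by Cauchy), and `|C / range| = |kernel|`
(`|C| = |kernel| * |range|`). A group killed by `p` has order a power of `p`. -/
def T_GRP : Prop := ∀ (C : Type) [CommGroup C] [Finite C] (p : ℕ), p.Prime → p ∣ Nat.card C →
  ¬ p ^ 2 ∣ Nat.card C → Nat.card (C ⧸ (powMonoidHom p : C →* C).range) = p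

end Pool.Agent.XPR
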