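import Mathlib
import Pool.Agent.XPR.Targets

/-!
# Project XPR: conjugacy under units is an equivalence relation (helper21)
-/

set_option autoImplicit false

open scoped Quaternion NumberField

namespace Pool.Agent.XPR

namespace EQV_

theorem star_mem {q : ℍ[ℚ]} (h : q ∈ Hur) : star q ∈ Hur := by
  obtain ⟨x, y, z, w, rfl⟩ := h
  refine ⟨x + w, -y, -z, -w, ?_⟩
  ext
  · simp only [Quaternion.re_star, hq_re]; push_cast; ring
  · simp only [Quaternion.imI_star, hq_imI]; push_cast; ring
  · simp only [Quaternion.imJ_star, hq_imJ]; push_cast; ring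
  · simp only [Quaternion.imK_star, hq_imK]; push_cast; ring

theorem star_mul_self' {q : ℍ[ℚ]} (h : Quaternion.normSq q = 1) : star q * q = 1 := by
  rw [Quaternion.star_mul_self, h]
  simp

theorem self_mul_star' {q : ℍ[ℚ]} (h : Quaternion.normSq q = 1) : q * star q = 1 := by
  rw [Quaternion.self_mul_star, h]
  simp

end EQV_

theorem P_EQV : T_EQV := by
  refine ⟨?_, ?_, ?_⟩
  · intro v
    exact ⟨1, one_mem Hur, by simp, by simp⟩
  · rintro v v' ⟨ε, hε, h1, h⟩
    refine ⟨star ε, EQV_.star_mem hε, by rw [Quaternion.normSq_star]; exact h1, ?_⟩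
    calc star ε * v' = star ε * v' * (ε * star ε) := by rw [EQV_.self_mul_star' h1, mul_one]
      _ = star ε * (v' * ε) * star ε := by simp only [mul_assoc]
      _ = star ε * (ε * v) * star ε := by rw [h]
      _ = (star ε * ε) * v * star ε := by simp only [mul_assoc]
      _ = v * star ε := by rw [EQV_.star_mul_self' h1, one_mul]
  · rintro a b c ⟨ε, hε, h1, h⟩ ⟨δ, hδ, h2, h'⟩
    refine ⟨δ * ε, mul_mem hδ hε, by rw [map_mul, h1, h2, one_mul], ?_⟩
    rw [mul_assoc, h, ← mul_assoc, h', mul_assoc]

end Pool.Agent.XPR
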