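import Pool.Agent.XPR.Targets

set_option autoImplicit false

open scoped Quaternion NumberField

namespace Pool.Agent.XPR

namespace EUC_

theorem sq_le (b : ℚ) : (b - round b) ^ 2 ≤ 1 / 4 := by
  have h := abs_le.1 (abs_sub_round b)
  nlinarith [h.1, h.2]

theorem half (b : ℚ) (h : (b - round b) ^ 2 = 1 / 4) : ∃ s : ℤ, b = s + 1 / 2 := by
  have h1 : (b - round b - 1 / 2) * (b - round b + 1 / 2) = 0 := by ring_nf; ring_nf at h; linarith
  rcases mul_eq_zero.1 h1 with h2 | h2
  · exact ⟨round b, by linarith⟩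
  · exact ⟨round b - 1, by push_cast; linarith⟩

end EUC_

open EUC_ in
theorem P_EUC : T_EUC := by
  intro b
  have h0 := sq_le b.re
  have h1 := sq_le b.imI
  have h2 := sq_le b.imJ
  have h3 := sq_le b.imK
  by_cases hs : (b.re - round b.re) ^ 2 + (b.imI - round b.imI) ^ 2 + (b.imJ - round b.imJ) ^ 2 +
      (b.imK - round b.imK) ^ 2 < 1
  · refine ⟨hq (round b.re - round b.imK) (round b.imI - round b.imK)
      (round b.imJ - round b.imK) (2 * round b.imK), ⟨_, _, _, _, rfl⟩, ?_⟩
    rw [Quaternion.normSq_def']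
    simp only [Quaternion.re_sub, Quaternion.imI_sub, Quaternion.imJ_sub, Quaternion.imK_sub,
      hq_re, hq_imI, hq_imJ, hq_imK]
    push_cast
    refine lt_of_eq_of_lt ?_ hs
    ring
  · push Not at hs
    obtain ⟨s0, e0⟩ := half b.re (by linarith)
    obtain ⟨s1, e1⟩ := half b.imI (by linarith)
    obtain ⟨s2, e2⟩ := half b.imJ (by linarith)
    obtain ⟨s3, e3⟩ := half b.imK (by linarith)
    refine ⟨b, ⟨s0 - s3, s1 - s3, s2 - s3, 2 * s3 + 1, ?_⟩, by simp⟩
    ext
    · rw [hq_re, e0]; push_cast; ring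
    · rw [hq_imI, e1]; push_cast; ring
    · rw [hq_imJ, e2]; push_cast; ring
    · rw [hq_imK, e3]; push_cast; ring

end Pool.Agent.XPR
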