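import Pool.Agent.XPR.Targets

/-!
# Project XPR: the imaginary quadratic field with a square root of `-m`
-/

set_option autoImplicit false

open scoped NumberField

namespace Pool.Agent.XPR

private theorem EXK_no_real {K : Type} [Field K] [NumberField K] (m : ℕ) (hm : m ≠ 0) (x : K)
    (hx : x * x = -(m : K)) (w : NumberField.InfinitePlace K) :
    ¬ NumberField.InfinitePlace.IsReal w := by
  intro hw
  obtain ⟨φ, hφ, -⟩ := hw
  have h1 : φ x * φ x = -(m : ℂ) := by
    rw [← map_mul, hx, map_neg, map_natCast]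
  have h2 : starRingEnd ℂ (φ x) = φ x := by
    have := congrArg (fun f : K →+* ℂ => f x) hφ
    simpa [NumberField.ComplexEmbedding.conjugate] using this
  obtain ⟨r, hr⟩ := Complex.conj_eq_iff_real.1 h2
  rw [hr] at h1
  have h3 : r * r = -(m : ℝ) := by exact_mod_cast h1
  have h4 : (0 : ℝ) < m := by exact_mod_cast Nat.pos_of_ne_zero hm
  nlinarith [mul_self_nonneg r]

private theorem EXK_discr {K : Type} [Field K] [NumberField K] (m : ℕ) (hm : m ≠ 0) (x : K)
    (hx : x * x = -(m : K)) (h2 : Module.finrank ℚ K = 2) : NumberField.discr K < 0 := by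
  classical
  have hr : NumberField.InfinitePlace.nrRealPlaces K = 0 := by
    unfold NumberField.InfinitePlace.nrRealPlaces
    rw [Fintype.card_eq_zero_iff]
    exact ⟨fun w => EXK_no_real m hm x hx w.1 w.2⟩
  have h := NumberField.InfinitePlace.card_add_two_mul_card_eq_rank K
  rw [hr, h2] at h
  have hc : NumberField.InfinitePlace.nrComplexPlaces K = 1 := by omega
  have hs := NumberField.sign_discr K
  rw [hc, pow_one] at hs
  exact Int.sign_eq_neg_one_iff_neg.1 hs

private theorem EXK_sq (m : ℕ) : (⟨0, 1⟩ : QuadraticAlgebra ℚ (-(m : ℚ)) 0) * ⟨0, 1⟩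
    = -((m : ℕ) : QuadraticAlgebra ℚ (-(m : ℚ)) 0) := by
  ext <;> simp

theorem P_EXK : T_EXK := by
  intro m hm
  have hf : Fact (∀ r : ℚ, r ^ 2 ≠ -(m : ℚ) + 0 * r) := ⟨by
    intro r hr
    have h4 : (0 : ℚ) < m := by exact_mod_cast Nat.pos_of_ne_zero hm
    nlinarith [sq_nonneg r]⟩
  let K := QuadraticAlgebra ℚ (-(m : ℚ)) 0
  have hfin : @Module.Finite ℚ K _ _ (DivisionRing.toRatAlgebra).toModule := by
    have : (DivisionRing.toRatAlgebra : Algebra ℚ K) = QuadraticAlgebra.instAlgebra :=
      Subsingleton.elim _ _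
    rw [this]
    infer_instance
  have hK : NumberField K := { to_charZero := inferInstance, to_finiteDimensional := hfin }
  have h2 : @Module.finrank ℚ K _ _ (DivisionRing.toRatAlgebra).toModule = 2 := by
    have : (DivisionRing.toRatAlgebra : Algebra ℚ K) = QuadraticAlgebra.instAlgebra :=
      Subsingleton.elim _ _
    rw [this]
    exact QuadraticAlgebra.finrank_eq_two _ _
  obtain ⟨x, hx⟩ : ∃ x : K, x * x = -(m : K) := ⟨_, EXK_sq m⟩
  have hint : IsIntegral ℤ x := by
    refine ⟨Polynomial.X ^ 2 + Polynomial.C (m : ℤ), Polynomial.monic_X_pow_add_C _ (by norm_num), ?_⟩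
    rw [Polynomial.eval₂_add, Polynomial.eval₂_pow, Polynomial.eval₂_X, Polynomial.eval₂_C, pow_two, hx]
    simp only [eq_intCast, Int.cast_natCast]
    exact neg_add_cancel (m : K)
  refine ⟨K, inferInstance, hK, ⟨x, hint⟩, h2, EXK_discr m hm x hx h2, ?_⟩
  apply NumberField.RingOfIntegers.ext
  push_cast
  exact hx

end Pool.Agent.XPR
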