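import Pool.Agent.XPR.Targets

/-!
# XPR: the twelve involutions of norm 11
-/

set_option autoImplicit false

open scoped Quaternion NumberField

namespace Pool.Agent.XPR

namespace G11_

/-- coordinates of the generators -/
def r (i : Fin 12) : ℤ × ℤ × ℤ :=
  match i with
  | 0 => (3, 1, 1)
  | 1 => (3, 1, -1)
  | 2 => (3, -1, 1)
  | 3 => (3, -1, -1)
  | 4 => (1, 3, 1)
  | 5 => (1, 3, -1)
  | 6 => (-1, 3, 1)
  | 7 => (-1, 3, -1)
  | 8 => (1, 1, 3)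
  | 9 => (1, -1, 3)
  | 10 => (-1, 1, 3)
  | 11 => (-1, -1, 3)

/-- the quaternion with the given coordinates -/
def mkq (a b c d : ℤ) : ℍ[ℤ] := ⟨a, b, c, d⟩

theorem mkq_re (a b c d : ℤ) : (mkq a b c d).re = a := rfl
theorem mkq_i (a b c d : ℤ) : (mkq a b c d).imI = b := rfl
theorem mkq_j (a b c d : ℤ) : (mkq a b c d).imJ = c := rfl
theorem mkq_k (a b c d : ℤ) : (mkq a b c d).imK = d := rfl

/-- the generators -/
def rho (i : Fin 12) : ℍ[ℤ] := mkq 0 (r i).1 (r i).2.1 (r i).2.2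

theorem rho_re (i : Fin 12) : (rho i).re = 0 := rfl
theorem rho_i (i : Fin 12) : (rho i).imI = (r i).1 := rfl
theorem rho_j (i : Fin 12) : (rho i).imJ = (r i).2.1 := rfl
theorem rho_k (i : Fin 12) : (rho i).imK = (r i).2.2 := rfl

theorem key0 : ∀ b c d : ZMod 11, b * b + c * c + d * d = 0 → ∃ i : Fin 12,
    ((r i).1 : ZMod 11) * b + (r i).2.1 * c + (r i).2.2 * d = 0 ∧
    ((r i).2.1 : ZMod 11) * d - (r i).2.2 * c = 0 ∧
    ((r i).2.2 : ZMod 11) * b - (r i).1 * d = 0 ∧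
    ((r i).1 : ZMod 11) * c - (r i).2.1 * b = 0 := by
  decide +kernel

theorem key1 : ∀ b c d : ZMod 11, 1 + b * b + c * c + d * d = 0 → ∃ i : Fin 12,
    ((r i).1 : ZMod 11) * b + (r i).2.1 * c + (r i).2.2 * d = 0 ∧
    ((r i).1 : ZMod 11) + (r i).2.1 * d - (r i).2.2 * c = 0 ∧
    ((r i).2.1 : ZMod 11) + (r i).2.2 * b - (r i).1 * d = 0 ∧
    ((r i).2.2 : ZMod 11) + (r i).1 * c - (r i).2.1 * b = 0 := by
  decide +kernel

theorem prime11 : Nat.Prime 11 := by norm_num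

theorem fin_check : ∀ a b c d : ZMod 11, a ^ 2 + b ^ 2 + c ^ 2 + d ^ 2 = 0 → ∃ i : Fin 12,
    -((r i).1 : ZMod 11) * b - ((r i).2.1 : ZMod 11) * c - ((r i).2.2 : ZMod 11) * d = 0 ∧
    ((r i).1 : ZMod 11) * a + ((r i).2.1 : ZMod 11) * d - ((r i).2.2 : ZMod 11) * c = 0 ∧
    ((r i).2.1 : ZMod 11) * a - ((r i).1 : ZMod 11) * d + ((r i).2.2 : ZMod 11) * b = 0 ∧
    ((r i).2.2 : ZMod 11) * a + ((r i).1 : ZMod 11) * c - ((r i).2.1 : ZMod 11) * b = 0 := by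
  intro a b c d h
  have : Fact (Nat.Prime 11) := ⟨prime11⟩
  by_cases ha : a = 0
  · subst ha
    obtain ⟨i, h1, h2, h3, h4⟩ := key0 b c d (by linear_combination h)
    refine ⟨i, by linear_combination -h1, by linear_combination h2, by linear_combination h3,
      by linear_combination h4⟩
  · have hi : a * a⁻¹ = 1 := mul_inv_cancel₀ ha
    obtain ⟨i, h1, h2, h3, h4⟩ := key1 (a⁻¹ * b) (a⁻¹ * c) (a⁻¹ * d)
      (by linear_combination (a⁻¹ * a⁻¹) * h - (1 + a * a⁻¹) * hi)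
    refine ⟨i, ?_, ?_, ?_, ?_⟩
    · linear_combination -a * h1 +
        ((r i).1 * b + (r i).2.1 * c + (r i).2.2 * d : ZMod 11) * hi
    · linear_combination a * h2 - ((r i).2.1 * d - (r i).2.2 * c : ZMod 11) * hi
    · linear_combination a * h3 - ((r i).2.2 * b - (r i).1 * d : ZMod 11) * hi
    · linear_combination a * h4 - ((r i).1 * c - (r i).2.1 * b : ZMod 11) * hi

theorem ex (τ : ℍ[ℤ]) (h : (11 : ℤ) ∣ τ.re ^ 2 + τ.imI ^ 2 + τ.imJ ^ 2 + τ.imK ^ 2) :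
    ∃ i, ∃ τ' : ℍ[ℤ], rho i * τ = ((11 : ℕ) : ℍ[ℤ]) * τ' := by
  have h0 : ((τ.re ^ 2 + τ.imI ^ 2 + τ.imJ ^ 2 + τ.imK ^ 2 : ℤ) : ZMod 11) = 0 :=
    (ZMod.intCast_zmod_eq_zero_iff_dvd _ 11).2 h
  push_cast at h0
  obtain ⟨i, h1, h2, h3, h4⟩ := fin_check _ _ _ _ h0
  refine ⟨i, ?_⟩
  have d1 : (11 : ℤ) ∣ -(r i).1 * τ.imI - (r i).2.1 * τ.imJ - (r i).2.2 * τ.imK := by
    refine (ZMod.intCast_zmod_eq_zero_iff_dvd _ 11).1 ?_
    push_cast
    exact h1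
  have d2 : (11 : ℤ) ∣ (r i).1 * τ.re + (r i).2.1 * τ.imK - (r i).2.2 * τ.imJ := by
    refine (ZMod.intCast_zmod_eq_zero_iff_dvd _ 11).1 ?_
    push_cast
    exact h2
  have d3 : (11 : ℤ) ∣ (r i).2.1 * τ.re - (r i).1 * τ.imK + (r i).2.2 * τ.imI := by
    refine (ZMod.intCast_zmod_eq_zero_iff_dvd _ 11).1 ?_
    push_cast
    exact h3
  have d4 : (11 : ℤ) ∣ (r i).2.2 * τ.re + (r i).1 * τ.imJ - (r i).2.1 * τ.imI := by
    refine (ZMod.intCast_zmod_eq_zero_iff_dvd _ 11).1 ?_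
    push_cast
    exact h4
  obtain ⟨k1, e1⟩ := d1
  obtain ⟨k2, e2⟩ := d2
  obtain ⟨k3, e3⟩ := d3
  obtain ⟨k4, e4⟩ := d4
  refine ⟨mkq k1 k2 k3 k4, ?_⟩
  have hr : ((11 : ℕ) : ℍ[ℤ]) = mkq 11 0 0 0 := rfl
  rw [hr]
  refine Quaternion.ext (R := ℤ) _ _ ?_ ?_ ?_ ?_
  · have e := Quaternion.re_mul (rho i) τ
    have e' := Quaternion.re_mul (mkq 11 0 0 0) (mkq k1 k2 k3 k4)
    simp only [rho_re, rho_i, rho_j, rho_k] at e
    simp only [mkq_re, mkq_i, mkq_j, mkq_k] at e'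
    rw [e, e']
    linarith
  · have e := Quaternion.imI_mul (rho i) τ
    have e' := Quaternion.imI_mul (mkq 11 0 0 0) (mkq k1 k2 k3 k4)
    simp only [rho_re, rho_i, rho_j, rho_k] at e
    simp only [mkq_re, mkq_i, mkq_j, mkq_k] at e'
    rw [e, e']
    linarith
  · have e := Quaternion.imJ_mul (rho i) τ
    have e' := Quaternion.imJ_mul (mkq 11 0 0 0) (mkq k1 k2 k3 k4)
    simp only [rho_re, rho_i, rho_j, rho_k] at e
    simp only [mkq_re, mkq_i, mkq_j, mkq_k] at e'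
    rw [e, e']
    linarith
  · have e := Quaternion.imK_mul (rho i) τ
    have e' := Quaternion.imK_mul (mkq 11 0 0 0) (mkq k1 k2 k3 k4)
    simp only [rho_re, rho_i, rho_j, rho_k] at e
    simp only [mkq_re, mkq_i, mkq_j, mkq_k] at e'
    rw [e, e']
    linarith

end G11_

open G11_ in
theorem P_G11 : T_G11 := by
  refine ⟨rho, ⟨fun i => rfl, ?_, ?_, ?_, ex⟩⟩
  · intro i
    fin_cases i <;> decide
  · intro i
    fin_cases i <;> decide
  · intro i j hij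
    fin_cases i <;> fin_cases j <;> first | exact absurd rfl hij | decide

end Pool.Agent.XPR
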