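import Pool.Agent.XPR.Targets

/-!
# XPR: two generators of a left ideal differ by a unit (`T_GEN`)
-/

set_option autoImplicit false

open scoped Quaternion NumberField

namespace Pool.Agent.XPR

private theorem GEN_mem (β : ℍ[ℚ]) : β ∈ RS * Submodule.span ℤ {β} :=
  mem_RS_span.2 ⟨1, one_mem Hur, (one_mul β).symm⟩

/-- norms of Hurwitz quaternions are natural numbers -/
private theorem GEN_nat (q : ℍ[ℚ]) (hmem : q ∈ Hur) : ∃ n : ℕ, Quaternion.normSq q = n := by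
  obtain ⟨x, y, z, w, rfl⟩ := mem_Hur.1 hmem
  have h : Quaternion.normSq (hq x y z w) =
      ((x ^ 2 + y ^ 2 + z ^ 2 + w ^ 2 + x * w + y * w + z * w : ℤ) : ℚ) := by
    rw [Quaternion.normSq_def']
    simp only [hq_re, hq_imI, hq_imJ, hq_imK]
    push_cast
    ring
  have h0 : (0 : ℚ) ≤ ((x ^ 2 + y ^ 2 + z ^ 2 + w ^ 2 + x * w + y * w + z * w : ℤ) : ℚ) := by
    rw [← h]; exact Quaternion.normSq_nonneg
  have h1 : 0 ≤ x ^ 2 + y ^ 2 + z ^ 2 + w ^ 2 + x * w + y * w + z * w := by exact_mod_cast h0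
  obtain ⟨n, hn⟩ := Int.eq_ofNat_of_zero_le h1
  exact ⟨n, by rw [h, hn]; push_cast; rfl⟩

theorem P_GEN : T_GEN := by
  intro β β' hβ hβ' h
  obtain ⟨r, hr, h1⟩ := mem_RS_span.1 (h ▸ GEN_mem β' : β' ∈ RS * Submodule.span ℤ {β})
  obtain ⟨r', hr', h2⟩ := mem_RS_span.1 (h ▸ GEN_mem β : β ∈ RS * Submodule.span ℤ {β'})
  refine ⟨r, hr, ?_, h1⟩
  have h3 : r' * r = 1 := by
    have : r' * r * β = 1 * β := by rw [mul_assoc, ← h1, ← h2, one_mul]
    exact mul_right_cancel₀ hβ this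
  obtain ⟨n, hn⟩ := GEN_nat r hr
  obtain ⟨n', hn'⟩ := GEN_nat r' hr'
  have h4 : Quaternion.normSq r' * Quaternion.normSq r = 1 := by
    rw [← map_mul, h3, map_one]
  rw [hn, hn'] at h4
  have h5 : n' * n = 1 := by exact_mod_cast h4
  rw [hn, Nat.eq_one_of_mul_eq_one_left h5]
  norm_num

end Pool.Agent.XPR
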