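import Pool.Agent.XPR.Targets

set_option autoImplicit false

noncomputable section

namespace Pool.Agent.XPR

theorem P_GRP : T_GRP := by
  intro C _ _ p hp hdvd hnd
  haveI : Fact p.Prime := ⟨hp⟩
  set φ : C →* C := powMonoidHom p with hφ
  have h1 : Nat.card (C ⧸ φ.range) * Nat.card φ.range = Nat.card C :=
    (Subgroup.card_eq_card_quotient_mul_card_subgroup φ.range).symm
  have h2 : Nat.card φ.ker * Nat.card φ.range = Nat.card C := by
    have e1 := Subgroup.card_eq_card_quotient_mul_card_subgroup φ.ker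
    have e2 : Nat.card (C ⧸ φ.ker) = Nat.card φ.range :=
      Nat.card_congr (QuotientGroup.quotientKerEquivRange φ).toEquiv
    rw [e1, e2, mul_comm]
  have hpos : 0 < Nat.card φ.range := Nat.card_pos
  have h3 : Nat.card (C ⧸ φ.range) = Nat.card φ.ker :=
    Nat.eq_of_mul_eq_mul_right hpos (h1.trans h2.symm)
  rw [h3]
  have hpg : IsPGroup p φ.ker := by
    intro g
    refine ⟨1, ?_⟩
    have hg : φ (g : C) = 1 := g.2
    have : (g : C) ^ p = 1 := by simpa [hφ, powMonoidHom] using hg
    apply Subtype.ext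
    simpa using this
  obtain ⟨k, hk⟩ := (IsPGroup.iff_card (p := p) (G := φ.ker)).1 hpg
  have hkd : Nat.card φ.ker ∣ Nat.card C := ⟨_, h2.symm⟩
  have hk1 : k < 2 := by
    by_contra hcon
    apply hnd
    rw [hk] at hkd
    exact (pow_dvd_pow p (not_lt.1 hcon)).trans hkd
  have hk0 : k ≠ 0 := by
    intro h0
    rw [h0, pow_zero] at hk
    obtain ⟨x, hx⟩ := exists_prime_orderOf_dvd_card' (G := C) p hdvd
    have hxk : x ∈ φ.ker := by
      rw [MonoidHom.mem_ker]
      have : x ^ p = 1 := by rw [← hx]; exact pow_orderOf_eq_one x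
      simpa [hφ, powMonoidHom] using this
    have hsub : φ.ker = ⊥ := Subgroup.eq_bot_of_card_eq φ.ker hk
    rw [hsub, Subgroup.mem_bot] at hxk
    rw [hxk, orderOf_one] at hx
    exact hp.one_lt.ne hx
  have hk' : k = 1 := by omega
  rw [hk, hk', pow_one]

end Pool.Agent.XPR
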