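import Pool.Agent.XPR.Targets

/-!
# XPR: the image of a product of ideals, `T_IMG` (helper93)
-/

set_option autoImplicit false

open scoped Quaternion NumberField

namespace Pool.Agent.XPR

theorem P_IMG : T_IMG := by
  intro d v hv A B
  apply le_antisymm
  · rintro _ ⟨c, hc, rfl⟩
    have hc' : c ∈ A * B := hc
    refine Submodule.mul_induction_on hc' (fun a ha b hb => ?_) (fun x y hx hy => ?_)
    · rw [ev_mul hv]
      exact Submodule.mul_mem_mul ⟨a, ha, rfl⟩ ⟨b, hb, rfl⟩
    · rw [map_add]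
      exact add_mem hx hy
  · rw [Submodule.mul_le]
    rintro _ ⟨a, ha, rfl⟩ _ ⟨b, hb, rfl⟩
    exact ⟨a * b, Ideal.mul_mem_mul ha hb, ev_mul hv a b⟩

end Pool.Agent.XPR
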