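import Pool.Agent.XPR.Targets

/-! # Project XPR: integrality criterion (IN1) (helper86) -/

set_option autoImplicit false

open scoped NumberField

namespace Pool.Agent.XPR

theorem P_IN1 : T_IN1 := by
  intro K _ _ m s hs x y ⟨t, ht⟩ ⟨n, hn⟩
  have hsK : (s : K) * (s : K) = -(m : K) := by
    have h1 := congrArg (fun z : 𝓞 K => (z : K)) hs
    simpa using h1
  have htK : (t : K) = 2 * (x : K) := by
    have h1 := congrArg (fun z : ℚ => (z : K)) ht
    push_cast at h1
    exact h1.symm
  have hnK : (n : K) = (x : K) ^ 2 + (m : K) * (y : K) ^ 2 := by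
    have h1 := congrArg (fun z : ℚ => (z : K)) hn
    push_cast at h1
    exact h1.symm
  refine ⟨Polynomial.X ^ 2 + (Polynomial.C (-t) * Polynomial.X + Polynomial.C n), ?_, ?_⟩
  · exact Polynomial.monic_X_pow_add (Polynomial.degree_linear_lt)
  · rw [Polynomial.eval₂_add, Polynomial.eval₂_add, Polynomial.eval₂_mul, Polynomial.eval₂_pow,
      Polynomial.eval₂_X, Polynomial.eval₂_C, Polynomial.eval₂_C, eq_intCast, eq_intCast,
      Int.cast_neg, htK, hnK]
    linear_combination (y : K) ^ 2 * hsK

end Pool.Agent.XPR
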