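import Pool.Agent.XPR.Targets

/-!
# Project XPR: trace and norm of a Hurwitz quaternion are integers
-/

set_option autoImplicit false

open scoped Quaternion NumberField

namespace Pool.Agent.XPR

theorem P_INT : T_INT := by
  intro q hq
  obtain ⟨x, y, z, w, rfl⟩ := mem_Hur.1 hq
  refine ⟨⟨2 * x + w, ?_⟩, ?_⟩
  · rw [hq_re]
    push_cast
    ring
  · have h : Quaternion.normSq (Pool.Agent.XPR.hq x y z w) =
        ((x ^ 2 + y ^ 2 + z ^ 2 + w ^ 2 + x * w + y * w + z * w : ℤ) : ℚ) := by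
      rw [Quaternion.normSq_def']
      simp only [hq_re, hq_imI, hq_imJ, hq_imK]
      push_cast
      ring
    have h0 : (0 : ℚ) ≤ Quaternion.normSq (Pool.Agent.XPR.hq x y z w) :=
      Quaternion.normSq_nonneg
    rw [h] at h0 ⊢
    have h1 : 0 ≤ x ^ 2 + y ^ 2 + z ^ 2 + w ^ 2 + x * w + y * w + z * w := by exact_mod_cast h0
    obtain ⟨n, hn⟩ := Int.eq_ofNat_of_zero_le h1
    exact ⟨n, by rw [hn]; simp⟩

end Pool.Agent.XPR
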