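import Pool.Agent.XPR.Targets

/-!
# Project XPR: ideals prime to `2m` are invertible in `ℤ[√-m]`
-/

set_option autoImplicit false

open scoped Quaternion NumberField

noncomputable section

namespace Pool.Agent.XPR

namespace INV_

theorem psi_int {K : Type} [Field K] [NumberField K] (m : ℕ) (s : 𝓞 K)
    (hs : s * s = ((-(m : ℤ) : ℤ) : 𝓞 K)) (N : ℤ) :
    psi m s hs (N : ℤ√(-(m : ℤ))) = ((N : ℤ) : 𝓞 K) :=
  map_intCast _ N

/-- `2 m z i` is in the image of `A` for `i` in the extended ideal -/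
theorem two_m_mem (h_C1 : T_C1) {K : Type} [Field K] [NumberField K] (m : ℕ) (s : 𝓞 K)
    (hm : m ≠ 0) (hfr : Module.finrank ℚ K = 2) (hs : s * s = ((-(m : ℤ) : ℤ) : 𝓞 K))
    (A : Ideal (ℤ√(-(m : ℤ)))) (i : 𝓞 K) (hi : i ∈ A.map (psi m s hs)) :
    ∀ z : 𝓞 K, ∃ a ∈ A, psi m s hs a = 2 * (m : 𝓞 K) * (z * i) := by
  induction hi using Submodule.span_induction with
  | mem x hx =>
    intro z
    obtain ⟨a, ha, rfl⟩ := hx
    obtain ⟨c, hc⟩ := h_C1 K m s hm hfr hs z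
    refine ⟨c * a, A.mul_mem_left _ ha, ?_⟩
    rw [map_mul, hc]; ring
  | zero => intro z; exact ⟨0, A.zero_mem, by simp⟩
  | add x y _ _ hx hy =>
    intro z
    obtain ⟨a, ha, h1⟩ := hx z
    obtain ⟨b, hb, h2⟩ := hy z
    exact ⟨a + b, A.add_mem ha hb, by rw [map_add, h1, h2]; ring⟩
  | smul w x _ hx =>
    intro z
    obtain ⟨a, ha, h1⟩ := hx (z * w)
    exact ⟨a, ha, by rw [h1, smul_eq_mul]; ring⟩

end INV_

open INV_ in
theorem P_INV (h_C1 : T_C1) (h_C2 : T_C2) (h_PIN : T_PIN) : T_INV := by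
  intro K _ _ m s hm hfr hs A hA
  obtain ⟨N, hN, hNA⟩ := hA
  have hN0 : N ≠ 0 := CopM_ne hN
  have hinj := h_PIN K m s hm hs
  have hNI : ((N : ℤ) : 𝓞 K) ∈ A.map (psi m s hs) := by
    have h1 := Ideal.mem_map_of_mem (psi m s hs) hNA
    rwa [psi_int] at h1
  have hle : Ideal.span {((N : ℤ) : 𝓞 K)} ≤ A.map (psi m s hs) :=
    (Ideal.span_singleton_le_iff_mem _).2 hNI
  obtain ⟨I', hI'⟩ := Ideal.dvd_iff_le.2 hle
  have hNI' : ((N : ℤ) : 𝓞 K) ∈ I' := by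
    have h1 : ((N : ℤ) : 𝓞 K) ∈ Ideal.span {((N : ℤ) : 𝓞 K)} := Ideal.mem_span_singleton_self _
    rw [hI'] at h1
    exact Ideal.mul_le_right h1
  have hNB : (N : ℤ√(-(m : ℤ))) ∈ I'.comap (psi m s hs) := by
    rw [Ideal.mem_comap, psi_int]; exact hNI'
  refine ⟨I'.comap (psi m s hs), ⟨N, hN, hNB⟩, N, hN0, le_antisymm ?_ ?_⟩
  · rw [Ideal.mul_le]
    intro a ha b hb
    have h1 : psi m s hs (a * b) ∈ Ideal.span {((N : ℤ) : 𝓞 K)} := by
      rw [hI', map_mul]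
      exact Ideal.mul_mem_mul (Ideal.mem_map_of_mem _ ha) hb
    obtain ⟨z, hz⟩ := Ideal.mem_span_singleton'.1 h1
    obtain ⟨c, hc⟩ := h_C2 K m s hm hfr hs N z hN ⟨a * b, by rw [← hz]; ring⟩
    rw [Ideal.mem_span_singleton']
    refine ⟨c, hinj ?_⟩
    rw [map_mul, hc, psi_int, hz]
  · rw [Ideal.span_singleton_le_iff_mem]
    -- `(2m)² t` is in the image of `A * B` for `t` in `I * I'`
    have key : ∀ t ∈ A.map (psi m s hs) * I', ∃ c ∈ A * I'.comap (psi m s hs),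
        psi m s hs c = (2 * (m : 𝓞 K)) ^ 2 * t := by
      intro t ht
      induction ht using Submodule.mul_induction_on' with
      | mem_mul_mem i hi i' hi' =>
        obtain ⟨a, ha, h1⟩ := two_m_mem h_C1 m s hm hfr hs A i hi 1
        obtain ⟨b, hb⟩ := h_C1 K m s hm hfr hs i'
        have hbm : b ∈ I'.comap (psi m s hs) := by
          rw [Ideal.mem_comap, hb]
          exact I'.mul_mem_left _ hi'
        refine ⟨a * b, Ideal.mul_mem_mul ha hbm, ?_⟩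
        rw [map_mul, h1, hb]; ring
      | add x _ y _ hx hy =>
        obtain ⟨a, ha, h1⟩ := hx
        obtain ⟨b, hb, h2⟩ := hy
        exact ⟨a + b, Ideal.add_mem _ ha hb, by rw [map_add, h1, h2]; ring⟩
    obtain ⟨c, hc, h1⟩ := key ((N : ℤ) : 𝓞 K) (by
      rw [← hI']; exact Ideal.mem_span_singleton_self _)
    have hc' : c = (2 * (m : ℤ√(-(m : ℤ)))) ^ 2 * (N : ℤ√(-(m : ℤ))) := by
      apply hinj
      rw [h1, map_mul, map_pow, map_mul, psi_int, map_natCast, map_ofNat]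
    have hNN : (N : ℤ√(-(m : ℤ))) * (N : ℤ√(-(m : ℤ))) ∈ A * I'.comap (psi m s hs) :=
      Ideal.mul_mem_mul hNA hNB
    have hcop : IsCoprime N ((2 * (m : ℤ)) ^ 2) := hN.pow_right
    obtain ⟨u, w, huw⟩ := hcop
    have huw' : (N : ℤ√(-(m : ℤ))) = (u : ℤ√(-(m : ℤ))) * ((N : ℤ√(-(m : ℤ))) * (N : ℤ√(-(m : ℤ))))
        + (w : ℤ√(-(m : ℤ))) * c := by
      have h2 : ((u * N + w * (2 * (m : ℤ)) ^ 2 : ℤ) : ℤ√(-(m : ℤ))) = 1 := by rw [huw]; simp
      push_cast at h2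
      rw [hc']
      calc (N : ℤ√(-(m : ℤ))) = ((u : ℤ√(-(m : ℤ))) * N + w * (2 * (m : ℤ√(-(m : ℤ)))) ^ 2) * N := by
            rw [h2, one_mul]
        _ = _ := by ring
    rw [huw']
    exact Ideal.add_mem _ (Ideal.mul_mem_left _ _ hNN) (Ideal.mul_mem_left _ _ hc)

end Pool.Agent.XPR
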