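import Pool.Agent.XPR.Targets

/-!
# XPR: Lucas sequences modulo 2, 4, 8
-/

set_option autoImplicit false

namespace Pool.Agent.XPR

theorem LUC_rec (a b : ℤ) (n : ℕ) :
    lucV a b (n + 2) = a * lucV a b (n + 1) - b * lucV a b n := rfl

theorem LUC_odd (a b : ℤ) (ha : Odd a) (hb : Odd b) (k : ℕ) :
    Even (lucV a b (3 * k)) ∧ Odd (lucV a b (3 * k + 1)) := by
  induction k with
  | zero => exact ⟨⟨1, rfl⟩, ha⟩
  | succ k ih =>
    obtain ⟨h0, h1⟩ := ih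
    have h2 : Odd (lucV a b (3 * k + 2)) := by
      rw [LUC_rec]
      exact (ha.mul h1).sub_even (h0.mul_left b)
    have h3 : Even (lucV a b (3 * k + 3)) := by
      rw [show 3 * k + 3 = (3 * k + 1) + 2 from rfl, LUC_rec]
      exact (ha.mul h2).sub_odd (hb.mul h1)
    have h4 : Odd (lucV a b (3 * k + 4)) := by
      rw [show 3 * k + 4 = (3 * k + 2) + 2 from rfl, LUC_rec]
      exact (h3.mul_left a).sub_odd (hb.mul h2)
    exact ⟨h3, h4⟩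

theorem LUC_odd' (a b : ℤ) (ha : Odd a) (hb : Odd b) (n : ℕ) (hn : ¬ 3 ∣ n) :
    Odd (lucV a b n) := by
  obtain ⟨h0, h1⟩ := LUC_odd a b ha hb (n / 3)
  have h2 : Odd (lucV a b (3 * (n / 3) + 2)) := by
    rw [LUC_rec]
    exact (ha.mul h1).sub_even (h0.mul_left b)
  have h3 : n = 3 * (n / 3) + 1 ∨ n = 3 * (n / 3) + 2 := by omega
  rcases h3 with h3 | h3
  · rw [h3]; exact h1
  · rw [h3]; exact h2

theorem LUC_two (c d : ℤ) (n : ℕ) :
    (∃ u, lucV (4 * c + 2) (2 * d + 1) n = 4 * u + 2) ∧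
      ∃ u, lucV (4 * c + 2) (2 * d + 1) (n + 1) = 4 * u + 2 := by
  induction n with
  | zero => exact ⟨⟨0, rfl⟩, ⟨c, rfl⟩⟩
  | succ n ih =>
    obtain ⟨⟨u, hu⟩, ⟨v, hv⟩⟩ := ih
    refine ⟨⟨v, hv⟩, ⟨4 * c * v + 2 * c + 2 * v - 2 * d * u - d - u, ?_⟩⟩
    rw [show n + 1 + 1 = n + 2 from rfl, LUC_rec, hu, hv]
    ring

theorem LUC_four (c d : ℤ) (k : ℕ) :
    (∃ u, lucV (8 * c + 4) (4 * d + 3) (2 * k) = 8 * u + 2) ∧
      ∃ u, lucV (8 * c + 4) (4 * d + 3) (2 * k + 1) = 8 * u + 4 := by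
  induction k with
  | zero => exact ⟨⟨0, rfl⟩, ⟨c, rfl⟩⟩
  | succ k ih =>
    obtain ⟨⟨u, hu⟩, ⟨v, hv⟩⟩ := ih
    have hw : lucV (8 * c + 4) (4 * d + 3) (2 * k + 2)
        = 8 * (8 * c * v + 4 * c + 4 * v + 1 - 4 * d * u - d - 3 * u) + 2 := by
      rw [LUC_rec, hu, hv]
      ring
    refine ⟨⟨_, hw⟩, ?_⟩
    refine ⟨8 * c * (8 * c * v + 4 * c + 4 * v + 1 - 4 * d * u - d - 3 * u) + 2 * c
      + 4 * (8 * c * v + 4 * c + 4 * v + 1 - 4 * d * u - d - 3 * u)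
      - 4 * d * v - 2 * d - 3 * v - 1, ?_⟩
    rw [show 2 * (k + 1) + 1 = (2 * k + 1) + 2 from rfl, LUC_rec, hv,
      show 2 * k + 1 + 1 = 2 * k + 2 from rfl, hw]
    ring

theorem LUC_zero (b : ℤ) (k : ℕ) : lucV 0 b (2 * k + 1) = 0 := by
  induction k with
  | zero => rfl
  | succ k ih =>
    rw [show 2 * (k + 1) + 1 = (2 * k + 1) + 2 from rfl, LUC_rec, ih]
    ring

theorem LUC_key (l n : ℕ) (a : ℤ) (hn : Odd n) (h3 : ¬ 3 ∣ n)
    (h : (Odd a ∧ Odd (l : ℤ)) ∨ (∃ c d : ℤ, a = 4 * c + 2 ∧ (l : ℤ) = 2 * d + 1) ∨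
      (∃ c d : ℤ, a = 8 * c + 4 ∧ (l : ℤ) = 4 * d + 3) ∨ a = 0) :
    ¬ (8 ∣ lucV a l n ∧ ¬ (l : ℤ) ∣ lucV a l n) := by
  rintro ⟨h8, hl⟩
  obtain ⟨k, hk⟩ := hn
  rcases h with ⟨ha, hb⟩ | ⟨c, d, ha, hb⟩ | ⟨c, d, ha, hb⟩ | ha
  · have h1 := LUC_odd' a l ha hb n h3
    obtain ⟨t, ht⟩ := h1
    omega
  · obtain ⟨⟨u, hu⟩, _⟩ := LUC_two c d n
    rw [ha, hb, hu] at h8
    omega
  · obtain ⟨_, ⟨u, hu⟩⟩ := LUC_four c d k
    rw [ha, hb, hk, hu] at h8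
    omega
  · apply hl
    rw [ha, hk, LUC_zero]
    exact dvd_zero _

theorem P_LUC : T_LUC := by
  intro l n a hl hn h3 ha
  apply LUC_key l n a hn h3
  rcases hl with rfl | rfl
  · have h1 : a ≤ 3 := by push_cast at ha; nlinarith
    have h2 : -3 ≤ a := by push_cast at ha; nlinarith
    interval_cases a
    · exact Or.inl ⟨by decide, by decide⟩
    · exact Or.inr (Or.inl ⟨-1, 1, by norm_num, by norm_num⟩)
    · exact Or.inl ⟨by decide, by decide⟩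
    · exact Or.inr (Or.inr (Or.inr rfl))
    · exact Or.inl ⟨by decide, by decide⟩
    · exact Or.inr (Or.inl ⟨0, 1, by norm_num, by norm_num⟩)
    · exact Or.inl ⟨by decide, by decide⟩
  · have h1 : a ≤ 6 := by push_cast at ha; nlinarith
    have h2 : -6 ≤ a := by push_cast at ha; nlinarith
    interval_cases a
    · exact Or.inr (Or.inl ⟨-2, 5, by norm_num, by norm_num⟩)
    · exact Or.inl ⟨by decide, by decide⟩
    · exact Or.inr (Or.inr (Or.inl ⟨-1, 2, by norm_num, by norm_num⟩))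
    · exact Or.inl ⟨by decide, by decide⟩
    · exact Or.inr (Or.inl ⟨-1, 5, by norm_num, by norm_num⟩)
    · exact Or.inl ⟨by decide, by decide⟩
    · exact Or.inr (Or.inr (Or.inr rfl))
    · exact Or.inl ⟨by decide, by decide⟩
    · exact Or.inr (Or.inl ⟨0, 5, by norm_num, by norm_num⟩)
    · exact Or.inl ⟨by decide, by decide⟩
    · exact Or.inr (Or.inr (Or.inl ⟨0, 2, by norm_num, by norm_num⟩))
    · exact Or.inl ⟨by decide, by decide⟩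
    · exact Or.inr (Or.inl ⟨1, 5, by norm_num, by norm_num⟩)

end Pool.Agent.XPR
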