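import Pool.Agent.XPR.Targets

/-!
# Project XPR: the relation preserves `VSet m` (`T_MEM`), helper14
-/

set_option autoImplicit false

open scoped Quaternion NumberField

namespace Pool.Agent.XPR

theorem MEM_.stable {d : ℤ} {v : ℍ[ℚ]} (hv : v * v = (d : ℍ[ℚ])) (A : Ideal (ℤ√d)) (y : ℍ[ℚ])
    (hy : y ∈ RS * img d v A) : y * v ∈ RS * img d v A := by
  induction hy using Submodule.mul_induction_on' with
  | mem_mul_mem r hr x hx =>
    obtain ⟨a, ha, rfl⟩ := mem_img.1 hx
    rw [mul_assoc]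
    refine Submodule.mul_mem_mul hr (mem_img.2 ⟨a * ⟨0, 1⟩, A.mul_mem_right _ ha, ?_⟩)
    rw [ev_mul hv]
    congr 1
    simp [ev_apply]
  | add a _ b _ ha hb =>
    rw [add_mul]
    exact add_mem ha hb

theorem P_MEM : T_MEM := by
  intro m A v v' hv hR
  obtain ⟨β, hβ, h1, h2⟩ := hR
  have h3 : β ∈ RS * img (-(m : ℤ)) v A := by
    rw [← h1]
    exact mem_RS_span.2 ⟨1, one_mem Hur, (one_mul β).symm⟩
  have h4 := MEM_.stable (V_sq hv) A β h3
  rw [← h1] at h4
  obtain ⟨r, hr, h5⟩ := mem_RS_span.1 h4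
  have h6 : v' = r := mul_right_cancel₀ hβ (h2.symm.trans h5)
  have h7 : v' = β * v * β⁻¹ := by
    rw [h2, mul_assoc, mul_inv_cancel₀ hβ, mul_one]
  refine ⟨h6 ▸ hr, ?_, ?_⟩
  · have h8 : ∀ a b : ℍ[ℚ], (a * b).re = (b * a).re := by
      intro a b
      simp only [Quaternion.re_mul]
      ring
    rw [h7, h8, ← mul_assoc, inv_mul_cancel₀ hβ, one_mul]
    exact hv.2.1
  · have h9 := congrArg Quaternion.normSq h2
    rw [map_mul, map_mul] at h9
    have h10 : Quaternion.normSq β ≠ 0 := fun h => hβ (Quaternion.normSq_eq_zero.1 h)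
    have h11 : Quaternion.normSq v' = Quaternion.normSq v := by
      have : Quaternion.normSq v' * Quaternion.normSq β = Quaternion.normSq v *
          Quaternion.normSq β := by rw [← h9, mul_comm]
      exact mul_right_cancel₀ h10 this
    rw [h11]
    exact hv.2.2

end Pool.Agent.XPR
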