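import Pool.Agent.XPR.Targets

set_option autoImplicit false

namespace Pool.Agent.XPR

theorem MOD_sq3 (k m : ℕ) (h : 3 * m = k * k) : 3 ∣ m := by
  have h3 : 3 ∣ k * k := ⟨m, h.symm⟩
  have hk : 3 ∣ k := by
    rcases (Nat.Prime.dvd_mul Nat.prime_three).1 h3 with h | h <;> exact h
  obtain ⟨c, rfl⟩ := hk
  exact ⟨c * c, by nlinarith⟩

theorem P_MOD : T_MOD := by
  intro l n m x hl hn hx hlx he
  obtain ⟨k, rfl⟩ := hn
  obtain ⟨y, rfl⟩ := hx
  have hl8 : ((l : ℤ) ^ 2) ≡ 1 [ZMOD 8] := by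
    rcases hl with rfl | rfl <;> decide
  have hl8' : (l : ℤ) ≡ 3 [ZMOD 8] := by
    rcases hl with rfl | rfl <;> decide
  have h1 : (l : ℤ) ^ (2 * k + 1) ≡ 3 [ZMOD 8] := by
    have := (hl8.pow k).mul hl8'
    rw [pow_succ, pow_mul]
    simpa using this
  have h2 : (m : ℤ) ≡ 3 [ZMOD 8] := by
    rw [← he] at h1
    have h3 : (4 * y) ^ 2 ≡ 0 [ZMOD 8] := by
      refine (Int.modEq_zero_iff_dvd).2 ⟨2 * y ^ 2, by ring⟩
    have := h1.sub h3
    simpa using this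
  have hm8 : m % 8 = 3 := by
    have : ((m : ℤ)) % 8 = 3 := h2
    omega
  have h3m : ¬ 3 ∣ m := by
    intro h3
    obtain ⟨c, rfl⟩ := h3
    rcases hl with rfl | rfl
    · apply hlx
      have h3 : (3 : ℤ) ∣ (4 * y) ^ 2 := by
        have : (4 * y) ^ 2 = 3 * ((3 : ℤ) ^ (2 * k) - c) := by
          push_cast at he
          have h30 : (3 : ℤ) ^ (2 * k + 1) = 3 ^ (2 * k) * 3 := pow_succ _ _
          rw [h30] at he
          linarith
        exact ⟨_, this⟩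
      have := Int.prime_three.dvd_of_dvd_pow h3
      simpa using this
    · have ha : ((11 : ℤ) ^ 2) ≡ 1 [ZMOD 3] := by decide
      have hb : (11 : ℤ) ≡ 2 [ZMOD 3] := by decide
      have hc : (11 : ℤ) ^ (2 * k + 1) ≡ 2 [ZMOD 3] := by
        have := (ha.pow k).mul hb
        rw [pow_succ, pow_mul]
        simpa using this
      have hd : (4 * y) ^ 2 ≡ 2 [ZMOD 3] := by
        have h0 : (4 * y) ^ 2 = (11 : ℤ) ^ (2 * k + 1) - 3 * c := by
          push_cast at he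
          linarith
        rw [h0]
        have : ((3 : ℤ) * c) ≡ 0 [ZMOD 3] := (Int.modEq_zero_iff_dvd).2 ⟨c, rfl⟩
        have := hc.sub this
        simpa using this
      have he2 : ((4 * y) ^ 2) % 3 = 2 := hd
      have h5 : ∀ z : ℤ, z ^ 2 % 3 ≠ 2 := by
        intro z
        have : z % 3 = 0 ∨ z % 3 = 1 ∨ z % 3 = 2 := by omega
        rcases this with h | h | h <;> simp [pow_two, Int.mul_emod, h]
      exact h5 _ he2
  refine ⟨?_, ?_, ?_⟩
  · rintro rfl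
    exact h3m (dvd_zero 3)
  · rintro ⟨r, rfl⟩
    have : r % 8 = 0 ∨ r % 8 = 1 ∨ r % 8 = 2 ∨ r % 8 = 3 ∨ r % 8 = 4 ∨ r % 8 = 5 ∨ r % 8 = 6 ∨
      r % 8 = 7 := by omega
    rcases this with h | h | h | h | h | h | h | h <;> simp [Nat.mul_mod, h] at hm8
  · rintro ⟨r, hr⟩
    exact h3m (MOD_sq3 r m hr)

end Pool.Agent.XPR
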