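import Pool.Agent.XPR.Targets

set_option autoImplicit false

open scoped Quaternion NumberField

namespace Pool.Agent.XPR

theorem P_MUL (hIMG : T_IMG) (hCJI : T_CJI) : T_MUL := by
  rintro m A B v v' v'' hv ⟨β, hβ0, hβ, hβv⟩ ⟨γ, hγ0, hγ, hγv⟩
  refine ⟨γ * β, mul_ne_zero hγ0 hβ0, ?_, ?_⟩
  · have h1 : Submodule.span ℤ {γ * β} = Submodule.span ℤ {γ} * Submodule.span ℤ {β} := by
      rw [Submodule.span_mul_span, Set.singleton_mul_singleton]
    rw [h1, ← mul_assoc, hγ, mul_assoc, hCJI _ v v' β hβv B, ← mul_assoc, hβ,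
      hIMG _ v (V_sq hv) A B, mul_assoc]
  · rw [mul_assoc, hβv, ← mul_assoc, hγv, mul_assoc]

end Pool.Agent.XPR
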