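import Pool.Agent.XPR.Targets

/-!
# Project XPR: the abstract orbit lemma T_ORB (helper50)
-/

set_option autoImplicit false

namespace Pool.Agent.XPR

namespace ORB_

/-- orbits: if all stabilizers are contained in a subgroup `N` then the index of `N` divides the
cardinality of the set. -/
theorem index_dvd {G Z : Type} [Group G] [Finite G] [Finite Z] [MulAction G Z] (N : Subgroup G)
    (h : ∀ z : Z, MulAction.stabilizer G z ≤ N) : N.index ∣ Nat.card Z := by
  classical
  have : Fintype (Quotient (MulAction.orbitRel G Z)) := Fintype.ofFinite _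
  rw [Nat.card_congr (MulAction.selfEquivSigmaOrbits G Z), Nat.card_sigma]
  refine Finset.dvd_sum fun ω _ => ?_
  rw [Nat.card_congr (MulAction.orbitEquivQuotientStabilizer G _)]
  show N.index ∣ (MulAction.stabilizer G (Quotient.out ω)).index
  have h1 : (MulAction.stabilizer G (Quotient.out ω)).relIndex N * N.index =
      (MulAction.stabilizer G (Quotient.out ω)).index := Subgroup.relIndex_mul_index (h _)
  rw [← h1]
  exact Dvd.intro_left _ rfl

end ORB_

theorem P_ORB : T_ORB := by
  intro V M C _ _ _ _ r hr k hk R c hc tot cong inj mul stab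
  classical
  let s : Setoid V := ⟨r, hr⟩
  choose f hf using tot
  let T0 : M → Quotient s → Quotient s := fun a => Quotient.map (f a)
    (fun v w hvw => cong a v w _ _ hvw (hf a v) (hf a w))
  have hT0 : ∀ a v, T0 a (Quotient.mk s v) = Quotient.mk s (f a v) := fun a v => rfl
  have hinj : ∀ a, Function.Injective (T0 a) := by
    intro a x y
    induction x using Quotient.inductionOn
    induction y using Quotient.inductionOn
    rename_i v w
    intro h
    rw [hT0, hT0] at h
    exact Quotient.sound (inj a v w _ _ (hf a v) (hf a w) (Quotient.exact h))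
  let T : M → Equiv.Perm (Quotient s) := fun a =>
    Equiv.ofBijective (T0 a) (Finite.injective_iff_bijective.1 (hinj a))
  have hT : ∀ a z, T a z = T0 a z := fun a z => rfl
  have hmul : ∀ a b, T (a * b) = T a * T b := by
    intro a b
    ext z
    induction z using Quotient.inductionOn
    rename_i v
    rw [Equiv.Perm.mul_apply, hT, hT, hT, hT0, hT0, hT0, mul_comm a b]
    exact Quotient.sound (cong (b * a) v v _ _ (hr.refl v) (hf _ _)
      (mul b a v _ _ (hf b v) (hf a (f b v))))
  have hone : T 1 = 1 := by
    have h := hmul 1 1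
    rw [mul_one] at h
    exact mul_left_cancel (a := T 1) (by rw [mul_one]; exact h.symm)
  let φ : M →* Equiv.Perm (Quotient s) × C :=
    { toFun := fun a => (T a, c a)
      map_one' := by rw [hone, map_one]; rfl
      map_mul' := fun a b => by rw [hmul, map_mul]; rfl }
  let Γ : Subgroup (Equiv.Perm (Quotient s) × C) :=
    { carrier := Set.range φ
      mul_mem' := by
        rintro _ _ ⟨a, rfl⟩ ⟨b, rfl⟩
        exact ⟨a * b, map_mul φ a b⟩
      one_mem' := ⟨1, map_one φ⟩
      inv_mem' := by
        rintro _ ⟨a, rfl⟩
        refine ⟨a ^ (orderOf (φ a) - 1), ?_⟩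
        rw [map_pow]
        refine (inv_eq_of_mul_eq_one_left ?_).symm
        rw [← pow_succ, Nat.sub_add_cancel (orderOf_pos (φ a)), pow_orderOf_eq_one] }
  let F : Γ →* C := (MonoidHom.snd _ _).comp Γ.subtype
  let A : Γ →* Equiv.Perm (Quotient s) := (MonoidHom.fst _ _).comp Γ.subtype
  let _ : MulAction Γ (Quotient s) := MulAction.compHom (Quotient s) A
  have hF : Function.Surjective F := by
    intro x
    obtain ⟨a, rfl⟩ := hc x
    exact ⟨⟨φ a, a, rfl⟩, rfl⟩
  have hstab : ∀ z : Quotient s, MulAction.stabilizer Γ z ≤ F.ker := by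
    rintro z ⟨_, a, rfl⟩ hg
    induction z using Quotient.inductionOn
    rename_i v
    have h1 : T0 a (Quotient.mk s v) = Quotient.mk s v := hg
    rw [hT0] at h1
    exact stab a v _ (hf a v) (hr.symm (Quotient.exact h1))
  have h1 := ORB_.index_dvd (G := Γ) (Z := Quotient s) F.ker hstab
  rw [Subgroup.index_ker, MonoidHom.range_eq_top.2 hF] at h1
  have h2 : Nat.card (⊤ : Subgroup C) = Nat.card C := Nat.card_congr (Equiv.Set.univ C)
  rw [h2] at h1
  have : Fintype (Quotient s) := Fintype.ofFinite _
  have h3 : Nat.card V = Nat.card (Quotient s) * k := by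
    rw [Nat.card_congr (Equiv.sigmaFiberEquiv (Quotient.mk s)).symm, Nat.card_sigma]
    rw [Finset.sum_congr rfl (g := fun _ => k)]
    · rw [Finset.sum_const, Finset.card_univ, Nat.card_eq_fintype_card, smul_eq_mul]
    · rintro z -
      obtain ⟨v, rfl⟩ := Quotient.exists_rep z
      rw [← hk v]
      refine Nat.card_congr (Equiv.subtypeEquivRight fun w => ?_)
      constructor
      · intro h
        exact hr.symm (Quotient.exact h)
      · intro h
        exact Quotient.sound (hr.symm h)
  rw [h3]
  exact h1.mul_right k

end Pool.Agent.XPR
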