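import Pool.Agent.XPR.Targets

/-!
# Project XPR, target `T_PDV`: `p` divides the class number
-/

set_option autoImplicit false

open scoped Quaternion NumberField

namespace Pool.Agent.XPR

theorem P_PDV (hMOD : T_MOD) (hUN : T_UN) (hPW : T_PW) (hVP : T_VP) (hLUC : T_LUC) : T_PDV := by
  intro K _ _ m l p s x hK hs hl hp h5 h4x hlx hx
  have hodd : Odd p := hp.odd_of_ne_two (by omega)
  have h3p : ¬ 3 ∣ p := by
    intro h
    rcases (Nat.dvd_prime hp).1 h with h | h <;> omega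
  obtain ⟨hm0, hm1, hm3⟩ := hMOD l p m x hl hodd h4x hlx hx
  have hlp : l.Prime := by rcases hl with rfl | rfl <;> norm_num
  have hl2 : ¬ (l : ℤ) ∣ 2 * x := by
    intro h
    have hpr : Prime (l : ℤ) := Nat.prime_iff_prime_int.1 hlp
    rcases hpr.dvd_or_dvd h with h | h
    · rcases hl with rfl | rfl
      · norm_num at h
      · norm_num at h
    · exact hlx h
  obtain ⟨L, hL⟩ := hPW K m l p s x hs hlp hl2 hx
  have hxs : (x : 𝓞 K) + s ≠ 0 := by
    intro h0
    have h1 : ((x : 𝓞 K) + s) * ((x : 𝓞 K) - s) = (((l : ℤ) ^ p : ℤ) : 𝓞 K) := by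
      have e : ((x : 𝓞 K) + s) * ((x : 𝓞 K) - s) = (x : 𝓞 K) ^ 2 - s * s := by ring
      rw [e, hs, ← hx]
      push_cast
      ring
    rw [h0, zero_mul] at h1
    have h2 : ((l : ℤ) ^ p : ℤ) = 0 := by exact_mod_cast h1.symm
    have h3 : (l : ℤ) ^ p ≠ 0 := pow_ne_zero _ (by exact_mod_cast hlp.ne_zero)
    exact h3 h2
  have hL0 : L ≠ ⊥ := by
    rintro rfl
    have h1 : (⊥ : Ideal (𝓞 K)) ^ p = ⊥ := by
      rw [← Ideal.zero_eq_bot, zero_pow hp.ne_zero]
    rw [h1] at hL
    exact hxs (Ideal.span_singleton_eq_bot.1 hL.symm)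
  have hLm : L ∈ nonZeroDivisors (Ideal (𝓞 K)) := mem_nonZeroDivisors_of_ne_zero (by
    rw [Ideal.zero_eq_bot]; exact hL0)
  set L' : nonZeroDivisors (Ideal (𝓞 K)) := ⟨L, hLm⟩ with hL'
  have hne : ClassGroup.mk0 L' ≠ 1 := by
    intro h1
    have h2 : (L : Ideal (𝓞 K)).IsPrincipal := (ClassGroup.mk0_eq_one_iff hLm).1 h1
    obtain ⟨α, hα⟩ := h2.principal
    have hα' : L = Ideal.span {α} := hα
    rw [hα', Ideal.span_singleton_pow, Ideal.span_singleton_eq_span_singleton] at hL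
    obtain ⟨u, hu⟩ := hL
    have hcase : (x : 𝓞 K) + s = α ^ p ∨ (x : 𝓞 K) + s = - α ^ p := by
      rcases hUN K m s hm0 hm1 hm3 hK hs u with h | h
      · left
        rw [← hu, h, mul_one]
      · right
        rw [← hu, h, mul_neg, mul_one]
    obtain ⟨a, ha, hxa⟩ := hVP K m l p s x α hm0 hK hs hp.ne_zero hx hcase
    apply hLUC l p a hl hodd h3p ha
    obtain ⟨c, hc⟩ := h4x
    constructor
    · rcases hxa with h | h
      · exact ⟨c, by rw [← h, hc]; ring⟩
      · exact ⟨-c, by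
          have : lucV a l p = -(2 * x) := by rw [h]; ring
          rw [this, hc]; ring⟩
    · intro h
      apply hl2
      rcases hxa with h' | h'
      · rw [h']; exact h
      · rw [h']; exact (dvd_neg).2 h
  have hpow : (ClassGroup.mk0 L') ^ p = 1 := by
    rw [← map_pow]
    have e : (L' ^ p : nonZeroDivisors (Ideal (𝓞 K))) =
        ⟨Ideal.span {(x : 𝓞 K) + s}, mem_nonZeroDivisors_of_ne_zero (by
          rw [Ideal.zero_eq_bot]
          intro h
          exact hxs (Ideal.span_singleton_eq_bot.1 h))⟩ := by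
      apply Subtype.ext
      simp only [SubmonoidClass.coe_pow, hL']
      exact hL
    rw [e]
    exact (ClassGroup.mk0_eq_one_iff _).2 ⟨⟨_, rfl⟩⟩
  have : Fact p.Prime := ⟨hp⟩
  have hord : orderOf (ClassGroup.mk0 L') = p := orderOf_eq_prime hpow hne
  rw [← hord]
  exact orderOf_dvd_natCard _

end Pool.Agent.XPR
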