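import Pool.Agent.XPR.Targets

/-! # XPR-PIN: `psi` is injective -/

set_option autoImplicit false

open scoped NumberField

namespace Pool.Agent.XPR

/-- PIN -/
theorem P_PIN : T_PIN := by
  intro K _ _ m s hm hs
  refine Zsqrtd.lift_injective _ fun n h => ?_
  have h1 : (0 : ℤ) ≤ n * n := mul_self_nonneg n
  have h2 : (0 : ℤ) < (m : ℤ) := by exact_mod_cast Nat.pos_of_ne_zero hm
  omega

end Pool.Agent.XPR
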