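import Pool.Agent.XPR.Targets

/-!
# Project XPR: left ideals of the Hurwitz order are principal
-/

set_option autoImplicit false

open scoped Quaternion NumberField

namespace Pool.Agent.XPR

theorem P_PRI (h_INT : T_INT) (h_EUC : T_EUC) : T_PRI := by
  intro L hL hRL hne
  obtain ⟨a0, ha0, ha0'⟩ := (Submodule.ne_bot_iff L).1 hne
  have hex : ∃ n : ℕ, ∃ β ∈ L, β ≠ 0 ∧ Quaternion.normSq β = (n : ℚ) := by
    obtain ⟨n, hn⟩ := (h_INT a0 (mem_RS.1 (hL ha0))).2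
    exact ⟨n, a0, ha0, ha0', hn⟩
  classical
  obtain ⟨β, hβ, hβ0, hn⟩ := Nat.find_spec hex
  have hmin : ∀ c ∈ L, c ≠ 0 → Quaternion.normSq β ≤ Quaternion.normSq c := by
    intro c hc hc0
    obtain ⟨k, hk⟩ := (h_INT c (mem_RS.1 (hL hc))).2
    have h1 := Nat.find_min' hex ⟨c, hc, hc0, hk⟩
    rw [hn, hk]
    exact_mod_cast h1
  have hNpos : 0 < Quaternion.normSq β := by
    refine lt_of_le_of_ne Quaternion.normSq_nonneg ?_
    intro h
    exact hβ0 (Quaternion.normSq_eq_zero.1 h.symm)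
  have hmem : ∀ r ∈ Hur, r * β ∈ L := fun r hr =>
    hRL (Submodule.mul_mem_mul (mem_RS.2 hr) hβ)
  refine ⟨β, hβ0, le_antisymm ?_ ?_⟩
  · intro x hx
    obtain ⟨r, hr, rfl⟩ := mem_RS_span.1 hx
    exact hmem r hr
  · intro a ha
    obtain ⟨q, hq, hlt⟩ := h_EUC (a * β⁻¹)
    have hc : a - q * β = (a * β⁻¹ - q) * β := by
      rw [sub_mul, mul_assoc, inv_mul_cancel₀ hβ0, mul_one]
    have hcL : a - q * β ∈ L := L.sub_mem ha (hmem q hq)
    have hc0 : a - q * β = 0 := by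
      by_contra h
      have h1 := hmin _ hcL h
      rw [hc, map_mul] at h1
      nlinarith
    exact mem_RS_span.2 ⟨q, hq, sub_eq_zero.1 hc0⟩

end Pool.Agent.XPR
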