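import Pool.Agent.XPR.Targets

/-!
# Project XPR: PW, the ideal of `x + s` is an `n`-th power (helper62)
-/

set_option autoImplicit false

open scoped Quaternion NumberField

namespace Pool.Agent.XPR

theorem P_PW : T_PW := by
  intro K _ _ m l n s x hs hl h2x hx
  have hx' : (x : 𝓞 K) ^ 2 + (m : 𝓞 K) = (l : 𝓞 K) ^ n := by
    have h := congrArg (Int.cast : ℤ → 𝓞 K) hx
    push_cast at h
    exact h
  have hs' : s * s = -(m : 𝓞 K) := by
    rw [hs]
    push_cast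
    rfl
  have hprod : ((x : 𝓞 K) + s) * ((x : 𝓞 K) - s) = (l : 𝓞 K) ^ n := by
    rw [← hx']
    linear_combination -hs'
  have hcopZ : IsCoprime (2 * x) ((l : ℤ) ^ n) := by
    apply IsCoprime.pow_right
    rw [isCoprime_comm]
    exact (Prime.coprime_iff_not_dvd (Nat.prime_iff_prime_int.1 hl)).2 h2x
  have hcop : IsCoprime ((x : 𝓞 K) + s) ((x : 𝓞 K) - s) := by
    obtain ⟨u, v, huv⟩ := hcopZ
    refine ⟨(u : 𝓞 K) + v * ((x : 𝓞 K) - s), (u : 𝓞 K), ?_⟩
    have h := congrArg (Int.cast : ℤ → 𝓞 K) huv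
    push_cast at h
    rw [← h]
    linear_combination (v : 𝓞 K) * hprod
  have hI : Ideal.span {(x : 𝓞 K) + s} * Ideal.span {(x : 𝓞 K) - s} =
      (Ideal.span {(l : 𝓞 K)}) ^ n := by
    rw [Ideal.span_singleton_mul_span_singleton, hprod, Ideal.span_singleton_pow]
  have hc := (Ideal.isCoprime_span_singleton_iff ((x : 𝓞 K) + s) ((x : 𝓞 K) - s)).2 hcop
  obtain ⟨L, hL⟩ := exists_eq_pow_of_mul_eq_pow_of_coprime hc hI
  exact ⟨L, hL.symm⟩

end Pool.Agent.XPR
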