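import Pool.Agent.XPR.Targets

set_option autoImplicit false

open scoped NumberField

namespace Pool.Agent.XPR

theorem P_QXY : T_QXY := by
  intro K _ _ m s hm hfin hs z
  have hsK : (s : K) * (s : K) = -(m : K) := by
    have h := congrArg (algebraMap (𝓞 K) K) hs
    simpa using h
  have hli : LinearIndependent ℚ ![(1 : K), (s : K)] := by
    rw [LinearIndependent.pair_iff]
    intro a b hab
    have hb : b = 0 := by
      by_contra hb
      have h1 : (b : K) ≠ 0 := by exact_mod_cast hb
      have h2 : (a : K) + (b : K) * (s : K) = 0 := by
        have := hab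
        simpa [Algebra.smul_def] using this
      have h3 : (s : K) = ((-(a / b) : ℚ) : K) := by
        push_cast
        field_simp
        linear_combination h2
      rw [h3] at hsK
      have h4 : (-(a / b)) * (-(a / b)) = -(m : ℚ) := by exact_mod_cast hsK
      have h5 : (0 : ℚ) < m := by exact_mod_cast Nat.pos_of_ne_zero hm
      nlinarith [mul_self_nonneg (-(a / b))]
    subst hb
    refine ⟨?_, rfl⟩
    simpa using hab
  have hspan := hli.span_eq_top_of_card_eq_finrank (by simp [hfin])
  have hz : z ∈ Submodule.span ℚ (Set.range ![(1 : K), (s : K)]) := by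
    rw [hspan]; trivial
  rw [Matrix.range_cons, Matrix.range_cons, Matrix.range_empty, Set.union_empty,
    Set.singleton_union, Submodule.mem_span_pair] at hz
  obtain ⟨x, y, hxy⟩ := hz
  refine ⟨x, y, ?_⟩
  rw [← hxy]
  simp [Algebra.smul_def]

end Pool.Agent.XPR
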