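import Pool.Agent.XPR.Targets

/-! # XPR, target `T_RIN`: injectivity up to conjugacy -/

set_option autoImplicit false

open scoped Quaternion NumberField

namespace Pool.Agent.XPR

theorem P_RIN (h_MEM : T_MEM) (h_TOT : T_TOT) (h_CNG : T_CNG) (h_MUL : T_MUL) (h_SPC : T_SPC)
    (h_EQV : T_EQV) : T_RIN := by
  intro m A B N hN hB hAB v w v' w' hv hw h1 h2 h3
  have hv' := h_MEM m A v v' hv h1
  have hw' := h_MEM m A w w' hw h2
  obtain ⟨v'', hv'', g1⟩ := h_TOT m B hB v' hv'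
  obtain ⟨w'', hw'', g2⟩ := h_TOT m B hB w' hw'
  have c1 : Cj v'' w'' := h_CNG m B v' w' v'' w'' hv' hw' h3 g1 g2
  have m1 := h_MUL m A B v v' v'' hv h1 g1
  have m2 := h_MUL m A B w w' w'' hw h2 g2
  rw [hAB] at m1 m2
  have s1 : Cj v v'' := h_SPC m N v v'' hN hv m1
  have s2 : Cj w w'' := h_SPC m N w w'' hN hw m2
  exact h_EQV.trans (h_EQV.trans s1 c1) (h_EQV.symm s2)

end Pool.Agent.XPR
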