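import Pool.Agent.XPR.Targets

/-!
# XPR: all conjugacy classes have the same size
-/

set_option autoImplicit false

open scoped Quaternion NumberField

noncomputable section

namespace Pool.Agent.XPR

namespace SIZ_

/-- the units of the Hurwitz order -/
abbrev U : Type := {ε : ℍ[ℚ] // ε ∈ Hur ∧ Quaternion.normSq ε = 1}

theorem star_mul_unit {ε : ℍ[ℚ]} (h : Quaternion.normSq ε = 1) : star ε * ε = 1 := by
  rw [Quaternion.star_mul_self, h]; rfl

theorem unit_mul_star {ε : ℍ[ℚ]} (h : Quaternion.normSq ε = 1) : ε * star ε = 1 := by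
  rw [Quaternion.self_mul_star, h]; rfl

theorem re_conj (ε v : ℍ[ℚ]) : (ε * v * star ε).re = v.re * Quaternion.normSq ε := by
  simp only [Quaternion.re_mul, Quaternion.imI_mul, Quaternion.imJ_mul, Quaternion.imK_mul,
    Quaternion.re_star, Quaternion.imI_star, Quaternion.imJ_star, Quaternion.imK_star,
    Quaternion.normSq_def']
  ring

theorem conj_mem (hS : T_STAR) {m : ℕ} {ε v : ℍ[ℚ]} (hε : ε ∈ Hur)
    (h1 : Quaternion.normSq ε = 1) (hv : v ∈ VSet m) : ε * v * star ε ∈ VSet m := by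
  obtain ⟨hvH, hv0, hvn⟩ := hv
  refine ⟨mul_mem (mul_mem hε hvH) (hS ε hε), ?_, ?_⟩
  · rw [re_conj, hv0, zero_mul]
  · rw [map_mul, map_mul, Quaternion.normSq_star, h1, hvn, one_mul, mul_one]

theorem conj_rel {ε v : ℍ[ℚ]} (h1 : Quaternion.normSq ε = 1) :
    ε * v = (ε * v * star ε) * ε := by
  rw [mul_assoc (ε * v), star_mul_unit h1, mul_one]

theorem ne_neg {ε : ℍ[ℚ]} (h1 : Quaternion.normSq ε = 1) : ε ≠ -ε := by
  intro h
  have h2 : ε = 0 := by
    have h3 : (2 : ℚ) • ε = 0 := by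
      rw [two_smul]
      nth_rewrite 2 [h]
      exact add_neg_cancel ε
    rcases smul_eq_zero.mp h3 with h4 | h4
    · norm_num at h4
    · exact h4
  rw [h2, map_zero] at h1
  exact zero_ne_one h1

theorem card_eq (hS : T_STAR) (hT : T_STU) (m : ℕ) (hm : m ≠ 0) (h1 : ¬ IsSquare m)
    (h3 : ¬ IsSquare (3 * m)) (v : VSet m) :
    Nat.card U = Nat.card {w : VSet m // Cj (v : ℍ[ℚ]) (w : ℍ[ℚ])} * 2 := by
  classical
  set W := {w : VSet m // Cj (v : ℍ[ℚ]) (w : ℍ[ℚ])} with hW
  choose e he1 he2 he3 using fun w : W => w.2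
  let g : W × Bool → U := fun x =>
    if x.2 then ⟨e x.1, he1 x.1, he2 x.1⟩
    else ⟨-(e x.1), neg_mem (he1 x.1), by rw [Quaternion.normSq_neg]; exact he2 x.1⟩
  have hgt : ∀ w : W, ((g (w, true) : U) : ℍ[ℚ]) = e w := fun w => rfl
  have hgf : ∀ w : W, ((g (w, false) : U) : ℍ[ℚ]) = -e w := fun w => rfl
  have hw : ∀ w : W, ((w : VSet m) : ℍ[ℚ]) = e w * (v : ℍ[ℚ]) * star (e w) := by
    intro w
    rw [he3 w, mul_assoc, unit_mul_star (he2 w), mul_one]
  have hinjW : ∀ w w' : W, e w = e w' ∨ e w = -e w' → w = w' := by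
    intro w w' h
    apply Subtype.ext
    apply Subtype.ext
    rw [hw w, hw w']
    rcases h with h | h
    · rw [h]
    · rw [h, star_neg, neg_mul, neg_mul, mul_neg, neg_neg]
  have hbij : Function.Bijective g := by
    constructor
    · rintro ⟨w, b⟩ ⟨w', b'⟩ h
      have h' := congrArg (fun u : U => (u : ℍ[ℚ])) h
      cases b <;> cases b'
      · simp only [hgf] at h'
        rw [hinjW w w' (Or.inl (neg_injective h'))]
      · simp only [hgf, hgt] at h'
        have h2 : w = w' := hinjW w w' (Or.inr (by rw [← h', neg_neg]))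
        subst h2
        exact absurd h'.symm (ne_neg (he2 w))
      · simp only [hgf, hgt] at h'
        have h2 : w = w' := hinjW w w' (Or.inr h')
        subst h2
        exact absurd h' (ne_neg (he2 w))
      · simp only [hgt] at h'
        rw [hinjW w w' (Or.inl h')]
    · rintro ⟨ε, hε, hn⟩
      let w : W := ⟨⟨ε * (v : ℍ[ℚ]) * star ε, conj_mem hS hε hn v.2⟩, ε, hε, hn, conj_rel hn⟩
      have hcomm : (star (e w) * ε) * (v : ℍ[ℚ]) = (v : ℍ[ℚ]) * (star (e w) * ε) := by
        have ha : ε * (v : ℍ[ℚ]) = ((w : VSet m) : ℍ[ℚ]) * ε := conj_rel hn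
        have hb : star (e w) * ((w : VSet m) : ℍ[ℚ]) = (v : ℍ[ℚ]) * star (e w) := by
          rw [hw w, ← mul_assoc, ← mul_assoc, star_mul_unit (he2 w), one_mul]
        rw [mul_assoc, ha, ← mul_assoc, hb, mul_assoc]
      have hmem : star (e w) * ε ∈ Hur := mul_mem (hS _ (he1 w)) hε
      have hnn : Quaternion.normSq (star (e w) * ε) = 1 := by
        rw [map_mul, Quaternion.normSq_star, he2 w, hn, one_mul]
      have hback : e w * (star (e w) * ε) = ε := by
        rw [← mul_assoc, unit_mul_star (he2 w), one_mul]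
      rcases hT m hm h1 h3 v v.2 _ hmem hnn hcomm with h | h
      · refine ⟨(w, true), Subtype.ext ?_⟩
        rw [hgt]
        rw [h, mul_one] at hback
        exact hback
      · refine ⟨(w, false), Subtype.ext ?_⟩
        rw [hgf]
        rw [h, mul_neg, mul_one] at hback
        exact hback
  rw [← Nat.card_eq_of_bijective g hbij, Nat.card_prod, Nat.card_eq_fintype_card (α := Bool),
    Fintype.card_bool]

end SIZ_

theorem P_SIZ (hSTAR : T_STAR) (hSTU : T_STU) : T_SIZ := by
  intro m hm h1 h3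
  refine ⟨Nat.card SIZ_.U / 2, fun v => ?_⟩
  rw [SIZ_.card_eq hSTAR hSTU m hm h1 h3 v, Nat.mul_div_cancel _ (by norm_num)]

end Pool.Agent.XPR
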