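import Pool.Agent.XPR.Targets

/-!
# XPR: the relation of the principal ideal generated by an integer (`T_SPC`)
-/

set_option autoImplicit false

open scoped Quaternion NumberField

namespace Pool.Agent.XPR

theorem P_SPC (hSPN : T_SPN) (hGEN : T_GEN) (hEQV : T_EQV) : T_SPC := by
  intro m N v v' hN hv hR
  obtain ⟨β, hβ, hβs, hβv⟩ := hR
  have hN' : (N : ℍ[ℚ]) ≠ 0 := by
    intro h
    have h1 := congrArg (fun q : ℍ[ℚ] => q.re) h
    simp at h1
    exact hN h1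
  rw [hSPN _ v (V_sq hv) hv.1 N] at hβs
  obtain ⟨ε, hε, hε1, hNε⟩ := hGEN β (N : ℍ[ℚ]) hβ hN' hβs
  -- `ε v' β = ε β v = N v = v N = v ε β`
  have h1 : ε * v' * β = v * ε * β := by
    rw [mul_assoc, ← hβv, ← mul_assoc, ← hNε, int_comm, hNε, mul_assoc]
  have h2 : ε * v' = v * ε := mul_right_cancel₀ hβ h1
  exact hEQV.symm ⟨ε, hε, hε1, h2⟩

end Pool.Agent.XPR
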