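import Pool.Agent.XPR.Targets

/-!
# Project XPR: image of a principal ideal generated by an integer (helper53)
-/

set_option autoImplicit false

open scoped Quaternion NumberField

namespace Pool.Agent.XPR

theorem P_SPN : T_SPN := by
  intro d v hv hvH N
  apply le_antisymm
  · rw [Submodule.mul_le]
    intro r hr x hx
    obtain ⟨a, ha, rfl⟩ := mem_img.1 hx
    obtain ⟨c, rfl⟩ := Ideal.mem_span_singleton'.1 ha
    rw [ev_mul hv, ev_int, ← mul_assoc]
    exact mem_RS_span.2 ⟨r * ev d v c, mul_mem (mem_RS.1 hr) (ev_mem hvH c), rfl⟩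
  · intro x hx
    obtain ⟨r, hr, rfl⟩ := mem_RS_span.1 hx
    exact Submodule.mul_mem_mul (mem_RS.2 hr)
      (mem_img.2 ⟨(N : ℤ√d), Ideal.mem_span_singleton_self _, ev_int d v N⟩)

end Pool.Agent.XPR
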