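import Pool.Agent.XPR.Targets

/-!
# Project XPR: stabilizers are principal
-/

set_option autoImplicit false

open scoped Quaternion NumberField

namespace Pool.Agent.XPR

namespace STB_

/-- `x + y v` -/
noncomputable def f (v : ℍ[ℚ]) (x y : ℚ) : ℍ[ℚ] := x • (1 : ℍ[ℚ]) + y • v

theorem f_mul {m : ℕ} {v : ℍ[ℚ]} (hv : v * v = ((-(m : ℤ) : ℤ) : ℍ[ℚ])) (x y x' y' : ℚ) :
    f v x y * f v x' y' = f v (x * x' - m * y * y') (x * y' + y * x') := by
  have h : v * v = (-(m : ℚ)) • (1 : ℍ[ℚ]) := by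
    rw [hv]; push_cast
    rw [neg_smul, ← Algebra.algebraMap_eq_smul_one]
    simp
  simp only [f, add_mul, mul_add, smul_mul_smul_comm, mul_one, one_mul, h, smul_smul]
  rw [sub_smul, add_smul]
  have e1 : (y * y' * -(m : ℚ)) • (1 : ℍ[ℚ]) = -((m * y * y') • (1 : ℍ[ℚ])) := by
    rw [← neg_smul]; congr 1; ring
  rw [e1]
  abel

theorem f_inj {v : ℍ[ℚ]} (h0 : v.re = 0) (hne : v ≠ 0) {x y x' y' : ℚ}
    (h : f v x y = f v x' y') : x = x' ∧ y = y' := by
  have h1 : x = x' := by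
    have := congrArg QuaternionAlgebra.re h
    simpa [f, h0] using this
  subst h1
  refine ⟨rfl, ?_⟩
  have h2 : y • v = y' • v := by simpa [f] using h
  have h3 : (y - y') • v = 0 := by rw [sub_smul, h2, sub_self]
  rcases smul_eq_zero.1 h3 with h4 | h4
  · linarith
  · exact absurd h4 hne

theorem ev_f (d : ℤ) (v : ℍ[ℚ]) (a : ℤ√d) : ev d v a = f v a.re a.im := by
  rw [ev_apply, f, ← Algebra.algebraMap_eq_smul_one, Algebra.smul_def]
  simp

theorem ev_comm (d : ℤ) (v : ℍ[ℚ]) (a : ℤ√d) : ev d v a * v = v * ev d v a := by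
  rw [ev_apply]
  exact ((Int.cast_commute a.re v).add_left
    ((Int.cast_commute a.im v).mul_left (Commute.refl v))).eq

theorem f_re {v : ℍ[ℚ]} (h0 : v.re = 0) (x y : ℚ) : (f v x y).re = x := by
  simp [f, h0]

theorem f_norm {m : ℕ} {v : ℍ[ℚ]} (h0 : v.re = 0) (hn : Quaternion.normSq v = (m : ℚ)) (x y : ℚ) :
    Quaternion.normSq (f v x y) = x ^ 2 + m * y ^ 2 := by
  rw [Quaternion.normSq_def'] at hn ⊢
  rw [h0] at hn
  simp only [f, Quaternion.re_add, Quaternion.re_smul, Quaternion.imI_add, Quaternion.imI_smul,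
    Quaternion.imJ_add, Quaternion.imJ_smul, Quaternion.imK_add, Quaternion.imK_smul,
    Quaternion.re_one, Quaternion.imI_one, Quaternion.imJ_one, Quaternion.imK_one, h0, smul_eq_mul]
  rw [← hn]
  ring

end STB_

open STB_

theorem P_STB (h1 : T_STAR) (h2 : T_UNL) (h3 : T_CEN) (h4 : T_INT) (h5 : T_IN1) (h6 : T_IMG)
    (h7 : T_SPN) : T_STB := by
  intro K _ _ m s hm hK hs A B N hN hAB v v' hv hRel hCj
  obtain ⟨β, hβ, hL, hβv⟩ := hRel
  obtain ⟨ε, hε, hε1, hεv⟩ := hCj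
  have hv0 : v ≠ 0 := V_ne hm hv
  have hre : v.re = 0 := hv.2.1
  have hnv : Quaternion.normSq v = (m : ℚ) := hv.2.2
  have hsq := V_sq hv
  have hss : star ε * ε = 1 := by
    rw [Quaternion.star_mul_self, hε1]; simp
  have hss' : ε * star ε = 1 := by
    rw [Quaternion.self_mul_star, hε1]; simp
  have hcomm : star ε * v' = v * star ε := by
    have : star ε * (ε * v) * star ε = star ε * (v' * ε) * star ε := by rw [hεv]
    rw [← mul_assoc, hss, one_mul, mul_assoc (star ε), mul_assoc v', hss', mul_one] at this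
    exact this.symm
  set γ : ℍ[ℚ] := star ε * β with hγ
  have hsε : star ε ≠ 0 := by
    intro h; rw [h, zero_mul] at hss; exact zero_ne_one hss
  have hγ0 : γ ≠ 0 := mul_ne_zero hsε hβ
  have hγv : γ * v = v * γ := by
    rw [hγ, mul_assoc, hβv, ← mul_assoc, hcomm, mul_assoc]
  have hLγ : RS * Submodule.span ℤ {γ} = RS * img (-(m : ℤ)) v A := by
    have e1 : Submodule.span ℤ {γ} = Submodule.span ℤ {star ε} * Submodule.span ℤ {β} := by
      rw [Submodule.span_mul_span, Set.singleton_mul_singleton]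
    rw [e1, ← mul_assoc, h2 _ (h1 _ hε) (by rw [Quaternion.normSq_star, hε1]), hL]
  obtain ⟨x, y, hxy⟩ := h3 v γ hre hv0 hγv
  have hγf : γ = f v x y := hxy
  -- the correspondence
  have key : ∀ r ∈ Hur, r * v = v * r → ∃ (x' y' : ℚ) (z : 𝓞 K), r = f v x' y' ∧
      (z : K) = (x' : K) + (y' : K) * (s : K) := by
    intro r hr hrv
    obtain ⟨x', y', hr'⟩ := h3 v r hre hv0 hrv
    have hrf : r = f v x' y' := hr'
    obtain ⟨⟨t, ht⟩, n, hn⟩ := h4 r hr
    have hint := h5 K m s hs x' y' ⟨t, by rw [← ht, hrf, f_re hre]⟩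
      ⟨n, by rw [← f_norm hre hnv, ← hrf, hn]; simp⟩
    exact ⟨x', y', ⟨_, hint⟩, hrf, rfl⟩
  have hpsi : ∀ a : ℤ√(-(m : ℤ)), ((psi m s hs a : 𝓞 K) : K)
      = ((a.re : ℚ) : K) + ((a.im : ℚ) : K) * (s : K) := by
    intro a
    rw [psi, Zsqrtd.lift_apply_apply]
    push_cast
    simp
  have hsK : (s : K) * (s : K) = -(m : K) := by
    have := congrArg (algebraMap (𝓞 K) K) hs
    simpa using this
  set c : K := (x : K) + (y : K) * (s : K) with hc
  -- (i)
  have hi : ∀ a ∈ A, ∃ z : 𝓞 K, ((psi m s hs a : 𝓞 K) : K) = (z : K) * c := by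
    intro a ha
    have h8 : ev (-(m : ℤ)) v a ∈ RS * Submodule.span ℤ {γ} := by
      rw [hLγ]
      have := Submodule.mul_mem_mul one_mem_RS (mem_img.2 ⟨a, ha, rfl⟩ : ev (-(m : ℤ)) v a ∈ img (-(m : ℤ)) v A)
      simpa using this
    obtain ⟨r, hr, hr2⟩ := mem_RS_span.1 h8
    have hev : ev (-(m : ℤ)) v a * v = v * ev (-(m : ℤ)) v a := ev_comm _ _ _
    have hrv : r * v = v * r := by
      apply mul_right_cancel₀ hγ0
      rw [mul_assoc, ← hγv, ← mul_assoc, ← hr2, hev, hr2, mul_assoc]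
    obtain ⟨x', y', z, hz, hz2⟩ := key r hr hrv
    refine ⟨z, ?_⟩
    rw [ev_f, hz, hγf, f_mul hsq] at hr2
    obtain ⟨e1, e2⟩ := f_inj hre hv0 hr2
    rw [hpsi, e1, e2, hz2, hc]
    push_cast
    linear_combination (-(y' : K) * (y : K)) * hsK
  -- (ii)
  have hii : ∀ b ∈ B, ∃ z : 𝓞 K, c * ((psi m s hs b : 𝓞 K) : K) = (N : K) * (z : K) := by
    intro b hb
    have h8 : γ * ev (-(m : ℤ)) v b ∈ RS * Submodule.span ℤ {(N : ℍ[ℚ])} := by
      rw [← h7 _ _ hsq hv.1, ← hAB, h6 _ _ hsq, ← mul_assoc, ← hLγ]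
      refine Submodule.mul_mem_mul ?_ (mem_img.2 ⟨b, hb, rfl⟩)
      exact mem_RS_span.2 ⟨1, one_mem _, by rw [one_mul]⟩
    obtain ⟨r, hr, hr2⟩ := mem_RS_span.1 h8
    have hN0 : (N : ℍ[ℚ]) ≠ 0 := by
      intro h
      have h9 : ((N : ℍ[ℚ])).re = (0 : ℍ[ℚ]).re := by rw [h]
      rw [Quaternion.re_intCast, Quaternion.re_zero] at h9
      exact hN (by exact_mod_cast h9)
    have hev : ev (-(m : ℤ)) v b * v = v * ev (-(m : ℤ)) v b := ev_comm _ _ _
    have hrv : r * v = v * r := by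
      apply mul_right_cancel₀ hN0
      rw [mul_assoc, ← int_comm, ← mul_assoc, ← hr2, mul_assoc, hev, ← mul_assoc, hγv, mul_assoc,
        hr2, mul_assoc]
    obtain ⟨x', y', z, hz, hz2⟩ := key r hr hrv
    refine ⟨z, ?_⟩
    have hNf : (N : ℍ[ℚ]) = f v (N : ℚ) 0 := by
      rw [f, ← Algebra.algebraMap_eq_smul_one]; simp
    rw [ev_f, hz, hγf, f_mul hsq, hNf, f_mul hsq] at hr2
    obtain ⟨e1, e2⟩ := f_inj hre hv0 hr2
    have e1' := congrArg (Rat.cast : ℚ → K) e1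
    have e2' := congrArg (Rat.cast : ℚ → K) e2
    push_cast at e1' e2'
    rw [hpsi, hz2, hc]
    push_cast
    linear_combination e1' + (s : K) * e2' + ((y : K) * ((b.im : ℤ) : K)) * hsK
  set I := A.map (psi m s hs) with hI
  have hiii : ∀ t ∈ A * B, ∃ w ∈ I, c * ((psi m s hs t : 𝓞 K) : K) = (N : K) * ((w : 𝓞 K) : K) := by
    intro t ht
    induction ht using Submodule.mul_induction_on' with
    | mem_mul_mem a ha b hb =>
      obtain ⟨z, hz⟩ := hii b hb
      refine ⟨psi m s hs a * z, Ideal.mul_mem_right _ _ (Ideal.mem_map_of_mem _ ha), ?_⟩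
      have e1 : ((psi m s hs (a * b) : 𝓞 K) : K)
          = ((psi m s hs a : 𝓞 K) : K) * ((psi m s hs b : 𝓞 K) : K) := by rw [map_mul]; rfl
      have e2 : ((psi m s hs a * z : 𝓞 K) : K) = ((psi m s hs a : 𝓞 K) : K) * (z : K) := rfl
      rw [e1, e2]
      linear_combination ((psi m s hs a : 𝓞 K) : K) * hz
    | add a _ b _ ha hb =>
      obtain ⟨w, hw, hw2⟩ := ha
      obtain ⟨w', hw', hw2'⟩ := hb
      refine ⟨w + w', add_mem hw hw', ?_⟩
      have e1 : ((psi m s hs (a + b) : 𝓞 K) : K)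
          = ((psi m s hs a : 𝓞 K) : K) + ((psi m s hs b : 𝓞 K) : K) := by rw [map_add]; rfl
      have e2 : ((w + w' : 𝓞 K) : K) = (w : K) + (w' : K) := rfl
      rw [e1, e2]
      linear_combination hw2 + hw2'
  have hNK : (N : K) ≠ 0 := by exact_mod_cast hN
  obtain ⟨w, hw, hw2⟩ := hiii (N : ℤ√(-(m : ℤ))) (by rw [hAB]; exact Ideal.mem_span_singleton_self _)
  have hcw : c = (w : K) := by
    apply mul_left_cancel₀ hNK
    rw [← hw2, hpsi]
    simp [mul_comm]
  refine ⟨⟨w, ?_⟩⟩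
  apply le_antisymm
  · rw [hI, Ideal.map_le_iff_le_comap]
    intro a ha
    rw [Ideal.mem_comap, Ideal.submodule_span_eq, Ideal.mem_span_singleton]
    obtain ⟨z, hz⟩ := hi a ha
    refine ⟨z, ?_⟩
    apply FaithfulSMul.algebraMap_injective (𝓞 K) K
    rw [map_mul]
    change ((psi m s hs a : 𝓞 K) : K) = (w : K) * (z : K)
    rw [hz, hcw, mul_comm]
  · rw [Ideal.submodule_span_eq, Ideal.span_le]
    intro u hu
    rw [Set.mem_singleton_iff.1 hu]
    exact hw

end Pool.Agent.XPR
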