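import Pool.Agent.XPR.Targets

/-! # XPR: units commuting with `v` -/

set_option autoImplicit false

open scoped Quaternion

namespace Pool.Agent.XPR

theorem P_STU (h_CEN : T_CEN) (h_INT : T_INT) : T_STU := by
  intro m hm hsq hsq3 v hv ε hε hn hc
  obtain ⟨x, y, hxy⟩ := h_CEN v ε hv.2.1 (V_ne hm hv) hc
  obtain ⟨t, ht⟩ := (h_INT ε hε).1
  have hre : ε.re = x := by
    rw [hxy]
    simp [hv.2.1]
  have hnv : v.imI ^ 2 + v.imJ ^ 2 + v.imK ^ 2 = (m : ℚ) := by
    have h1 := hv.2.2
    rw [Quaternion.normSq_def', hv.2.1] at h1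
    linarith
  have hne : x ^ 2 + (m : ℚ) * y ^ 2 = 1 := by
    have h1 := hn
    rw [Quaternion.normSq_def', hre] at h1
    have hI : ε.imI = y * v.imI := by rw [hxy]; simp
    have hJ : ε.imJ = y * v.imJ := by rw [hxy]; simp
    have hK : ε.imK = y * v.imK := by rw [hxy]; simp
    rw [hI, hJ, hK] at h1
    rw [← hnv]
    linarith
  rw [hre] at ht
  have hx : x = t / 2 := by linarith
  have hmq : (m : ℚ) ≠ 0 := by exact_mod_cast hm
  have hm0 : (0 : ℚ) < m := by positivity
  have ht2 : (t : ℚ) ^ 2 ≤ 4 := by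
    rw [hx] at hne
    nlinarith [mul_nonneg hm0.le (sq_nonneg y)]
  have ht3 : t ^ 2 ≤ 4 := by exact_mod_cast ht2
  have ht4 : -2 ≤ t ∧ t ≤ 2 := by constructor <;> nlinarith
  have hy0 : ∀ c : ℚ, c ≠ 0 → (m : ℚ) * y ^ 2 = c → y ≠ 0 := by
    rintro c hc' h rfl
    apply hc'
    rw [← h]
    ring
  have hodd : (m : ℚ) * y ^ 2 = 3 / 4 → False := by
    intro h
    have hy := hy0 _ (by norm_num) h
    apply hsq3
    have h1 : IsSquare (((3 * m : ℕ) : ℚ)) := by
      refine ⟨3 / (2 * y), ?_⟩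
      push_cast
      field_simp
      linarith
    exact Rat.isSquare_natCast_iff.1 h1
  have hone : y = 0 → ∀ s : ℚ, x = s → ε = s • (1 : ℍ[ℚ]) := by
    intro hy s hs
    rw [hxy, hy, hs]
    simp
  obtain ⟨h1, h2⟩ := ht4
  rw [hx] at hne
  interval_cases t
  · right
    have hy : y = 0 := by
      have h3 : (m : ℚ) * y ^ 2 = 0 := by push_cast at hne; linarith
      rcases mul_eq_zero.1 h3 with h4 | h4
      · exact absurd h4 hmq
      · exact pow_eq_zero_iff (by norm_num) |>.1 h4
    rw [hone hy (-1) (by rw [hx]; norm_num)]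
    simp
  · exact absurd (by push_cast at hne; linarith) hodd
  · exfalso
    have h3 : (m : ℚ) * y ^ 2 = 1 := by push_cast at hne; linarith
    have hy := hy0 _ one_ne_zero h3
    apply hsq
    have h4 : IsSquare ((m : ℕ) : ℚ) := by
      refine ⟨1 / y, ?_⟩
      field_simp
      linarith
    exact Rat.isSquare_natCast_iff.1 h4
  · exact absurd (by push_cast at hne; linarith) hodd
  · left
    have hy : y = 0 := by
      have h3 : (m : ℚ) * y ^ 2 = 0 := by push_cast at hne; linarith
      rcases mul_eq_zero.1 h3 with h4 | h4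
      · exact absurd h4 hmq
      · exact pow_eq_zero_iff (by norm_num) |>.1 h4
    rw [hone hy 1 (by rw [hx]; norm_num)]
    simp

end Pool.Agent.XPR
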