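import Pool.Agent.XPR.Targets

/-!
# Project XPR: fibering over the real part
-/

set_option autoImplicit false

open scoped Quaternion NumberField

namespace Pool.Agent.XPR

namespace SUM_

theorem abs_le_of_sq {x m : ℤ} (h : x ^ 2 ≤ m) : -m ≤ x ∧ x ≤ m := by
  constructor <;> nlinarith [sq_nonneg (x - 1), sq_nonneg (x + 1), sq_nonneg x, h,
    Int.le_self_sq x, Int.le_self_sq (-x)]

theorem finite_r3 (m : ℕ) : (r3set m).Finite := by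
  refine Set.Finite.subset ((Set.finite_Icc (-(m : ℤ)) m).prod
    ((Set.finite_Icc (-(m : ℤ)) m).prod (Set.finite_Icc (-(m : ℤ)) m))) ?_
  rintro ⟨a, b, c⟩ h
  have h' : a ^ 2 + b ^ 2 + c ^ 2 = (m : ℤ) := h
  have ha := abs_le_of_sq (x := a) (m := m) (by nlinarith [sq_nonneg b, sq_nonneg c])
  have hb := abs_le_of_sq (x := b) (m := m) (by nlinarith [sq_nonneg a, sq_nonneg c])
  have hc := abs_le_of_sq (x := c) (m := m) (by nlinarith [sq_nonneg a, sq_nonneg b])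
  exact ⟨⟨ha.1, ha.2⟩, ⟨hb.1, hb.2⟩, ⟨hc.1, hc.2⟩⟩

/-- the possible real parts -/
def Idx (l n : ℕ) : Type := {x : ℤ // (4 ∣ x ∧ ¬ (l : ℤ) ∣ x) ∧ x ^ 2 ≤ (l : ℤ) ^ n}

instance (l n : ℕ) : Finite (Idx l n) := by
  refine Set.Finite.subset (Set.finite_Icc (-((l : ℤ) ^ n)) ((l : ℤ) ^ n)) ?_
  rintro x ⟨_, hx⟩
  exact abs_le_of_sq hx

theorem toNat_eq {l n : ℕ} {x : ℤ} (hx : x ^ 2 ≤ (l : ℤ) ^ n) :
    ((((l : ℤ) ^ n - x ^ 2).toNat : ℕ) : ℤ) = (l : ℤ) ^ n - x ^ 2 :=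
  Int.toNat_of_nonneg (by linarith)

/-- the fibres -/
def Fib (l n : ℕ) (x : Idx l n) : Type := r3set ((l : ℤ) ^ n - x.1 ^ 2).toNat

instance (l n : ℕ) (x : Idx l n) : Finite (Fib l n x) := (finite_r3 _).to_subtype

theorem sq_le {l n : ℕ} {τ : ℍ[ℤ]} (h : τ ∈ XSet l n) : τ.re ^ 2 ≤ (l : ℤ) ^ n := by
  have := h.1
  nlinarith [sq_nonneg τ.imI, sq_nonneg τ.imJ, sq_nonneg τ.imK]

/-- the bijection -/
noncomputable def eqv (l n : ℕ) : XSet l n ≃ Σ x : Idx l n, Fib l n x where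
  toFun τ := ⟨⟨τ.1.re, ⟨τ.2.2.1, τ.2.2.2⟩, sq_le τ.2⟩, ⟨(τ.1.imI, τ.1.imJ, τ.1.imK), by
    show τ.1.imI ^ 2 + τ.1.imJ ^ 2 + τ.1.imK ^ 2 = _
    rw [toNat_eq (sq_le τ.2), ← τ.2.1]; ring⟩⟩
  invFun s := ⟨⟨s.1.1, s.2.1.1, s.2.1.2.1, s.2.1.2.2⟩, by
    refine ⟨?_, s.1.2.1⟩
    have h : s.2.1.1 ^ 2 + s.2.1.2.1 ^ 2 + s.2.1.2.2 ^ 2 =
      ((((l : ℤ) ^ n - s.1.1 ^ 2).toNat : ℕ) : ℤ) := s.2.2
    rw [toNat_eq s.1.2.2] at h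
    show s.1.1 ^ 2 + s.2.1.1 ^ 2 + s.2.1.2.1 ^ 2 + s.2.1.2.2 ^ 2 = _
    linarith⟩
  left_inv τ := rfl
  right_inv s := rfl

end SUM_

open SUM_ in
theorem P_SUM : T_SUM := by
  intro l n D h
  have := Fintype.ofFinite (Idx l n)
  rw [Nat.card_congr (eqv l n), Nat.card_sigma]
  refine Finset.dvd_sum fun x _ => ?_
  refine h x.1 _ x.2.1.1 x.2.1.2 ?_
  rw [toNat_eq x.2.2]
  ring

end Pool.Agent.XPR
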