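import Pool.Agent.XPR.Targets

/-!
# XPR, target SUR: ideals of the ring of integers prime to `2m` come from `ℤ[√-m]`
-/

set_option autoImplicit false

open scoped Quaternion NumberField

namespace Pool.Agent.XPR

theorem P_SUR (hC1 : T_C1) : T_SUR := by
  intro K _ _ m s hm hK hs I hI
  obtain ⟨N, hN, hNI⟩ := hI
  have hpN : psi m s hs (N : ℤ√(-(m : ℤ))) = (N : 𝓞 K) := map_intCast _ N
  have hNA : (N : ℤ√(-(m : ℤ))) ∈ I.comap (psi m s hs) := by
    rw [Ideal.mem_comap, hpN]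
    exact hNI
  refine ⟨I.comap (psi m s hs), ⟨N, hN, hNA⟩, le_antisymm Ideal.map_comap_le ?_⟩
  intro i hi
  obtain ⟨a, ha⟩ := hC1 K m s hm hK hs i
  obtain ⟨u, w, huw⟩ := hN
  have haA : a ∈ I.comap (psi m s hs) := by
    rw [Ideal.mem_comap, ha]
    exact I.mul_mem_left _ hi
  have h1 : (2 * (m : 𝓞 K) * i) ∈ (I.comap (psi m s hs)).map (psi m s hs) := by
    rw [← ha]
    exact Ideal.mem_map_of_mem _ haA
  have h2 : (N : 𝓞 K) ∈ (I.comap (psi m s hs)).map (psi m s hs) := by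
    rw [← hpN]
    exact Ideal.mem_map_of_mem _ hNA
  have h3 : i = ((u : 𝓞 K) * i) * (N : 𝓞 K) + (w : 𝓞 K) * (2 * (m : 𝓞 K) * i) := by
    have h4 : ((u * N + w * (2 * (m : ℤ)) : ℤ) : 𝓞 K) = 1 := by rw [huw]; simp
    push_cast at h4
    calc i = 1 * i := (one_mul i).symm
      _ = ((u : 𝓞 K) * (N : 𝓞 K) + (w : 𝓞 K) * (2 * (m : 𝓞 K))) * i := by rw [h4]
      _ = _ := by ring
  rw [h3]
  exact Ideal.add_mem _ (Ideal.mul_mem_left _ _ h2) (Ideal.mul_mem_left _ _ h1)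

end Pool.Agent.XPR
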