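import Pool.Agent.XPR.Targets

/-! # XPR, target TOT: the relation is total -/

set_option autoImplicit false

open scoped Quaternion NumberField

noncomputable section

namespace Pool.Agent.XPR

theorem P_TOT (h_PRI : T_PRI) (h_MEM : T_MEM) : T_TOT := by
  intro m A hA v hv
  obtain ⟨N, hN, hNA⟩ := hA
  have hsub : img (-(m : ℤ)) v A ≤ RS := by
    intro x hx
    obtain ⟨a, _, rfl⟩ := mem_img.1 hx
    exact mem_RS.2 (ev_mem hv.1 a)
  have h1 : RS * img (-(m : ℤ)) v A ≤ RS := by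
    calc RS * img (-(m : ℤ)) v A ≤ RS * RS := mul_le_mul' le_rfl hsub
      _ = RS := RS_mul_RS
  have h2 : RS * (RS * img (-(m : ℤ)) v A) ≤ RS * img (-(m : ℤ)) v A := by
    rw [← mul_assoc, RS_mul_RS]
  have h3 : RS * img (-(m : ℤ)) v A ≠ ⊥ := by
    intro h
    have hmem : (1 : ℍ[ℚ]) * (N : ℍ[ℚ]) ∈ RS * img (-(m : ℤ)) v A :=
      Submodule.mul_mem_mul one_mem_RS (mem_img.2 ⟨_, hNA, ev_int _ _ N⟩)
    rw [h, Submodule.mem_bot, one_mul] at hmem
    have h4 := congrArg (fun q : ℍ[ℚ] => q.re) hmem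
    simp only [Quaternion.re_intCast, Quaternion.re_zero] at h4
    exact CopM_ne hN (by exact_mod_cast h4)
  obtain ⟨β, hβ, hL⟩ := h_PRI _ h1 h2 h3
  have hrel : Rel m A v (β * v * β⁻¹) := by
    refine ⟨β, hβ, hL, ?_⟩
    rw [mul_assoc (β * v), inv_mul_cancel₀ hβ, mul_one]
  exact ⟨_, h_MEM m A v _ hv hrel, hrel⟩

end Pool.Agent.XPR
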