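import Pool.Agent.XPR.Targets

/-!
# XPR: finitely many Hurwitz units
-/

set_option autoImplicit false

open scoped Quaternion NumberField

namespace Pool.Agent.XPR

theorem P_UFI : T_UFI := by
  refine Set.Finite.subset (Set.Finite.image
    (fun p : ℤ × ℤ × ℤ × ℤ => hq p.1 p.2.1 p.2.2.1 p.2.2.2)
    (Set.finite_Icc ((-2, -2, -2, -2) : ℤ × ℤ × ℤ × ℤ) ((2, 2, 2, 2) : ℤ × ℤ × ℤ × ℤ))) ?_
  rintro ε ⟨⟨x, y, z, w, rfl⟩, h⟩
  refine ⟨(x, y, z, w), ?_, rfl⟩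
  rw [Quaternion.normSq_def'] at h
  simp only [hq_re, hq_imI, hq_imJ, hq_imK] at h
  have h1 : (2 * x + w) ^ 2 + (2 * y + w) ^ 2 + (2 * z + w) ^ 2 + w ^ 2 = 4 := by
    have h2 : ((2 * (x : ℚ) + w) ^ 2 + (2 * y + w) ^ 2 + (2 * z + w) ^ 2 + w ^ 2) = 4 := by
      linarith
    exact_mod_cast h2
  have hb : ∀ a : ℤ, a ^ 2 ≤ 4 → -2 ≤ a ∧ a ≤ 2 := by
    intro a ha
    constructor <;> nlinarith
  have e1 := sq_nonneg (2 * x + w)
  have e2 := sq_nonneg (2 * y + w)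
  have e3 := sq_nonneg (2 * z + w)
  have e4 := sq_nonneg w
  obtain ⟨a1, a2⟩ := hb (2 * x + w) (by linarith)
  obtain ⟨b1, b2⟩ := hb (2 * y + w) (by linarith)
  obtain ⟨c1, c2⟩ := hb (2 * z + w) (by linarith)
  obtain ⟨d1, d2⟩ := hb w (by linarith)
  rw [Set.mem_Icc]
  simp only [Prod.mk_le_mk]
  omega

end Pool.Agent.XPR
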