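import Pool.Agent.XPR.Targets

/-!
# XPR: the units of `K` are `1` and `-1` (T_UN)
-/

set_option autoImplicit false

open scoped Quaternion NumberField

namespace Pool.Agent.XPR.UN_

/-- rational part: an element of norm one with integral trace -/
theorem rat (m : ℕ) (hm : m ≠ 0) (hsq : ¬ IsSquare m) (h3sq : ¬ IsSquare (3 * m)) (x y : ℚ)
    (t : ℤ) (ht : 2 * x = t) (h1 : x ^ 2 + m * y ^ 2 = 1) : (x = 1 ∨ x = -1) ∧ y = 0 := by
  have hm0 : (0 : ℚ) < m := by exact_mod_cast Nat.pos_of_ne_zero hm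
  have hy : 0 ≤ (m : ℚ) * y ^ 2 := by positivity
  have ht2 : (t : ℚ) ^ 2 ≤ 4 := by
    rw [← ht]
    nlinarith
  have ht3 : t ^ 2 ≤ 4 := by exact_mod_cast ht2
  have hub : t ≤ 2 := by nlinarith
  have hlb : -2 ≤ t := by nlinarith
  have key0 : t = 0 → False := by
    intro h0
    apply hsq
    rw [← Rat.isSquare_natCast_iff]
    refine ⟨m * y, ?_⟩
    have hx : x = 0 := by
      rw [h0] at ht
      push_cast at ht
      linarith
    rw [hx] at h1
    have h2 : (m : ℚ) * y ^ 2 = 1 := by linarith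
    calc (m : ℚ) = m * (m * y ^ 2) := by rw [h2, mul_one]
      _ = m * y * (m * y) := by ring
  have key1 : t ^ 2 = 1 → False := by
    intro h0
    apply h3sq
    rw [← Rat.isSquare_natCast_iff]
    refine ⟨2 * m * y, ?_⟩
    have hx : x ^ 2 = 1 / 4 := by
      have h4 : (2 * x) ^ 2 = 1 := by
        rw [ht]
        exact_mod_cast h0
      linarith
    rw [hx] at h1
    have h2 : (m : ℚ) * y ^ 2 = 3 / 4 := by linarith
    push_cast
    calc 3 * (m : ℚ) = 4 * m * (m * y ^ 2) := by rw [h2]; ring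
      _ = 2 * m * y * (2 * m * y) := by ring
  have key2 : x ^ 2 = 1 → y = 0 := by
    intro h0
    have h2 : (m : ℚ) * y ^ 2 = 0 := by linarith
    rcases mul_eq_zero.1 h2 with h | h
    · exact absurd h hm0.ne'
    · exact pow_eq_zero_iff (two_ne_zero) |>.1 h
  have hcases : t = -2 ∨ t = -1 ∨ t = 0 ∨ t = 1 ∨ t = 2 := by omega
  rcases hcases with h | h | h | h | h
  · have hx : x = -1 := by
      rw [h] at ht
      push_cast at ht
      linarith
    exact ⟨Or.inr hx, key2 (by rw [hx]; norm_num)⟩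
  · exact (key1 (by rw [h]; norm_num)).elim
  · exact (key0 h).elim
  · exact (key1 (by rw [h]; norm_num)).elim
  · have hx : x = 1 := by
      rw [h] at ht
      push_cast at ht
      linarith
    exact ⟨Or.inl hx, key2 (by rw [hx]; norm_num)⟩

end Pool.Agent.XPR.UN_

namespace Pool.Agent.XPR

theorem P_UN (h_QXY : T_QXY) (h_IN2 : T_IN2) : T_UN := by
  intro K _ _ m s hm hsq h3sq hf hs u
  have hm0 : (0 : ℚ) < m := by exact_mod_cast Nat.pos_of_ne_zero hm
  obtain ⟨x, y, hu⟩ := h_QXY K m s hm hf hs ((u : 𝓞 K) : K)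
  obtain ⟨x', y', hu'⟩ := h_QXY K m s hm hf hs (((u⁻¹ : (𝓞 K)ˣ) : 𝓞 K) : K)
  obtain ⟨⟨t, ht⟩, n, hn⟩ := h_IN2 K m s hm hf hs _ x y hu
  obtain ⟨-, n', hn'⟩ := h_IN2 K m s hm hf hs _ x' y' hu'
  have hsK : (s : K) * (s : K) = -(m : K) := by
    have := congrArg (fun z : 𝓞 K => (z : K)) hs
    simpa using this
  have hone : ((u : 𝓞 K) : K) * (((u⁻¹ : (𝓞 K)ˣ) : 𝓞 K) : K) = 1 := by
    simp
  -- coefficients of the product
  have hXY : ((x * x' - m * (y * y') - 1 : ℚ) : K) = -((x * y' + x' * y : ℚ) : K) * (s : K) := by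
    have h : ((x : K) + (y : K) * (s : K)) * ((x' : K) + (y' : K) * (s : K)) = 1 := by
      rw [← hu, ← hu']
      exact hone
    push_cast
    linear_combination h - (y : K) * (y' : K) * hsK
  have hsq2 : (x * x' - m * (y * y') - 1) ^ 2 + m * (x * y' + x' * y) ^ 2 = 0 := by
    have h : (((x * x' - m * (y * y') - 1) ^ 2 + m * (x * y' + x' * y) ^ 2 : ℚ) : K) =
        ((0 : ℚ) : K) := by
      have h2 : ((x * x' - m * (y * y') - 1 : ℚ) : K) ^ 2 =
          ((x * y' + x' * y : ℚ) : K) ^ 2 * ((s : K) * (s : K)) := by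
        rw [hXY]
        ring
      rw [hsK] at h2
      rw [Rat.cast_add, Rat.cast_pow, Rat.cast_mul, Rat.cast_pow, h2, Rat.cast_natCast,
        Rat.cast_zero]
      ring
    exact_mod_cast h
  have hY : x * y' + x' * y = 0 := by
    have h1 := sq_nonneg (x * x' - m * (y * y') - 1)
    have h2 := sq_nonneg (x * y' + x' * y)
    have h3 : m * (x * y' + x' * y) ^ 2 = 0 := by
      have := mul_nonneg hm0.le h2
      linarith
    rcases mul_eq_zero.1 h3 with h | h
    · exact absurd h hm0.ne'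
    · exact (pow_eq_zero_iff two_ne_zero).1 h
  have hX : x * x' - m * (y * y') = 1 := by
    rw [hY] at hsq2
    have h4 : (x * x' - m * (y * y') - 1) ^ 2 = 0 := by linarith
    have := (pow_eq_zero_iff two_ne_zero).1 h4
    linarith
  have hnn : (n : ℚ) * n' = 1 := by
    rw [← hn, ← hn']
    have h5 : (x ^ 2 + m * y ^ 2) * (x' ^ 2 + m * y' ^ 2) =
        (x * x' - m * (y * y')) ^ 2 + m * (x * y' + x' * y) ^ 2 := by ring
    rw [h5, hX, hY]
    ring
  have hn0 : (0 : ℚ) ≤ n := by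
    rw [← hn]
    positivity
  have hn1 : n = 1 := by
    have h6 : n * n' = 1 := by exact_mod_cast hnn
    have h7 : 0 ≤ n := by exact_mod_cast hn0
    rcases Int.eq_one_or_neg_one_of_mul_eq_one h6 with h | h
    · exact h
    · omega
  rw [hn1, Int.cast_one] at hn
  obtain ⟨hx, hy⟩ := UN_.rat m hm hsq h3sq x y t ht hn
  rw [hy, Rat.cast_zero, zero_mul, add_zero] at hu
  rcases hx with hx | hx
  · left
    apply NumberField.RingOfIntegers.coe_injective
    show ((u : 𝓞 K) : K) = ((1 : 𝓞 K) : K)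
    rw [hu, hx]
    simp
  · right
    apply NumberField.RingOfIntegers.coe_injective
    show ((u : 𝓞 K) : K) = ((-1 : 𝓞 K) : K)
    rw [hu, hx]
    simp

end Pool.Agent.XPR
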