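import Mathlib
import Pool.Agent.XPR.Targets

/-!
# Project XPR: `R ε = R` for a unit `ε` (helper21)
-/

set_option autoImplicit false

open scoped Quaternion NumberField

namespace Pool.Agent.XPR

namespace UNL_

theorem star_mem {q : ℍ[ℚ]} (h : q ∈ Hur) : star q ∈ Hur := by
  obtain ⟨x, y, z, w, rfl⟩ := h
  refine ⟨x + w, -y, -z, -w, ?_⟩
  ext
  · simp only [Quaternion.re_star, hq_re]; push_cast; ring
  · simp only [Quaternion.imI_star, hq_imI]; push_cast; ring
  · simp only [Quaternion.imJ_star, hq_imJ]; push_cast; ring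
  · simp only [Quaternion.imK_star, hq_imK]; push_cast; ring

theorem star_mul_self' {q : ℍ[ℚ]} (h : Quaternion.normSq q = 1) : star q * q = 1 := by
  rw [Quaternion.star_mul_self, h]
  simp

end UNL_

theorem P_UNL : T_UNL := by
  intro ε hε h1
  apply le_antisymm
  · intro x hx
    obtain ⟨r, hr, rfl⟩ := mem_RS_span.1 hx
    exact mem_RS.2 (mul_mem hr hε)
  · intro x hx
    refine mem_RS_span.2 ⟨x * star ε, mul_mem (mem_RS.1 hx) (UNL_.star_mem hε), ?_⟩
    rw [mul_assoc, UNL_.star_mul_self' h1, mul_one]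

end Pool.Agent.XPR
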