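import Pool.Agent.XPR.Targets

/-!
# XPR: pure Hurwitz quaternions of norm `m` and sums of three squares
-/

set_option autoImplicit false

open scoped Quaternion NumberField

namespace Pool.Agent.XPR

/-- the pure quaternion with integer coordinates -/
private def VFI_f (p : ℤ × ℤ × ℤ) : ℍ[ℚ] := ⟨0, (p.1 : ℚ), (p.2.1 : ℚ), (p.2.2 : ℚ)⟩

private theorem VFI_inj : Function.Injective VFI_f := by
  rintro ⟨a, b, c⟩ ⟨a', b', c'⟩ h
  have h1 := congrArg (fun q : ℍ[ℚ] => q.imI) h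
  have h2 := congrArg (fun q : ℍ[ℚ] => q.imJ) h
  have h3 := congrArg (fun q : ℍ[ℚ] => q.imK) h
  simp only [VFI_f] at h1 h2 h3
  have h1' : a = a' := by exact_mod_cast h1
  have h2' : b = b' := by exact_mod_cast h2
  have h3' : c = c' := by exact_mod_cast h3
  rw [h1', h2', h3']

private theorem VFI_norm (a b c : ℤ) : Quaternion.normSq (VFI_f (a, b, c)) =
    ((a ^ 2 + b ^ 2 + c ^ 2 : ℤ) : ℚ) := by
  rw [Quaternion.normSq_def']
  simp only [VFI_f]
  push_cast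
  ring

private theorem VFI_eq (m : ℕ) : VSet m = VFI_f '' r3set m := by
  ext v
  constructor
  · rintro ⟨⟨x, y, z, w, rfl⟩, h0, hn⟩
    rw [hq_re] at h0
    have hw : w = -(2 * x) := by
      have : (w : ℚ) = ((-(2 * x) : ℤ) : ℚ) := by push_cast; linarith
      exact_mod_cast this
    subst hw
    have he : hq x y z (-(2 * x)) = VFI_f (y - x, z - x, -x) := by
      ext
      · simp [VFI_f]; ring
      · simp [VFI_f]; ring
      · simp [VFI_f]; ring
      · simp [VFI_f]; ring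
    refine ⟨(y - x, z - x, -x), ?_, he.symm⟩
    rw [he, VFI_norm] at hn
    change (y - x) ^ 2 + (z - x) ^ 2 + (-x) ^ 2 = (m : ℤ)
    exact_mod_cast hn
  · rintro ⟨⟨a, b, c⟩, h, rfl⟩
    change a ^ 2 + b ^ 2 + c ^ 2 = (m : ℤ) at h
    refine ⟨⟨-c, a - c, b - c, 2 * c, ?_⟩, rfl, ?_⟩
    · ext
      · simp [VFI_f]
      · simp [VFI_f]
      · simp [VFI_f]
      · simp [VFI_f]
    · rw [VFI_norm, h]
      simp

private theorem VFI_fin (m : ℕ) : (r3set m).Finite := by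
  refine Set.Finite.subset (Set.finite_Icc ((-(m : ℤ), -(m : ℤ), -(m : ℤ)) : ℤ × ℤ × ℤ)
    (((m : ℤ), (m : ℤ), (m : ℤ)) : ℤ × ℤ × ℤ)) ?_
  rintro ⟨a, b, c⟩ h
  change a ^ 2 + b ^ 2 + c ^ 2 = (m : ℤ) at h
  have key : ∀ t : ℤ, t ^ 2 ≤ (m : ℤ) → -(m : ℤ) ≤ t ∧ t ≤ (m : ℤ) := by
    intro t ht
    have h1 : |t| ≤ t ^ 2 := by
      rw [← sq_abs t]
      rcases lt_or_ge (|t|) 1 with h2 | h2
      · have h3 : |t| = 0 := le_antisymm (by omega) (abs_nonneg t)
        rw [h3]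
        norm_num
      · nlinarith
    have h2 : |t| ≤ (m : ℤ) := h1.trans ht
    exact abs_le.1 h2
  have e1 := sq_nonneg a
  have e2 := sq_nonneg b
  have e3 := sq_nonneg c
  obtain ⟨a1, a2⟩ := key a (by linarith)
  obtain ⟨b1, b2⟩ := key b (by linarith)
  obtain ⟨c1, c2⟩ := key c (by linarith)
  rw [Set.mem_Icc]
  simp only [Prod.mk_le_mk]
  exact ⟨⟨a1, b1, c1⟩, ⟨a2, b2, c2⟩⟩

theorem P_VFI : T_VFI := by
  intro m
  constructor
  · rw [VFI_eq]
    exact (VFI_fin m).image _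
  · rw [VFI_eq]
    exact Nat.card_image_of_injective VFI_inj _

end Pool.Agent.XPR
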