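import Pool.Agent.XPR.Targets

/-!
# XPR, target `T_VP`: Lucas sequences and powers in the ring of integers of a quadratic field
-/

set_option autoImplicit false

open scoped Quaternion NumberField

noncomputable section

namespace Pool.Agent.XPR

namespace VP_

/-- a square root of `-m` is not rational -/
theorem indep {K : Type} [Field K] [CharZero K] {m : ℕ} {σ : K} (hm : m ≠ 0)
    (hs : σ * σ = -(m : K)) {X Y : ℚ} (h : (X : K) + (Y : K) * σ = 0) : X = 0 ∧ Y = 0 := by
  have hY : Y = 0 := by
    by_contra hY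
    have hYK : (Y : K) ≠ 0 := by exact_mod_cast hY
    have h1 : (X : K) ^ 2 = -((Y : K) ^ 2 * m) := by
      have : (X : K) = -((Y : K) * σ) := by linear_combination h
      rw [this]
      linear_combination (Y : K) ^ 2 * hs
    have h2 : X ^ 2 = -(Y ^ 2 * m) := by exact_mod_cast h1
    have h3 : 0 < Y ^ 2 * (m : ℚ) := by positivity
    nlinarith [sq_nonneg X]
  subst hY
  refine ⟨?_, rfl⟩
  simpa using h

/-- powers of conjugate elements -/
theorem powers {K : Type} [Field K] [CharZero K] {m : ℕ} {σ : K}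
    (hs : σ * σ = -(m : K)) (x y : ℚ) (k : ℕ) : ∃ X Y : ℚ,
    ((x : K) + (y : K) * σ) ^ k = (X : K) + (Y : K) * σ ∧
    ((x : K) - (y : K) * σ) ^ k = (X : K) - (Y : K) * σ := by
  induction k with
  | zero => exact ⟨1, 0, by simp, by simp⟩
  | succ k ih =>
    obtain ⟨X, Y, h1, h2⟩ := ih
    refine ⟨X * x - m * (Y * y), X * y + Y * x, ?_, ?_⟩
    · rw [pow_succ, h1]; push_cast
      linear_combination (Y : K) * (y : K) * hs
    · rw [pow_succ, h2]; push_cast
      linear_combination (Y : K) * (y : K) * hs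

theorem luc {K : Type} [Field K] {a b : ℤ} {u v : K} (h1 : u + v = a) (h2 : u * v = b) (k : ℕ) :
    ((lucV a b k : ℤ) : K) = u ^ k + v ^ k ∧
    ((lucV a b (k + 1) : ℤ) : K) = u ^ (k + 1) + v ^ (k + 1) := by
  induction k with
  | zero => exact ⟨by simp [lucV]; norm_num, by simp [lucV, h1]⟩
  | succ k ih =>
    refine ⟨ih.2, ?_⟩
    have : lucV a b (k + 1 + 1) = a * lucV a b (k + 1) - b * lucV a b k := rfl
    rw [this]; push_cast
    rw [ih.1, ih.2, ← h1, ← h2]
    ring

end VP_

theorem P_VP (hQ : T_QXY) (hI : T_IN2) : T_VP := by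
  intro K _ _ m l n s x α hm hK hs hn hx hα
  have hsK : (s : K) * (s : K) = -(m : K) := by
    have := congrArg (algebraMap (𝓞 K) K) hs
    simpa using this
  obtain ⟨x₁, y₁, h1⟩ := hQ K m s hm hK hs (α : K)
  obtain ⟨⟨t, ht⟩, ⟨b, hb⟩⟩ := hI K m s hm hK hs α x₁ y₁ h1
  obtain ⟨X, Y, hX, hX'⟩ := VP_.powers hsK x₁ y₁ n
  set σ : K := (s : K) with hσ
  set u : K := (x₁ : K) + (y₁ : K) * σ with hu
  set v : K := (x₁ : K) - (y₁ : K) * σ with hv
  have huv : u * v = (b : K) := by
    have : ((b : ℚ) : K) = (b : K) := by push_cast; rfl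
    rw [← this, ← hb, hu, hv]; push_cast
    linear_combination -((y₁ : K) ^ 2) * hsK
  have hut : u + v = (t : K) := by
    have : ((t : ℚ) : K) = (t : K) := by push_cast; rfl
    rw [← this, ← ht, hu, hv]; push_cast
    ring
  have hlK : (x : K) ^ 2 + (m : K) = (l : K) ^ n := by exact_mod_cast congrArg (Int.cast : ℤ → K) hx
  -- the sign
  obtain ⟨e, he, hex⟩ : ∃ e : ℤ, (e = 1 ∨ e = -1) ∧ (x : K) + σ = (e : K) * u ^ n := by
    rcases hα with h | h
    · refine ⟨1, Or.inl rfl, ?_⟩
      have := congrArg (algebraMap (𝓞 K) K) h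
      rw [← h1]
      simpa using this
    · refine ⟨-1, Or.inr rfl, ?_⟩
      have := congrArg (algebraMap (𝓞 K) K) h
      rw [← h1]
      simpa using this
  have hee : (e : K) * (e : K) = 1 := by
    rcases he with rfl | rfl <;> simp
  have hind := VP_.indep (K := K) (X := (x : ℚ) - e * X) (Y := 1 - e * Y) hm hsK (by
    push_cast
    rw [hX] at hex
    linear_combination hex)
  have hXe : (x : K) = (e : K) * (X : K) := by
    have h := hind.1
    have h' : (x : ℚ) = e * X := by linarith
    exact_mod_cast congrArg (Rat.cast : ℚ → K) h'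
  have hYe : (1 : K) = (e : K) * (Y : K) := by
    have h := hind.2
    have h' : (1 : ℚ) = e * Y := by linarith
    exact_mod_cast congrArg (Rat.cast : ℚ → K) h'
  have hex' : (x : K) - σ = (e : K) * v ^ n := by
    rw [hX']
    linear_combination hXe - σ * hYe
  have hbl : (b : K) ^ n = (l : K) ^ n := by
    rw [← hlK, ← huv, mul_pow]
    have h3 : ((x : K) + σ) * ((x : K) - σ) = u ^ n * v ^ n := by
      rw [hex, hex']
      linear_combination u ^ n * v ^ n * hee
    rw [← h3]
    linear_combination -hsK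
  have hbl' : b ^ n = (l : ℤ) ^ n := by exact_mod_cast hbl
  have hb0 : 0 ≤ b := by
    have : (0 : ℚ) ≤ b := by rw [← hb]; positivity
    exact_mod_cast this
  have hbe : b = l := (pow_left_inj₀ hb0 (by positivity) hn).1 hbl'
  subst hbe
  refine ⟨t, ?_, ?_⟩
  · have h4 : (t : ℚ) ^ 2 ≤ 4 * (l : ℚ) := by
      have hb' : x₁ ^ 2 + m * y₁ ^ 2 = (l : ℚ) := by exact_mod_cast hb
      rw [← ht, ← hb']
      have : (0 : ℚ) ≤ m * y₁ ^ 2 := by positivity
      nlinarith
    exact_mod_cast h4
  · have hL := (VP_.luc hut huv n).1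
    rcases he with rfl | rfl
    · left
      have : (((2 * x : ℤ)) : K) = ((lucV t l n : ℤ) : K) := by
        rw [hL]; push_cast
        push_cast at hex hex'
        linear_combination hex + hex'
      exact_mod_cast this
    · right
      have : (((2 * x : ℤ)) : K) = ((-lucV t l n : ℤ) : K) := by
        push_cast
        rw [hL]
        push_cast at hex hex'
        linear_combination hex + hex'
      exact_mod_cast this

end Pool.Agent.XPR
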