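import Pool.Agent.XPR.Targets

set_option autoImplicit false

open scoped Quaternion

namespace Pool.Agent.XPR

namespace W3_

theorem div_iff (l : ℕ) (τ : ℍ[ℤ]) : (∃ τ' : ℍ[ℤ], τ = (l : ℍ[ℤ]) * τ') ↔
    ((l : ℤ) ∣ τ.re ∧ (l : ℤ) ∣ τ.imI ∧ (l : ℤ) ∣ τ.imJ ∧ (l : ℤ) ∣ τ.imK) := by
  constructor
  · rintro ⟨τ', rfl⟩
    refine ⟨⟨τ'.re, ?_⟩, ⟨τ'.imI, ?_⟩, ⟨τ'.imJ, ?_⟩, ⟨τ'.imK, ?_⟩⟩ <;> simp
  · rintro ⟨⟨a, ha⟩, ⟨b, hb⟩, ⟨c, hc⟩, ⟨d, hd⟩⟩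
    refine ⟨⟨a, b, c, d⟩, ?_⟩
    ext <;> simp [ha, hb, hc, hd]

theorem sq {l k : ℕ} {ρ : Fin k → ℍ[ℤ]} (hg : Gens l k ρ) (i : Fin k) :
    ρ i * ρ i = (l : ℍ[ℤ]) * (-1) := by
  have h0 := hg.re i
  have hn := hg.nrm i
  ext
  · simp only [Quaternion.re_mul, h0]
    simp
    linarith
  · simp [h0]
    ring
  · simp [h0]
    ring
  · simp [h0]
    ring

theorem c_re (s : ℤ) (τ : ℍ[ℤ]) : ((s : ℍ[ℤ]) * τ).re = s * τ.re := by simp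

theorem c_imI (s : ℤ) (τ : ℍ[ℤ]) : ((s : ℍ[ℤ]) * τ).imI = s * τ.imI := by simp

theorem c_imJ (s : ℤ) (τ : ℍ[ℤ]) : ((s : ℍ[ℤ]) * τ).imJ = s * τ.imJ := by simp

theorem c_imK (s : ℤ) (τ : ℍ[ℤ]) : ((s : ℍ[ℤ]) * τ).imK = s * τ.imK := by simp

theorem anti {l k : ℕ} {ρ : Fin k → ℍ[ℤ]} (hg : Gens l k ρ) (i j : Fin k) (τ : ℍ[ℤ]) :
    ρ i * (ρ j * τ) + ρ j * (ρ i * τ) =
      ((-2 * ((ρ i).imI * (ρ j).imI + (ρ i).imJ * (ρ j).imJ + (ρ i).imK * (ρ j).imK) : ℤ) : ℍ[ℤ])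
        * τ := by
  have hi := hg.re i
  have hj := hg.re j
  ext
  · rw [c_re]
    simp only [Quaternion.re_add, Quaternion.re_mul, Quaternion.imI_mul, Quaternion.imJ_mul,
      Quaternion.imK_mul, hi, hj]
    ring
  · rw [c_imI]
    simp only [Quaternion.imI_add, Quaternion.re_mul, Quaternion.imI_mul, Quaternion.imJ_mul,
      Quaternion.imK_mul, hi, hj]
    ring
  · rw [c_imJ]
    simp only [Quaternion.imJ_add, Quaternion.re_mul, Quaternion.imI_mul, Quaternion.imJ_mul,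
      Quaternion.imK_mul, hi, hj]
    ring
  · rw [c_imK]
    simp only [Quaternion.imK_add, Quaternion.re_mul, Quaternion.imI_mul, Quaternion.imJ_mul,
      Quaternion.imK_mul, hi, hj]
    ring

theorem two {l k : ℕ} {ρ : Fin k → ℍ[ℤ]} (hg : Gens l k ρ) (hl : l.Prime) (ho : Odd l)
    {i j : Fin k} (hij : i ≠ j) {τ : ℍ[ℤ]} (h1 : ∃ a : ℍ[ℤ], ρ i * τ = (l : ℍ[ℤ]) * a)
    (h2 : ∃ a : ℍ[ℤ], ρ j * τ = (l : ℍ[ℤ]) * a) : ∃ a : ℍ[ℤ], τ = (l : ℍ[ℤ]) * a := by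
  obtain ⟨a, ha⟩ := h1
  obtain ⟨b, hb⟩ := h2
  have h := anti hg i j τ
  rw [ha, hb] at h
  have hp : Prime (l : ℤ) := Nat.prime_iff_prime_int.1 hl
  set s : ℤ := (ρ i).imI * (ρ j).imI + (ρ i).imJ * (ρ j).imJ + (ρ i).imK * (ρ j).imK with hs
  have hns : ¬ (l : ℤ) ∣ -2 * s := by
    intro hd
    rcases hp.dvd_or_dvd hd with h3 | h3
    · rw [dvd_neg] at h3
      have h4 : l ∣ 2 := by exact_mod_cast h3
      have h5 := (Nat.prime_dvd_prime_iff_eq hl Nat.prime_two).1 h4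
      subst h5
      exact absurd ho (by decide)
    · exact hg.sep i j hij h3
  have key : ∃ c : ℍ[ℤ], ((-2 * s : ℤ) : ℍ[ℤ]) * τ = (l : ℍ[ℤ]) * c := by
    refine ⟨ρ i * b + ρ j * a, ?_⟩
    rw [← h, mul_add]
    have e1 : ∀ x y : ℍ[ℤ], x * ((l : ℍ[ℤ]) * y) = (l : ℍ[ℤ]) * (x * y) := by
      intro x y
      rw [← mul_assoc, ← mul_assoc, (Nat.cast_commute l x).eq]
    rw [e1, e1]
  rw [div_iff, c_re, c_imI, c_imJ, c_imK] at key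
  rw [div_iff]
  obtain ⟨k1, k2, k3, k4⟩ := key
  have f : ∀ x : ℤ, (l : ℤ) ∣ (-2 * s) * x → (l : ℤ) ∣ x := fun x hx =>
    (hp.dvd_or_dvd hx).resolve_left hns
  exact ⟨f _ k1, f _ k2, f _ k3, f _ k4⟩

end W3_

theorem P_W3 : T_W3 := by
  intro l k ρ hg hl ho w
  have hl2 : 2 ≤ l := hl.two_le
  induction w with
  | nil =>
    intro _
    rw [W3_.div_iff]
    rintro ⟨h, -⟩
    simp only [W, List.map_nil, List.prod_nil, Quaternion.re_one] at h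
    have := Int.le_of_dvd one_pos h
    omega
  | cons i u ih =>
    intro hred
    rintro ⟨τ, hτ⟩
    cases u with
    | nil =>
      have h1 : ρ i = (l : ℍ[ℤ]) * τ := by simpa [W] using hτ
      have h2 : ∃ τ' : ℍ[ℤ], ρ i = (l : ℍ[ℤ]) * τ' := ⟨τ, h1⟩
      rw [W3_.div_iff] at h2
      obtain ⟨-, ⟨a, ha⟩, ⟨b, hb⟩, ⟨c, hc⟩⟩ := h2
      have hn := hg.nrm i
      rw [ha, hb, hc] at hn
      have h3 : (l : ℤ) * ((l : ℤ) * (a ^ 2 + b ^ 2 + c ^ 2)) = (l : ℤ) * 1 := by linear_combination hn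
      have hl0 : (l : ℤ) ≠ 0 := by exact_mod_cast hl.ne_zero
      have h4 := mul_left_cancel₀ hl0 h3
      have h5 : (l : ℤ) ∣ 1 := ⟨_, h4.symm⟩
      have := Int.le_of_dvd one_pos h5
      omega
    | cons j v =>
      have hr : i ≠ j ∧ Red (j :: v) := by
        simpa [Red, List.isChain_cons_cons] using hred
      apply ih hr.2
      apply W3_.two hg hl ho hr.1
      · refine ⟨τ, ?_⟩
        rw [← hτ]
        simp [W]
      · refine ⟨-1 * W ρ v, ?_⟩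
        have : W ρ (j :: v) = ρ j * W ρ v := by simp [W]
        rw [this, ← mul_assoc, W3_.sq hg, mul_assoc]

end Pool.Agent.XPR
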