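import Pool.Agent.XPR.P_W3

/-!
# XPR: W4, uniqueness of words
-/

set_option autoImplicit false

open scoped Quaternion

namespace Pool.Agent.XPR

namespace W4_

theorem comm (s : ℤ) (x : ℍ[ℤ]) : x * (s : ℍ[ℤ]) = (s : ℍ[ℤ]) * x := (Int.cast_commute s x).eq.symm

theorem pull (s : ℤ) (x y : ℍ[ℤ]) : x * ((s : ℍ[ℤ]) * y) = (s : ℍ[ℤ]) * (x * y) := by
  rw [← mul_assoc, comm, mul_assoc]

theorem cancel {l : ℕ} (hl : l ≠ 0) {x y : ℍ[ℤ]} (h : (l : ℍ[ℤ]) * x = (l : ℍ[ℤ]) * y) :
    x = y := by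
  have hl' : (l : ℤ) ≠ 0 := by exact_mod_cast hl
  have e : ((l : ℤ) : ℍ[ℤ]) * x = ((l : ℤ) : ℍ[ℤ]) * y := by
    push_cast
    exact h
  ext
  · have h1 := congrArg (fun q : ℍ[ℤ] => q.re) e
    simp only [W3_.c_re] at h1
    exact mul_left_cancel₀ hl' h1
  · have h1 := congrArg (fun q : ℍ[ℤ] => q.imI) e
    simp only [W3_.c_imI] at h1
    exact mul_left_cancel₀ hl' h1
  · have h1 := congrArg (fun q : ℍ[ℤ] => q.imJ) e
    simp only [W3_.c_imJ] at h1
    exact mul_left_cancel₀ hl' h1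
  · have h1 := congrArg (fun q : ℍ[ℤ] => q.imK) e
    simp only [W3_.c_imK] at h1
    exact mul_left_cancel₀ hl' h1

theorem sq1 {e : ℤ} (he : e = 1 ∨ e = -1) : e * e = 1 := by
  rcases he with rfl | rfl <;> rfl

end W4_

open W4_ in
theorem P_W4 : T_W4 := by
  intro l k ρ hg hl ho w
  induction w with
  | nil =>
    intro w' e e' _ _ hlen _ _ h
    have hw' : w' = [] := List.length_eq_zero_iff.1 hlen.symm
    subst hw'
    simp only [W, List.map_nil, List.prod_nil, mul_one] at h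
    have h1 := congrArg (fun q : ℍ[ℤ] => q.re) h
    refine ⟨?_, rfl⟩
    simpa using h1
  | cons i u ih =>
    intro w' e e' hw hw' hlen he he' h
    cases w' with
    | nil => simp at hlen
    | cons i' u' =>
      have e1 : W ρ (i :: u) = ρ i * W ρ u := by simp [W]
      have e2 : W ρ (i' :: u') = ρ i' * W ρ u' := by simp [W]
      -- the word as a multiple of the other one
      have e3 : W ρ (i :: u) = ((e * e' : ℤ) : ℍ[ℤ]) * W ρ (i' :: u') := by
        have h1 : (e : ℍ[ℤ]) * ((e : ℍ[ℤ]) * W ρ (i :: u)) =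
            (e : ℍ[ℤ]) * ((e' : ℍ[ℤ]) * W ρ (i' :: u')) := by rw [h]
        rw [← mul_assoc, ← mul_assoc, ← Int.cast_mul, ← Int.cast_mul, sq1 he, Int.cast_one,
          one_mul] at h1
        exact h1
      have hii : i = i' := by
        by_contra hne
        apply P_W3 l k ρ hg hl ho (i :: u) hw
        apply W3_.two hg hl ho hne
        · refine ⟨-1 * W ρ u, ?_⟩
          rw [e1, ← mul_assoc, W3_.sq hg, mul_assoc]
        · refine ⟨((e * e' : ℤ) : ℍ[ℤ]) * (-1 * W ρ u'), ?_⟩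
          rw [e3, pull, e2, ← mul_assoc (ρ i'), W3_.sq hg]
          have h5 := pull (e * e') (l : ℍ[ℤ]) (-1 * W ρ u')
          rw [h5, mul_assoc]
      subst hii
      have h6 : (e : ℍ[ℤ]) * W ρ u = (e' : ℍ[ℤ]) * W ρ u' := by
        have h7 : ρ i * ((e : ℍ[ℤ]) * W ρ (i :: u)) =
            ρ i * ((e' : ℍ[ℤ]) * W ρ (i :: u')) := by rw [h]
        rw [e1, e2, pull, pull, ← mul_assoc (ρ i), ← mul_assoc (ρ i), W3_.sq hg, mul_assoc,
          mul_assoc, ← pull e (l : ℍ[ℤ]), ← pull e' (l : ℍ[ℤ])] at h7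
        have h8 := cancel hl.ne_zero h7
        have h9 : (-1 : ℍ[ℤ]) * W ρ u = -W ρ u := by simp
        have h10 : (-1 : ℍ[ℤ]) * W ρ u' = -W ρ u' := by simp
        rw [h9, h10, mul_neg, mul_neg, neg_inj] at h8
        exact h8
      have hu : Red u := by
        unfold Red at hw ⊢
        exact hw.tail
      have hu' : Red u' := by
        unfold Red at hw' ⊢
        exact hw'.tail
      obtain ⟨h11, h12⟩ := ih u' e e' hu hu' (by simpa using hlen) he he' h6
      exact ⟨h11, by rw [h12]⟩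

end Pool.Agent.XPR
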