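import Pool.Agent.XPR.Targets

/-!
# XPR: norm and parity of words (helper98)
-/

set_option autoImplicit false

open scoped Quaternion NumberField

namespace Pool.Agent.XPR

namespace W6_

theorem step_par (x y z a b c d : ℤ) (hx : Odd x) (hy : Odd y) (hz : Odd z) (n : ℕ)
    (h : if Even n then Odd a ∧ Even b ∧ Even c ∧ Even d else Even a ∧ Odd b ∧ Odd c ∧ Odd d) :
    if Even (n + 1) then Odd (0 * a - x * b - y * c - z * d) ∧ Even (0 * b + x * a + y * d - z * c) ∧
        Even (0 * c - x * d + y * a + z * b) ∧ Even (0 * d + x * c - y * b + z * a)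
      else Even (0 * a - x * b - y * c - z * d) ∧ Odd (0 * b + x * a + y * d - z * c) ∧
        Odd (0 * c - x * d + y * a + z * b) ∧ Odd (0 * d + x * c - y * b + z * a) := by
  have key : ∀ {p q r : ℤ}, Odd p → Even q → Even r → Odd (p + q + r) :=
    fun hp hq hr => (hp.add_even hq).add_even hr
  by_cases he : Even n
  · rw [if_pos he] at h
    rw [if_neg (by rw [Nat.not_even_iff_odd]; exact he.add_one)]
    obtain ⟨h0, h1, h2, h3⟩ := h
    refine ⟨?_, ?_, ?_, ?_⟩
    · have h := ((h1.mul_left x).add (h2.mul_left y)).add (h3.mul_left z)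
      have e : 0 * a - x * b - y * c - z * d = -(x * b + y * c + z * d) := by ring
      rw [e]; exact h.neg
    · have h := key (hx.mul h0) (h3.mul_left y) (h2.mul_left z).neg
      have e : 0 * b + x * a + y * d - z * c = x * a + y * d + -(z * c) := by ring
      rw [e]; exact h
    · have h := key (hy.mul h0) (h1.mul_left z) (h3.mul_left x).neg
      have e : 0 * c - x * d + y * a + z * b = y * a + z * b + -(x * d) := by ring
      rw [e]; exact h
    · have h := key (hz.mul h0) (h2.mul_left x) (h1.mul_left y).neg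
      have e : 0 * d + x * c - y * b + z * a = z * a + x * c + -(y * b) := by ring
      rw [e]; exact h
  · rw [if_neg he] at h
    rw [Nat.not_even_iff_odd] at he
    rw [if_pos he.add_one]
    obtain ⟨h0, h1, h2, h3⟩ := h
    refine ⟨?_, ?_, ?_, ?_⟩
    · have h := ((hx.mul h1).add_odd (hy.mul h2)).add_odd (hz.mul h3)
      have e : 0 * a - x * b - y * c - z * d = -(x * b + y * c + z * d) := by ring
      rw [e]; exact h.neg
    · have h := (h0.mul_left x).add ((hy.mul h3).sub_odd (hz.mul h2))
      have e : 0 * b + x * a + y * d - z * c = x * a + (y * d - z * c) := by ring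
      rw [e]; exact h
    · have h := (h0.mul_left y).add ((hz.mul h1).sub_odd (hx.mul h3))
      have e : 0 * c - x * d + y * a + z * b = y * a + (z * b - x * d) := by ring
      rw [e]; exact h
    · have h := (h0.mul_left z).add ((hx.mul h2).sub_odd (hy.mul h1))
      have e : 0 * d + x * c - y * b + z * a = z * a + (x * c - y * b) := by ring
      rw [e]; exact h

theorem step_nrm (x y z a b c d l : ℤ) (n : ℕ) (hl : x ^ 2 + y ^ 2 + z ^ 2 = l)
    (h : a ^ 2 + b ^ 2 + c ^ 2 + d ^ 2 = l ^ n) :
    (0 * a - x * b - y * c - z * d) ^ 2 + (0 * b + x * a + y * d - z * c) ^ 2 +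
      (0 * c - x * d + y * a + z * b) ^ 2 + (0 * d + x * c - y * b + z * a) ^ 2 = l ^ (n + 1) := by
  rw [pow_succ l n, ← h, ← hl]
  ring

end W6_

theorem P_W6 : T_W6 := by
  intro l k ρ hG w
  induction w with
  | nil =>
    refine ⟨?_, ?_⟩
    · unfold Par
      simp [W]
    · simp [W]
  | cons i u ih =>
    obtain ⟨hp, hn⟩ := ih
    have hW : W ρ (i :: u) = ρ i * W ρ u := by simp [W]
    have hre := hG.re i
    obtain ⟨hx, hy, hz⟩ := hG.odd i
    have hnrm := hG.nrm i
    rw [hW]
    have e0 := Quaternion.re_mul (ρ i) (W ρ u)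
    have e1 := Quaternion.imI_mul (ρ i) (W ρ u)
    have e2 := Quaternion.imJ_mul (ρ i) (W ρ u)
    have e3 := Quaternion.imK_mul (ρ i) (W ρ u)
    rw [hre] at e0 e1 e2 e3
    unfold Par at hp ⊢
    rw [e0, e1, e2, e3, List.length_cons]
    exact ⟨W6_.step_par _ _ _ _ _ _ _ hx hy hz _ hp, W6_.step_nrm _ _ _ _ _ _ _ _ _ hnrm hn⟩

end Pool.Agent.XPR
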