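import Pool.Agent.XPR.P_W3
import Pool.Agent.XPR.P_W4
import Pool.Agent.XPR.P_W6

/-!
# XPR: W5, existence of words
-/

set_option autoImplicit false

open scoped Quaternion

namespace Pool.Agent.XPR

namespace W5_

/-- the norm form -/
def nr (τ : ℍ[ℤ]) : ℤ := τ.re ^ 2 + τ.imI ^ 2 + τ.imJ ^ 2 + τ.imK ^ 2

theorem nr_int (s : ℤ) (τ : ℍ[ℤ]) : nr ((s : ℍ[ℤ]) * τ) = s ^ 2 * nr τ := by
  simp only [nr, W3_.c_re, W3_.c_imI, W3_.c_imJ, W3_.c_imK]
  ring

theorem nr_rho {l k : ℕ} {ρ : Fin k → ℍ[ℤ]} (hg : Gens l k ρ) (i : Fin k) (τ : ℍ[ℤ]) :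
    nr (ρ i * τ) = l * nr τ := by
  have h0 := hg.re i
  have h1 := hg.nrm i
  simp only [nr, Quaternion.re_mul, Quaternion.imI_mul, Quaternion.imJ_mul, Quaternion.imK_mul, h0]
  rw [← h1]
  ring

theorem odd_of_mul {l x : ℤ} (h : Odd (l * x)) : Odd x := (Int.odd_mul.1 h).2

theorem even_of_mul {l x : ℤ} (hl : Odd l) (h : Even (l * x)) : Even x := by
  rcases Int.even_mul.1 h with h | h
  · exact absurd h (Int.not_even_iff_odd.2 hl)
  · exact h

theorem par_step {l k : ℕ} {ρ : Fin k → ℍ[ℤ]} (hg : Gens l k ρ) (ho : Odd l) (i : Fin k) (n : ℕ)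
    {τ τ1 : ℍ[ℤ]} (h : ρ i * τ = (l : ℍ[ℤ]) * τ1) (hp : Par (n + 1) τ) : Par n τ1 := by
  obtain ⟨hx, hy, hz⟩ := hg.odd i
  have h2 := W6_.step_par _ _ _ _ _ _ _ hx hy hz (n + 1) hp
  have hl : Odd (l : ℤ) := by exact_mod_cast ho
  have hev : Even (n + 1 + 1) ↔ Even n := by
    rw [Nat.even_add_one, Nat.even_add_one, not_not]
  have hh : ((l : ℤ) : ℍ[ℤ]) * τ1 = ρ i * τ := by
    rw [h]; push_cast; rfl
  have e0 : (l : ℤ) * τ1.re =
      0 * τ.re - (ρ i).imI * τ.imI - (ρ i).imJ * τ.imJ - (ρ i).imK * τ.imK := by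
    rw [← W3_.c_re, hh, Quaternion.re_mul, hg.re i]
  have e1 : (l : ℤ) * τ1.imI =
      0 * τ.imI + (ρ i).imI * τ.re + (ρ i).imJ * τ.imK - (ρ i).imK * τ.imJ := by
    rw [← W3_.c_imI, hh, Quaternion.imI_mul, hg.re i]
  have e2 : (l : ℤ) * τ1.imJ =
      0 * τ.imJ - (ρ i).imI * τ.imK + (ρ i).imJ * τ.re + (ρ i).imK * τ.imI := by
    rw [← W3_.c_imJ, hh, Quaternion.imJ_mul, hg.re i]
  have e3 : (l : ℤ) * τ1.imK =
      0 * τ.imK + (ρ i).imI * τ.imJ - (ρ i).imJ * τ.imI + (ρ i).imK * τ.re := by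
    rw [← W3_.c_imK, hh, Quaternion.imK_mul, hg.re i]
  rw [← e0, ← e1, ← e2, ← e3] at h2
  unfold Par
  by_cases he : Even n
  · rw [if_pos (hev.2 he)] at h2
    rw [if_pos he]
    exact ⟨odd_of_mul h2.1, even_of_mul hl h2.2.1, even_of_mul hl h2.2.2.1,
      even_of_mul hl h2.2.2.2⟩
  · rw [if_neg (fun h => he (hev.1 h))] at h2
    rw [if_neg he]
    exact ⟨even_of_mul hl h2.1, odd_of_mul h2.2.1, odd_of_mul h2.2.2.1,
      odd_of_mul h2.2.2.2⟩

end W5_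

open W5_ in
theorem P_W5 : T_W5 := by
  intro l k ρ hg hl ho n
  have hl0 : (l : ℤ) ≠ 0 := by exact_mod_cast hl.ne_zero
  induction n with
  | zero =>
    intro τ hn _ hp
    unfold Par at hp
    rw [if_pos (by decide)] at hp
    obtain ⟨h0, ⟨b, hb⟩, ⟨c, hc⟩, ⟨d, hd⟩⟩ := hp
    rw [pow_zero] at hn
    have hb0 : τ.imI = 0 := by
      by_contra hcon
      have : b ≠ 0 := by rintro rfl; simp at hb; exact hcon hb
      have h1 : 1 ≤ b ^ 2 := by
        rcases lt_or_gt_of_ne this with h | h <;> nlinarith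
      have h2 : τ.imI ^ 2 = 4 * b ^ 2 := by rw [hb]; ring
      linarith [sq_nonneg τ.re, sq_nonneg τ.imJ, sq_nonneg τ.imK]
    have hc0 : τ.imJ = 0 := by
      by_contra hcon
      have : c ≠ 0 := by rintro rfl; simp at hc; exact hcon hc
      have h1 : 1 ≤ c ^ 2 := by
        rcases lt_or_gt_of_ne this with h | h <;> nlinarith
      have h2 : τ.imJ ^ 2 = 4 * c ^ 2 := by rw [hc]; ring
      linarith [sq_nonneg τ.re, sq_nonneg τ.imI, sq_nonneg τ.imK]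
    have hd0 : τ.imK = 0 := by
      by_contra hcon
      have : d ≠ 0 := by rintro rfl; simp at hd; exact hcon hd
      have h1 : 1 ≤ d ^ 2 := by
        rcases lt_or_gt_of_ne this with h | h <;> nlinarith
      have h2 : τ.imK ^ 2 = 4 * d ^ 2 := by rw [hd]; ring
      linarith [sq_nonneg τ.re, sq_nonneg τ.imI, sq_nonneg τ.imJ]
    rw [hb0, hc0, hd0] at hn
    have hr : τ.re = 1 ∨ τ.re = -1 := by
      have : τ.re ^ 2 = 1 := by linarith
      have h5 : (τ.re - 1) * (τ.re + 1) = 0 := by linarith [this, show (τ.re - 1) * (τ.re + 1) = τ.re ^ 2 - 1 by ring]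
      rcases mul_eq_zero.1 h5 with h | h
      · left; linarith
      · right; linarith
    refine ⟨τ.re, [], hr, ?_, rfl, ?_⟩
    · simp [Red]
    · ext <;> simp [W, hb0, hc0, hd0]
  | succ n ih =>
    intro τ hn hnd hp
    obtain ⟨i, τ1, h1⟩ := hg.ex τ (by rw [hn]; exact dvd_pow_self _ (by omega))
    -- `τ = - ρ i τ1`
    have h2 : (l : ℍ[ℤ]) * (-τ) = (l : ℍ[ℤ]) * (ρ i * τ1) := by
      have e1 : ρ i * (ρ i * τ) = (l : ℍ[ℤ]) * (-τ) := by
        rw [← mul_assoc, W3_.sq hg, mul_assoc]; simp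
      rw [← e1, h1, ← mul_assoc, ← mul_assoc, (Nat.cast_commute l (ρ i)).eq]
    have h3 : -τ = ρ i * τ1 := W4_.cancel hl.ne_zero h2
    have h4 : τ = -(ρ i * τ1) := by rw [← h3, neg_neg]
    have hnr : nr τ1 = (l : ℤ) ^ n := by
      have e1 : nr (ρ i * τ) = (l : ℤ) ^ 2 * nr τ1 := by
        rw [h1]
        have : ((l : ℍ[ℤ]) * τ1) = ((l : ℤ) : ℍ[ℤ]) * τ1 := by push_cast; rfl
        rw [this, nr_int]
      rw [nr_rho hg] at e1
      have e2 : nr τ = (l : ℤ) ^ (n + 1) := hn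
      rw [e2] at e1
      have e3 : (l : ℤ) ^ 2 * (l : ℤ) ^ n = (l : ℤ) ^ 2 * nr τ1 := by rw [← e1]; ring
      exact (mul_left_cancel₀ (pow_ne_zero 2 hl0) e3).symm
    have hnd1 : ¬ ∃ τ' : ℍ[ℤ], τ1 = (l : ℍ[ℤ]) * τ' := by
      rintro ⟨τ', h⟩
      apply hnd
      refine ⟨-(ρ i * τ'), ?_⟩
      rw [h4, h, ← mul_assoc, (Nat.cast_commute l (ρ i)).symm.eq, mul_assoc, mul_neg]
    obtain ⟨e, w, he, hw, hlen, hτ⟩ := ih τ1 hnr hnd1 (par_step hg ho i n h1 hp)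
    refine ⟨-e, i :: w, ?_, ?_, by simp [hlen], ?_⟩
    · rcases he with rfl | rfl
      · right; rfl
      · left; norm_num
    · unfold Red at hw ⊢
      cases w with
      | nil => simp
      | cons j u =>
        rw [List.isChain_cons_cons]
        refine ⟨?_, hw⟩
        rintro rfl
        apply hnd
        refine ⟨(e : ℍ[ℤ]) * W ρ u, ?_⟩
        rw [h4, hτ]
        have e1 : W ρ (i :: u) = ρ i * W ρ u := by simp [W]
        rw [e1, W4_.pull, ← mul_assoc (ρ i), W3_.sq hg, mul_assoc, ← mul_assoc (e : ℍ[ℤ]),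
          ← (Nat.cast_commute l (e : ℍ[ℤ])).eq]
        simp [mul_assoc]
    · have e1 : W ρ (i :: w) = ρ i * W ρ w := by simp [W]
      rw [h4, hτ, e1, W4_.pull]
      simp

end Pool.Agent.XPR
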