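import Pool.Agent.XPR.Targets

/-!
# Project XPR: trace criterion for words (W7)
-/

set_option autoImplicit false

open scoped Quaternion NumberField

namespace Pool.Agent.XPR

namespace W7_

theorem nat_re (l : ℕ) (q : ℍ[ℤ]) : ((l : ℍ[ℤ]) * q).re = (l : ℤ) * q.re := by simp
theorem nat_imI (l : ℕ) (q : ℍ[ℤ]) : ((l : ℍ[ℤ]) * q).imI = (l : ℤ) * q.imI := by simp
theorem nat_imJ (l : ℕ) (q : ℍ[ℤ]) : ((l : ℍ[ℤ]) * q).imJ = (l : ℤ) * q.imJ := by simp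
theorem nat_imK (l : ℕ) (q : ℍ[ℤ]) : ((l : ℍ[ℤ]) * q).imK = (l : ℤ) * q.imK := by simp

/-- divisibility by coordinates -/
theorem dvd_iff (l : ℕ) (q : ℍ[ℤ]) : (∃ τ : ℍ[ℤ], q = (l : ℍ[ℤ]) * τ) ↔
    (l : ℤ) ∣ q.re ∧ (l : ℤ) ∣ q.imI ∧ (l : ℤ) ∣ q.imJ ∧ (l : ℤ) ∣ q.imK := by
  constructor
  · rintro ⟨τ, rfl⟩
    refine ⟨⟨τ.re, nat_re l τ⟩, ⟨τ.imI, nat_imI l τ⟩, ⟨τ.imJ, nat_imJ l τ⟩, ⟨τ.imK, nat_imK l τ⟩⟩
  · rintro ⟨⟨a, ha⟩, ⟨b, hb⟩, ⟨c, hc⟩, ⟨d, hd⟩⟩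
    refine ⟨⟨a, b, c, d⟩, ?_⟩
    ext
    · rw [nat_re, ha]
    · rw [nat_imI, hb]
    · rw [nat_imJ, hc]
    · rw [nat_imK, hd]

theorem W_append {k : ℕ} (ρ : Fin k → ℍ[ℤ]) (u v : List (Fin k)) :
    W ρ (u ++ v) = W ρ u * W ρ v := by
  rw [W, List.map_append, List.prod_append, W, W]

theorem W_cons {k : ℕ} (ρ : Fin k → ℍ[ℤ]) (i : Fin k) (v : List (Fin k)) :
    W ρ (i :: v) = ρ i * W ρ v := by
  rw [W, List.map_cons, List.prod_cons, W]

theorem W_single {k : ℕ} (ρ : Fin k → ℍ[ℤ]) (i : Fin k) : W ρ [i] = ρ i := by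
  rw [W_cons]
  show ρ i * 1 = ρ i
  rw [mul_one]

/-- the letters have square `-l` -/
theorem sq {l k : ℕ} {ρ : Fin k → ℍ[ℤ]} (hG : Gens l k ρ) (i : Fin k) :
    ρ i * ρ i = (l : ℍ[ℤ]) * (-1) := by
  have h0 := hG.re i
  have h1 := hG.nrm i
  ext
  · rw [nat_re, Quaternion.re_mul, h0]
    simp only [Quaternion.re_neg, Quaternion.re_one]
    linarith
  · rw [nat_imI, Quaternion.imI_mul, h0]
    simp only [Quaternion.imI_neg, Quaternion.imI_one]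
    ring
  · rw [nat_imJ, Quaternion.imJ_mul, h0]
    simp only [Quaternion.imJ_neg, Quaternion.imJ_one]
    ring
  · rw [nat_imK, Quaternion.imK_mul, h0]
    simp only [Quaternion.imK_neg, Quaternion.imK_one]
    ring

end W7_

open W7_ in
/-- `T_W7`. -/
theorem P_W7 (h_W3 : T_W3) (h_W6 : T_W6) : T_W7 := by
  intro l k ρ hG hl hodd w hw hne
  have hN := (h_W6 l k ρ hG w).2
  obtain ⟨τ, hτ⟩ : ∃ τ : ℍ[ℤ], τ = W ρ w := ⟨_, rfl⟩
  rw [← hτ] at hN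
  rw [← hτ]
  have hlN : (l : ℤ) ∣ τ.re ^ 2 + τ.imI ^ 2 + τ.imJ ^ 2 + τ.imK ^ 2 := by
    rw [hN]
    refine dvd_pow_self _ ?_
    intro h0
    exact hne (List.length_eq_zero_iff.1 h0)
  have hpr : Prime (l : ℤ) := Nat.prime_iff_prime_int.1 hl
  have hnd : ¬ ∃ τ' : ℍ[ℤ], τ = (l : ℍ[ℤ]) * τ' := by
    rw [hτ]
    exact h_W3 l k ρ hG hl hodd w hw
  have e1 : (τ * τ).re = 2 * τ.re * τ.re - (τ.re ^ 2 + τ.imI ^ 2 + τ.imJ ^ 2 + τ.imK ^ 2) := by
    rw [Quaternion.re_mul]; ring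
  have e2 : (τ * τ).imI = 2 * τ.re * τ.imI := by
    rw [Quaternion.imI_mul]; ring
  have e3 : (τ * τ).imJ = 2 * τ.re * τ.imJ := by
    rw [Quaternion.imJ_mul]; ring
  have e4 : (τ * τ).imK = 2 * τ.re * τ.imK := by
    rw [Quaternion.imK_mul]; ring
  constructor
  · intro hd
    by_contra hhl
    have hred : Red (w ++ w) := by
      rw [Red, List.isChain_append]
      refine ⟨hw, hw, ?_⟩
      intro x hx y hy hxy
      apply hhl
      rw [hxy] at hx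
      rw [Option.mem_def] at hx hy
      rw [hx, hy]
    refine h_W3 l k ρ hG hl hodd (w ++ w) hred ?_
    rw [W_append, ← hτ, dvd_iff, e1, e2, e3, e4]
    refine ⟨dvd_sub ?_ hlN, ?_, ?_, ?_⟩
    · exact Dvd.dvd.mul_right (Dvd.dvd.mul_left hd 2) _
    · exact Dvd.dvd.mul_right (Dvd.dvd.mul_left hd 2) _
    · exact Dvd.dvd.mul_right (Dvd.dvd.mul_left hd 2) _
    · exact Dvd.dvd.mul_right (Dvd.dvd.mul_left hd 2) _
  · intro hh
    obtain ⟨i, v, hv⟩ := List.exists_cons_of_ne_nil hne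
    have hlast : w.getLast hne = i := by
      have h1 : w.getLast? = some (w.getLast hne) := List.getLast?_eq_getLast_of_ne_nil hne
      have h2 : w.head? = some i := by rw [hv]; rfl
      rw [h1, h2] at hh
      exact (Option.some.inj hh).symm
    have hu : w.dropLast ++ [i] = w := by
      rw [← hlast]
      exact List.dropLast_append_getLast hne
    have hprod : τ * τ = (l : ℍ[ℤ]) * (-(W ρ w.dropLast * W ρ v)) := by
      have h1 : τ = W ρ w.dropLast * ρ i := by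
        rw [hτ, ← W_single ρ i, ← W_append, hu]
      have h2 : τ = ρ i * W ρ v := by
        rw [hτ, hv, W_cons]
      have h3 : τ * τ = W ρ w.dropLast * (ρ i * ρ i) * W ρ v := by
        rw [← mul_assoc, ← h1, mul_assoc, ← h2]
      rw [h3, sq hG i, ← mul_assoc, ← (Nat.cast_commute l (W ρ w.dropLast)).eq]
      rw [mul_neg_one, neg_mul, mul_neg, mul_assoc]
    have h4 := (dvd_iff l (τ * τ)).1 ⟨_, hprod⟩
    rw [e1, e2, e3, e4] at h4
    by_contra hnr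
    have h2l : ¬ (l : ℤ) ∣ 2 * τ.re := by
      intro h5
      rcases hpr.dvd_or_dvd h5 with h6 | h6
      · have h7 : l ∣ 2 := by exact_mod_cast h6
        have h8 := (Nat.prime_dvd_prime_iff_eq hl Nat.prime_two).1 h7
        rw [h8] at hodd
        exact absurd hodd (by decide)
      · exact hnr h6
    have key : ∀ c : ℤ, (l : ℤ) ∣ 2 * τ.re * c → (l : ℤ) ∣ c := fun c hc =>
      (hpr.dvd_or_dvd hc).resolve_left h2l
    refine hnd ((dvd_iff l τ).2 ⟨key _ ?_, key _ h4.2.1, key _ h4.2.2.1, key _ h4.2.2.2⟩)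
    have h9 := dvd_add h4.1 hlN
    rwa [sub_add_cancel] at h9

end Pool.Agent.XPR
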