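import Pool.Agent.XPR.Targets

/-!
# Project XPR: W8, proper colourings of a cycle
-/

set_option autoImplicit false

namespace Pool.Agent.XPR

namespace W8_

/-- the reduced words of length `n + 1` with first letter `a` and last letter `b` -/
def F (k : ℕ) : ℕ → Fin k → Fin k → Finset (List (Fin k))
  | 0, a, b => if a = b then {[a]} else ∅
  | n + 1, a, b => (Finset.univ.filter (· ≠ a)).biUnion fun a' => (F k n a' b).image (List.cons a)

theorem mem_F {k : ℕ} (n : ℕ) (a b : Fin k) (w : List (Fin k)) :
    w ∈ F k n a b ↔ w.length = n + 1 ∧ Red w ∧ w.head? = some a ∧ w.getLast? = some b := by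
  induction n generalizing a w with
  | zero =>
    unfold F
    constructor
    · intro h
      split_ifs at h with hab
      · rw [Finset.mem_singleton] at h
        subst h
        subst hab
        simp [Red]
      · simp at h
    · rintro ⟨h1, -, h3, h4⟩
      obtain ⟨c, rfl⟩ := List.length_eq_one_iff.1 h1
      simp only [List.head?_cons, Option.some.injEq, List.getLast?_singleton] at h3 h4
      subst h3
      subst h4
      simp
  | succ n ih =>
    unfold F
    rw [Finset.mem_biUnion]
    constructor
    · rintro ⟨a', ha', h⟩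
      rw [Finset.mem_image] at h
      obtain ⟨u, hu, rfl⟩ := h
      obtain ⟨h1, h2, h3, h4⟩ := (ih a' u).1 hu
      have hne : a' ≠ a := (Finset.mem_filter.1 ha').2
      match u, h1, h2, h3, h4 with
      | c :: u', h1, h2, h3, h4 =>
        simp only [List.head?_cons, Option.some.injEq] at h3
        subst h3
        refine ⟨by simpa using h1, ?_, by simp, ?_⟩
        · exact List.isChain_cons_cons.2 ⟨hne.symm, h2⟩
        · rw [← h4]
          rfl
    · rintro ⟨h1, h2, h3, h4⟩
      match w, h1, h2, h3, h4 with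
      | [_], h1, _, _, _ => simp at h1
      | c :: c' :: u, h1, h2, h3, h4 =>
        simp only [List.head?_cons, Option.some.injEq] at h3
        subst h3
        obtain ⟨h5, h6⟩ := List.isChain_cons_cons.1 h2
        refine ⟨c', Finset.mem_filter.2 ⟨Finset.mem_univ _, h5.symm⟩, ?_⟩
        rw [Finset.mem_image]
        refine ⟨c' :: u, (ih c' (c' :: u)).2 ⟨by simpa using h1, h6, by simp, ?_⟩, rfl⟩
        rw [← h4]
        rfl

/-- numbers of words: equal and different ends -/
def XY (k : ℕ) : ℕ → ℕ × ℕ
  | 0 => (1, 0)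
  | n + 1 => ((k - 1) * (XY k n).2, (XY k n).1 + (k - 2) * (XY k n).2)

theorem card_F {k : ℕ} (n : ℕ) (a b : Fin k) :
    (F k n a b).card = if a = b then (XY k n).1 else (XY k n).2 := by
  induction n generalizing a with
  | zero =>
    unfold F XY
    split_ifs <;> simp
  | succ n ih =>
    have h1 : (F k (n + 1) a b).card = ∑ a' ∈ Finset.univ.filter (· ≠ a), (F k n a' b).card := by
      rw [F, Finset.card_biUnion]
      · exact Finset.sum_congr rfl fun a' _ =>
          Finset.card_image_of_injective _ List.cons_injective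
      · intro c _ d _ hcd
        show Disjoint ((F k n c b).image (List.cons a)) ((F k n d b).image (List.cons a))
        rw [Finset.disjoint_left]
        intro w hw hw'
        rw [Finset.mem_image] at hw hw'
        obtain ⟨u, hu, rfl⟩ := hw
        obtain ⟨u', hu', h⟩ := hw'
        rw [List.cons_injective h] at hu'
        have h1 := ((mem_F n c b u).1 hu).2.2.1
        have h2 := ((mem_F n d b u).1 hu').2.2.1
        rw [h1] at h2
        exact hcd (Option.some.inj h2)
    rw [h1, Finset.sum_congr rfl fun a' _ => ih a']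
    have hk : (Finset.univ.filter (· ≠ a) : Finset (Fin k)).card = k - 1 := by
      rw [Finset.filter_ne' Finset.univ a, Finset.card_erase_of_mem (Finset.mem_univ _),
        Finset.card_univ, Fintype.card_fin]
    by_cases hab : a = b
    · subst hab
      rw [if_pos rfl, Finset.sum_congr rfl (g := fun _ => (XY k n).2), Finset.sum_const, hk]
      · rfl
      · intro a' ha'
        rw [if_neg (Finset.mem_filter.1 ha').2]
    · rw [if_neg hab]
      have hb : b ∈ Finset.univ.filter (· ≠ a) := by
        rw [Finset.mem_filter]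
        exact ⟨Finset.mem_univ _, fun h => hab h.symm⟩
      rw [← Finset.add_sum_erase _ _ hb, if_pos rfl,
        Finset.sum_congr rfl (g := fun _ => (XY k n).2), Finset.sum_const,
        Finset.card_erase_of_mem hb, hk]
      · rfl
      · intro a' ha'
        rw [if_neg (Finset.ne_of_mem_erase ha')]

theorem XY_closed (j n : ℕ) :
    (Even n → (XY (j + 2) n).1 = (XY (j + 2) n).2 + 1 ∧
      (j + 2) * (XY (j + 2) n).2 + 1 = (j + 1) ^ n) ∧
    (Odd n → (XY (j + 2) n).1 + 1 = (XY (j + 2) n).2 ∧
      (j + 2) * (XY (j + 2) n).2 = (j + 1) ^ n + 1) := by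
  induction n with
  | zero => simp [XY]
  | succ n ih =>
    have e1 : (XY (j + 2) (n + 1)).1 = (j + 1) * (XY (j + 2) n).2 := rfl
    have e2 : (XY (j + 2) (n + 1)).2 = (XY (j + 2) n).1 + j * (XY (j + 2) n).2 := rfl
    rw [e1, e2]
    constructor
    · intro hn
      have hn' : Odd n := by
        rw [← Nat.not_even_iff_odd]
        intro h
        exact (Nat.even_add_one.1 hn) h
      obtain ⟨h1, h2⟩ := ih.2 hn'
      generalize (XY (j + 2) n).1 = x at *
      generalize (XY (j + 2) n).2 = y at *
      subst h1
      refine ⟨by ring, ?_⟩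
      rw [pow_succ]
      nlinarith
    · intro hn
      have hn' : Even n := by
        by_contra h
        exact (Nat.not_odd_iff_even.2 (Nat.even_add_one.2 h)) hn
      obtain ⟨h1, h2⟩ := ih.1 hn'
      generalize (XY (j + 2) n).1 = x at *
      generalize (XY (j + 2) n).2 = y at *
      subst h1
      refine ⟨by ring, ?_⟩
      rw [pow_succ, ← h2]
      ring

end W8_

open W8_ in
theorem P_W8 : T_W8 := by
  intro k n hk hn
  obtain ⟨j, rfl⟩ : ∃ j, k = j + 2 := ⟨k - 2, by omega⟩
  obtain ⟨m, rfl⟩ : ∃ m, n = m + 1 := ⟨n - 1, by have := hn.pos; omega⟩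
  have hm : Even m := by
    by_contra h
    exact (Nat.not_odd_iff_even.2 (Nat.even_add_one.2 h)) hn
  set S : Finset (List (Fin (j + 2))) :=
    Finset.univ.offDiag.biUnion (fun p : Fin (j + 2) × Fin (j + 2) => F (j + 2) m p.1 p.2) with hS
  have hmem : ∀ w : List (Fin (j + 2)), w ∈ S ↔
      (w.length = m + 1 ∧ Red w ∧ w.head? ≠ w.getLast?) := by
    intro w
    rw [hS, Finset.mem_biUnion]
    constructor
    · rintro ⟨⟨a, b⟩, hab, hw⟩
      obtain ⟨h1, h2, h3, h4⟩ := (mem_F m a b w).1 hw
      refine ⟨h1, h2, ?_⟩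
      rw [h3, h4]
      intro h
      exact (Finset.mem_offDiag.1 hab).2.2 (Option.some.inj h)
    · rintro ⟨h1, h2, h3⟩
      have hne : w ≠ [] := by
        rintro rfl
        simp at h1
      have h4 : w.head? = some (w.head hne) := List.head?_eq_some_head hne
      have h5 : w.getLast? = some (w.getLast hne) := List.getLast?_eq_some_getLast hne
      refine ⟨(w.head hne, w.getLast hne), ?_, (mem_F m _ _ w).2 ⟨h1, h2, h4, h5⟩⟩
      rw [Finset.mem_offDiag]
      refine ⟨Finset.mem_univ _, Finset.mem_univ _, fun h => h3 ?_⟩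
      rw [h4, h5]
      exact congrArg some h
  rw [Nat.subtype_card S hmem, hS, Finset.card_biUnion]
  · have h1 : ∀ p ∈ (Finset.univ : Finset (Fin (j + 2))).offDiag,
        (F (j + 2) m p.1 p.2).card = (XY (j + 2) m).2 := by
      intro p hp
      rw [card_F, if_neg (Finset.mem_offDiag.1 hp).2.2]
    rw [Finset.sum_congr rfl h1, Finset.sum_const, Finset.offDiag_card, Finset.card_univ,
      Fintype.card_fin]
    obtain ⟨-, h2⟩ := (XY_closed j m).1 hm
    have h3 : (j + 2) * (j + 2) - (j + 2) = (j + 2) * (j + 1) := by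
      rw [Nat.sub_eq_iff_eq_add (Nat.le_mul_self _)]
      ring
    have h4 : j + 2 - 1 = j + 1 := rfl
    rw [h3, h4, pow_succ, ← h2, smul_eq_mul]
    ring
  · intro p _ q _ hpq
    show Disjoint (F (j + 2) m p.1 p.2) (F (j + 2) m q.1 q.2)
    rw [Finset.disjoint_left]
    intro w hw hw'
    obtain ⟨-, -, h3, h4⟩ := (mem_F m _ _ w).1 hw
    obtain ⟨-, -, h5, h6⟩ := (mem_F m _ _ w).1 hw'
    apply hpq
    rw [h3] at h5
    rw [h4] at h6
    exact Prod.ext (Option.some.inj h5) (Option.some.inj h6)

end Pool.Agent.XPR
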