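import Pool.Agent.XPR.P_STAR
import Pool.Agent.XPR.P_INT
import Pool.Agent.XPR.P_EUC
import Pool.Agent.XPR.P_CEN
import Pool.Agent.XPR.P_IMG
import Pool.Agent.XPR.P_CJI
import Pool.Agent.XPR.P_SPN
import Pool.Agent.XPR.P_GEN
import Pool.Agent.XPR.P_UNL
import Pool.Agent.XPR.P_EQV
import Pool.Agent.XPR.P_MEM
import Pool.Agent.XPR.P_ORB
import Pool.Agent.XPR.P_UFI
import Pool.Agent.XPR.P_VFI
import Pool.Agent.XPR.P_QXY
import Pool.Agent.XPR.P_IN1
import Pool.Agent.XPR.P_IN2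
import Pool.Agent.XPR.P_PIN
import Pool.Agent.XPR.P_COP
import Pool.Agent.XPR.P_MOD
import Pool.Agent.XPR.P_PW
import Pool.Agent.XPR.P_LUC
import Pool.Agent.XPR.P_G3
import Pool.Agent.XPR.P_G11
import Pool.Agent.XPR.P_W3
import Pool.Agent.XPR.P_W4
import Pool.Agent.XPR.P_W5
import Pool.Agent.XPR.P_W6
import Pool.Agent.XPR.P_W8
import Pool.Agent.XPR.P_SUM
import Pool.Agent.XPR.P_EXK
import Pool.Agent.XPR.P_GRP
import Pool.Agent.XPR.P_PRI
import Pool.Agent.XPR.P_CNG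
import Pool.Agent.XPR.P_MUL
import Pool.Agent.XPR.P_SPC
import Pool.Agent.XPR.P_STU
import Pool.Agent.XPR.P_C1
import Pool.Agent.XPR.P_STB
import Pool.Agent.XPR.P_UN
import Pool.Agent.XPR.P_VP
import Pool.Agent.XPR.P_W7
import Pool.Agent.XPR.P_TOT
import Pool.Agent.XPR.P_SIZ
import Pool.Agent.XPR.P_C2
import Pool.Agent.XPR.P_SUR
import Pool.Agent.XPR.P_PDV
import Pool.Agent.XPR.P_CNT
import Pool.Agent.XPR.P_RIN
import Pool.Agent.XPR.P_INV
import Pool.Agent.XPR.P_CLM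
import Pool.Agent.XPR.P_CLS
import Pool.Agent.XPR.Final

/-!
# XPR: everything together
-/

set_option autoImplicit false

namespace Pool.Agent.XPR

theorem all_STAR : T_STAR := P_STAR 
theorem all_INT : T_INT := P_INT 
theorem all_EUC : T_EUC := P_EUC 
theorem all_CEN : T_CEN := P_CEN 
theorem all_IMG : T_IMG := P_IMG 
theorem all_CJI : T_CJI := P_CJI 
theorem all_SPN : T_SPN := P_SPN 
theorem all_GEN : T_GEN := P_GEN 
theorem all_UNL : T_UNL := P_UNL 
theorem all_EQV : T_EQV := P_EQV 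
theorem all_MEM : T_MEM := P_MEM 
theorem all_ORB : T_ORB := P_ORB 
theorem all_UFI : T_UFI := P_UFI 
theorem all_VFI : T_VFI := P_VFI 
theorem all_QXY : T_QXY := P_QXY 
theorem all_IN1 : T_IN1 := P_IN1 
theorem all_IN2 : T_IN2 := P_IN2 
theorem all_PIN : T_PIN := P_PIN 
theorem all_COP : T_COP := P_COP 
theorem all_MOD : T_MOD := P_MOD 
theorem all_PW : T_PW := P_PW 
theorem all_LUC : T_LUC := P_LUC 
theorem all_G3 : T_G3 := P_G3 
theorem all_G11 : T_G11 := P_G11 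
theorem all_W3 : T_W3 := P_W3 
theorem all_W4 : T_W4 := P_W4 
theorem all_W5 : T_W5 := P_W5 
theorem all_W6 : T_W6 := P_W6 
theorem all_W8 : T_W8 := P_W8 
theorem all_SUM : T_SUM := P_SUM 
theorem all_EXK : T_EXK := P_EXK 
theorem all_GRP : T_GRP := P_GRP 
theorem all_PRI : T_PRI := P_PRI all_INT all_EUC
theorem all_CNG : T_CNG := P_CNG all_CJI all_UNL all_GEN
theorem all_MUL : T_MUL := P_MUL all_IMG all_CJI
theorem all_SPC : T_SPC := P_SPC all_SPN all_GEN all_EQV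
theorem all_STU : T_STU := P_STU all_CEN all_INT
theorem all_C1 : T_C1 := P_C1 all_QXY all_IN2
theorem all_STB : T_STB := P_STB all_STAR all_UNL all_CEN all_INT all_IN1 all_IMG all_SPN
theorem all_UN : T_UN := P_UN all_QXY all_IN2
theorem all_VP : T_VP := P_VP all_QXY all_IN2
theorem all_W7 : T_W7 := P_W7 all_W3 all_W6
theorem all_TOT : T_TOT := P_TOT all_PRI all_MEM
theorem all_SIZ : T_SIZ := P_SIZ all_STAR all_STU
theorem all_C2 : T_C2 := P_C2 all_C1
theorem all_SUR : T_SUR := P_SUR all_C1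
theorem all_PDV : T_PDV := P_PDV all_MOD all_UN all_PW all_VP all_LUC
theorem all_CNT : T_CNT := P_CNT all_W4 all_W5 all_W6 all_W7 all_W8
theorem all_RIN : T_RIN := P_RIN all_MEM all_TOT all_CNG all_MUL all_SPC all_EQV
theorem all_INV : T_INV := P_INV all_C1 all_C2 all_PIN
theorem all_CLM : T_CLM := P_CLM all_COP all_SUR
theorem all_CLS : T_CLS := P_CLS all_ORB all_VFI all_EQV all_SIZ all_CLM all_TOT all_CNG all_RIN all_INV all_MUL all_STB

end Pool.Agent.XPR
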