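import Pool.Agent.XPR.Defs

/-!
# Project XPR: elementary facts
-/

set_option autoImplicit false

open scoped Quaternion NumberField

namespace Pool.Agent.XPR

theorem mem_RS_span {β x : ℍ[ℚ]} : x ∈ RS * Submodule.span ℤ {β} ↔ ∃ r ∈ Hur, x = r * β := by
  constructor
  · intro hx
    induction hx using Submodule.mul_induction_on' with
    | mem_mul_mem r hr b hb =>
      obtain ⟨n, rfl⟩ := Submodule.mem_span_singleton.1 hb
      exact ⟨n • r, zsmul_mem (mem_RS.1 hr) n, by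
        rw [mul_smul_comm, smul_mul_assoc]⟩
    | add a _ b _ ha hb =>
      obtain ⟨r, hr, rfl⟩ := ha
      obtain ⟨r', hr', rfl⟩ := hb
      exact ⟨r + r', add_mem hr hr', by rw [add_mul]⟩
  · rintro ⟨r, hr, rfl⟩
    exact Submodule.mul_mem_mul (mem_RS.2 hr) (Submodule.mem_span_singleton_self β)

theorem RS_mul_RS : RS * RS = RS := by
  apply le_antisymm
  · rw [Submodule.mul_le]
    intro a ha b hb
    exact mem_RS.2 (mul_mem (mem_RS.1 ha) (mem_RS.1 hb))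
  · intro x hx
    have := Submodule.mul_mem_mul (mem_RS.2 (one_mem Hur)) hx
    simpa using this

theorem one_mem_RS : (1 : ℍ[ℚ]) ∈ RS := mem_RS.2 (one_mem Hur)

theorem ev_apply (d : ℤ) (v : ℍ[ℚ]) (a : ℤ√d) : ev d v a = (a.re : ℍ[ℚ]) + (a.im : ℍ[ℚ]) * v := rfl

theorem int_comm (n : ℤ) (v : ℍ[ℚ]) : (n : ℍ[ℚ]) * v = v * (n : ℍ[ℚ]) := (Int.cast_commute n v).eq

theorem ev_mul {d : ℤ} {v : ℍ[ℚ]} (hv : v * v = (d : ℍ[ℚ])) (a b : ℤ√d) :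
    ev d v (a * b) = ev d v a * ev d v b := by
  have h1 : ((a.im : ℍ[ℚ]) * v) * ((b.im : ℍ[ℚ]) * v) = (d : ℍ[ℚ]) * (a.im : ℍ[ℚ]) * (b.im : ℍ[ℚ]) := by
    rw [mul_assoc (a.im : ℍ[ℚ]) v, ← mul_assoc v, ← int_comm b.im v, mul_assoc (b.im : ℍ[ℚ]) v v, hv,
      ← int_comm d, ← mul_assoc, ← int_comm d, mul_assoc]
  have h2 : (a.im : ℍ[ℚ]) * v * (b.re : ℍ[ℚ]) = (a.im : ℍ[ℚ]) * (b.re : ℍ[ℚ]) * v := by
    rw [mul_assoc, ← int_comm b.re v, mul_assoc]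
  simp only [ev_apply, Zsqrtd.re_mul, Zsqrtd.im_mul]
  rw [add_mul, mul_add, mul_add, h1, h2]
  push_cast
  simp only [add_mul, mul_assoc]
  abel

@[simp] theorem ev_one (d : ℤ) (v : ℍ[ℚ]) : ev d v 1 = 1 := by simp [ev_apply]

@[simp] theorem ev_int (d : ℤ) (v : ℍ[ℚ]) (n : ℤ) : ev d v (n : ℤ√d) = (n : ℍ[ℚ]) := by
  simp [ev_apply]

theorem ev_mem {d : ℤ} {v : ℍ[ℚ]} (hv : v ∈ Hur) (a : ℤ√d) : ev d v a ∈ Hur := by
  rw [ev_apply]
  exact add_mem (intCast_mem Hur _) (mul_mem (intCast_mem Hur _) hv)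

theorem mem_img {d : ℤ} {v : ℍ[ℚ]} {A : Ideal (ℤ√d)} {x : ℍ[ℚ]} :
    x ∈ img d v A ↔ ∃ a ∈ A, ev d v a = x := by
  simp [img]

/-- elements of `VSet m` have square `-m` -/
theorem V_sq {m : ℕ} {v : ℍ[ℚ]} (hv : v ∈ VSet m) : v * v = ((-(m : ℤ) : ℤ) : ℍ[ℚ]) := by
  obtain ⟨_, h0, hn⟩ := hv
  have h1 : star v = -v := by
    ext <;> simp [h0]
  have h2 := Quaternion.self_mul_star v
  rw [h1, hn, mul_neg] at h2
  have h3 : v * v = -(((m : ℚ) : ℚ) : ℍ[ℚ]) := by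
    rw [← neg_eq_iff_eq_neg]; exact h2
  rw [h3]
  push_cast
  rfl

theorem V_ne {m : ℕ} (hm : m ≠ 0) {v : ℍ[ℚ]} (hv : v ∈ VSet m) : v ≠ 0 := by
  rintro rfl
  have := hv.2.2
  rw [map_zero] at this
  exact hm (by exact_mod_cast this.symm)

theorem CopM_ne {m : ℕ} {N : ℤ} (hN : IsCoprime N (2 * (m : ℤ))) : N ≠ 0 := by
  rintro rfl
  rw [isCoprime_zero_left] at hN
  have := Int.isUnit_iff.1 hN
  omega

end Pool.Agent.XPR
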