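import Mathlib

/-!
# Project XPR: imaginary quadratic fields whose class number is exactly divisible by `p`

Definitions: the Hurwitz order, representations as sums of three squares, the relation given by the
ideals of `ℤ[√-m]`.
-/

set_option autoImplicit false

open scoped Quaternion NumberField

namespace Pool.Agent.XPR

/-- the Hurwitz quaternion with coordinates `x, y, z, w` in the basis `1, i, j, (1+i+j+k)/2` -/
def hq (x y z w : ℤ) : ℍ[ℚ] :=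
  ⟨(x : ℚ) + w / 2, (y : ℚ) + w / 2, (z : ℚ) + w / 2, (w : ℚ) / 2⟩

@[simp] theorem hq_re (x y z w : ℤ) : (hq x y z w).re = (x : ℚ) + w / 2 := rfl
@[simp] theorem hq_imI (x y z w : ℤ) : (hq x y z w).imI = (y : ℚ) + w / 2 := rfl
@[simp] theorem hq_imJ (x y z w : ℤ) : (hq x y z w).imJ = (z : ℚ) + w / 2 := rfl
@[simp] theorem hq_imK (x y z w : ℤ) : (hq x y z w).imK = (w : ℚ) / 2 := rfl

/-- The Hurwitz order: the `ℤ`-span of `1, i, j, (1+i+j+k)/2` in Hamilton's quaternions over `ℚ`. -/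
def Hur : Subring ℍ[ℚ] where
  carrier := {q | ∃ x y z w : ℤ, q = hq x y z w}
  mul_mem' := by
    rintro _ _ ⟨x, y, z, w, rfl⟩ ⟨x', y', z', w', rfl⟩
    refine ⟨x*x' - y*y' - y*z' - y*w' + z*y' - z*z' - w*z' - w*w',
      x*y' + y*x' - y*z' + z*y' + z*w' + w*y' - w*z',
      x*z' - y*z' - y*w' + z*x' + z*y' + z*w' + w*y',
      x*w' + 2*y*z' + y*w' - 2*z*y' - z*w' + w*x' - w*y' + w*z' + w*w', ?_⟩
    ext
    · simp only [Quaternion.re_mul, hq_re, hq_imI, hq_imJ, hq_imK]; push_cast; ring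
    · simp only [Quaternion.imI_mul, hq_re, hq_imI, hq_imJ, hq_imK]; push_cast; ring
    · simp only [Quaternion.imJ_mul, hq_re, hq_imI, hq_imJ, hq_imK]; push_cast; ring
    · simp only [Quaternion.imK_mul, hq_re, hq_imI, hq_imJ, hq_imK]; push_cast; ring
  one_mem' := ⟨1, 0, 0, 0, by ext <;> simp⟩
  add_mem' := by
    rintro _ _ ⟨x, y, z, w, rfl⟩ ⟨x', y', z', w', rfl⟩
    exact ⟨x + x', y + y', z + z', w + w', by ext <;> simp <;> ring⟩
  zero_mem' := ⟨0, 0, 0, 0, by ext <;> simp⟩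
  neg_mem' := by
    rintro _ ⟨x, y, z, w, rfl⟩
    exact ⟨-x, -y, -z, -w, by ext <;> simp <;> ring⟩

theorem mem_Hur {q : ℍ[ℚ]} : q ∈ Hur ↔ ∃ x y z w : ℤ, q = hq x y z w := Iff.rfl

/-- the Hurwitz order as a `ℤ`-submodule of the quaternions -/
def RS : Submodule ℤ ℍ[ℚ] := AddSubgroup.toIntSubmodule Hur.toAddSubgroup

theorem mem_RS {q : ℍ[ℚ]} : q ∈ RS ↔ q ∈ Hur := Iff.rfl

/-- the evaluation `a + b√d ↦ a + b v`, as a `ℤ`-linear map (multiplicative if `v * v = d`) -/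
def ev (d : ℤ) (v : ℍ[ℚ]) : ℤ√d →ₗ[ℤ] ℍ[ℚ] where
  toFun a := (a.re : ℍ[ℚ]) + (a.im : ℍ[ℚ]) * v
  map_add' a b := by simp [add_mul]; abel
  map_smul' n a := by simp [mul_assoc]

/-- the image of an ideal of `ℤ[√d]` under `ev d v` -/
def img (d : ℤ) (v : ℍ[ℚ]) (A : Ideal (ℤ√d)) : Submodule ℤ ℍ[ℚ] :=
  (A.restrictScalars ℤ).map (ev d v)

/-- `VSet m`: the pure Hurwitz quaternions of norm `m`; these are the vectors `(y, z, w) ∈ ℤ^3`
with `y² + z² + w² = m`. -/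
def VSet (m : ℕ) : Set ℍ[ℚ] := {v | v ∈ Hur ∧ v.re = 0 ∧ Quaternion.normSq v = (m : ℚ)}

/-- The relation on `VSet m` given by an ideal `A` of `ℤ[√-m]`: `v'` is the conjugate
`β v β⁻¹` of `v` by a generator `β` of the left ideal `R · ev v (A)` of the Hurwitz order. -/
def Rel (m : ℕ) (A : Ideal (ℤ√(-(m : ℤ)))) (v v' : ℍ[ℚ]) : Prop :=
  ∃ β : ℍ[ℚ], β ≠ 0 ∧ RS * Submodule.span ℤ {β} = RS * img (-(m : ℤ)) v A ∧ β * v = v' * β

/-- conjugacy under the units of the Hurwitz order -/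
def Cj (v v' : ℍ[ℚ]) : Prop :=
  ∃ ε : ℍ[ℚ], ε ∈ Hur ∧ Quaternion.normSq ε = 1 ∧ ε * v = v' * ε

/-- the ideals of `ℤ[√-m]` which contain an integer prime to `2m` -/
def CopM (m : ℕ) : Submonoid (Ideal (ℤ√(-(m : ℤ)))) where
  carrier := {A | ∃ N : ℤ, IsCoprime N (2 * (m : ℤ)) ∧ (N : ℤ√(-(m : ℤ))) ∈ A}
  mul_mem' := by
    rintro A B ⟨N, hN, hA⟩ ⟨M, hM, hB⟩
    exact ⟨N * M, hN.mul_left hM, by push_cast; exact Ideal.mul_mem_mul hA hB⟩
  one_mem' := ⟨1, isCoprime_one_left, by simp⟩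

/-- the map `ℤ[√-m] → 𝓞 K` given by a square root `s` of `-m` in `𝓞 K` -/
noncomputable def psi {K : Type} [Field K] [NumberField K] (m : ℕ) (s : 𝓞 K)
    (hs : s * s = ((-(m : ℤ) : ℤ) : 𝓞 K)) : ℤ√(-(m : ℤ)) →+* 𝓞 K :=
  Zsqrtd.lift ⟨s, hs⟩

/-- the representations of `m` as a sum of three squares -/
def r3set (m : ℕ) : Set (ℤ × ℤ × ℤ) := {v | v.1 ^ 2 + v.2.1 ^ 2 + v.2.2 ^ 2 = (m : ℤ)}

end Pool.Agent.XPR
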