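import Pool.Agent.XPR.Targets

/-!
# XPR: target `T_CLM` (the map to the class group)
-/

set_option autoImplicit false

open scoped Quaternion NumberField

namespace Pool.Agent.XPR

private theorem CLM_mem {K : Type} [Field K] [NumberField K] (m : ℕ) (s : 𝓞 K)
    (hs : s * s = ((-(m : ℤ) : ℤ) : 𝓞 K)) (A : CopM m) :
    (A : Ideal (ℤ√(-(m : ℤ)))).map (psi m s hs) ∈ nonZeroDivisors (Ideal (𝓞 K)) := by
  rw [mem_nonZeroDivisors_iff_ne_zero]
  obtain ⟨N, hN, hA⟩ := A.2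
  intro h0
  have h1 : psi m s hs (N : ℤ√(-(m : ℤ))) ∈ (A : Ideal (ℤ√(-(m : ℤ)))).map (psi m s hs) :=
    Ideal.mem_map_of_mem _ hA
  rw [h0, map_intCast] at h1
  have h2 : (N : 𝓞 K) = 0 := by simpa using h1
  exact CopM_ne hN (by exact_mod_cast h2)

theorem P_CLM (hCOP : T_COP) (hSUR : T_SUR) : T_CLM := by
  intro K _ _ m s hm hK hs
  let f : CopM m →* nonZeroDivisors (Ideal (𝓞 K)) :=
    { toFun := fun A => ⟨(A : Ideal (ℤ√(-(m : ℤ)))).map (psi m s hs), CLM_mem m s hs A⟩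
      map_one' := by
        apply Subtype.ext
        change (1 : Ideal (ℤ√(-(m : ℤ)))).map (psi m s hs) = 1
        rw [Ideal.one_eq_top, Ideal.map_top, Ideal.one_eq_top]
      map_mul' := by
        intro A B
        apply Subtype.ext
        change ((A : Ideal (ℤ√(-(m : ℤ)))) * B).map (psi m s hs) = _ * _
        rw [Ideal.map_mul] }
  refine ⟨(ClassGroup.mk0 (R := 𝓞 K)).comp f, ?_, ?_⟩
  · intro c
    have hn : (2 * (m : ℤ)) ≠ 0 := by
      have : (m : ℤ) ≠ 0 := by exact_mod_cast hm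
      positivity
    obtain ⟨I, hI, hc, N, hN, hNI⟩ := hCOP K (2 * (m : ℤ)) hn c
    obtain ⟨A, hA, hAI⟩ := hSUR K m s hm hK hs I ⟨N, hN, hNI⟩
    refine ⟨⟨A, hA⟩, ?_⟩
    rw [← hc]
    change ClassGroup.mk0 (f ⟨A, hA⟩) = _
    congr 1
    exact Subtype.ext hAI
  · intro A hA
    change ClassGroup.mk0 (f A) = 1
    exact (ClassGroup.mk0_eq_one_iff (CLM_mem m s hs A)).2 hA

end Pool.Agent.XPR
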