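import Pool.Agent.XPR.Targets

/-!
# XPR: the relation `Rel` respects conjugacy
-/

set_option autoImplicit false

open scoped Quaternion NumberField

namespace Pool.Agent.XPR

theorem P_CNG (h_CJI : T_CJI) (h_UNL : T_UNL) (h_GEN : T_GEN) : T_CNG := by
  intro m A v w v' w' _ _ hvw hv hw
  obtain ⟨ε, hε, hε1, hε2⟩ := hvw
  obtain ⟨β, hβ0, hβ, hβv⟩ := hv
  obtain ⟨γ, hγ0, hγ, hγw⟩ := hw
  have hε0 : ε ≠ 0 := by
    rintro rfl
    rw [map_zero] at hε1
    exact zero_ne_one hε1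
  have h1 := h_CJI (-(m : ℤ)) v w ε hε2 A
  have h2 : RS * Submodule.span ℤ {β} = RS * Submodule.span ℤ {γ * ε} := by
    have e1 : Submodule.span ℤ {γ * ε} = Submodule.span ℤ {γ} * Submodule.span ℤ {ε} := by
      rw [Submodule.span_mul_span, Set.singleton_mul_singleton]
    rw [e1, ← mul_assoc, hγ, mul_assoc, h1, ← mul_assoc, h_UNL ε hε hε1, hβ]
  obtain ⟨δ, hδ, hδ1, hδ2⟩ := h_GEN β (γ * ε) hβ0 (mul_ne_zero hγ0 hε0) h2
  refine ⟨δ, hδ, hδ1, ?_⟩
  have h3 : δ * v' * β = w' * δ * β := by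
    calc δ * v' * β = δ * β * v := by rw [mul_assoc, ← hβv, mul_assoc]
      _ = γ * ε * v := by rw [← hδ2]
      _ = γ * w * ε := by rw [mul_assoc, hε2, mul_assoc]
      _ = w' * (γ * ε) := by rw [hγw, mul_assoc]
      _ = w' * δ * β := by rw [hδ2, mul_assoc]
  exact mul_right_cancel₀ hβ0 h3

end Pool.Agent.XPR
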