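import Pool.Agent.XPR.Targets

set_option autoImplicit false

open scoped Quaternion NumberField

namespace Pool.Agent.XPR

open Polynomial

namespace IN2_

theorem not_rat (K : Type) [Field K] [NumberField K] (m : ℕ) (s : K) (hm : m ≠ 0)
    (hs : s * s = -(m : K)) (q : ℚ) : s ≠ (q : K) := by
  intro h
  rw [h] at hs
  have h2 : ((q * q : ℚ) : K) = ((-(m : ℚ) : ℚ) : K) := by
    push_cast
    exact hs
  have h3 : q * q = -(m : ℚ) := Rat.cast_injective h2
  have h4 : (0 : ℚ) < m := by exact_mod_cast Nat.pos_of_ne_zero hm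
  nlinarith [mul_self_nonneg q]

end IN2_

theorem P_IN2 : T_IN2 := by
  intro K _ _ m s hm hrk hs z x y hz
  have hsK : (s : K) * (s : K) = -(m : K) := by
    have h := congrArg (fun t : 𝓞 K => (t : K)) hs
    simpa using h
  have hint : IsIntegral ℤ (z : K) := z.isIntegral_coe
  by_cases hy : y = 0
  · subst hy
    have h1 : (z : K) = algebraMap ℚ K x := by
      rw [hz]; simp
    rw [h1] at hint
    have h2 : IsIntegral ℤ x :=
      (isIntegral_algebraMap_iff (algebraMap ℚ K).injective).mp hint
    obtain ⟨a, ha⟩ := IsIntegrallyClosed.isIntegral_iff.mp h2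
    have ha' : (a : ℚ) = x := by simpa using ha
    refine ⟨⟨2 * a, by rw [← ha']; push_cast; ring⟩, ⟨a ^ 2, by rw [← ha']; push_cast; ring⟩⟩
  · have hyK : (y : K) ≠ 0 := by exact_mod_cast hy
    set P : ℚ[X] := X ^ 2 + C (-(2 * x)) * X + C (x ^ 2 + m * y ^ 2) with hP
    have hPeval : aeval (z : K) P = 0 := by
      rw [hP, hz]
      simp only [map_add, map_mul, map_pow, aeval_X, aeval_C, eq_ratCast]
      push_cast
      linear_combination (y : K) ^ 2 * hsK
    have hPm : P.Monic := by
      rw [hP]; monicity!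
    have hPd : P.natDegree = 2 := by
      rw [hP]; compute_degree!
    have hintQ : IsIntegral ℚ (z : K) := Algebra.IsIntegral.isIntegral _
    have hdvd : minpoly ℚ (z : K) ∣ P := minpoly.dvd ℚ _ hPeval
    have hnd : 2 ≤ (minpoly ℚ (z : K)).natDegree := by
      have hpos := minpoly.natDegree_pos hintQ
      have hne : (minpoly ℚ (z : K)).natDegree ≠ 1 := by
        intro h
        obtain ⟨q, hq⟩ := minpoly.natDegree_eq_one_iff.mp h
        have hq' : (q : K) = (z : K) := by simpa using hq
        apply IN2_.not_rat K m (s : K) hm hsK ((q - x) / y)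
        push_cast
        rw [eq_div_iff hyK, hq', hz]
        ring
      omega
    have hEq : minpoly ℚ (z : K) = P :=
      (Polynomial.eq_of_monic_of_dvd_of_natDegree_le (minpoly.monic hintQ) hPm hdvd
        (by rw [hPd]; exact hnd)).symm
    have hfr := minpoly.isIntegrallyClosed_eq_field_fractions' ℚ hint
    have hc1 := congrArg (fun p : ℚ[X] => p.coeff 1) (hfr.symm.trans hEq)
    have hc0 := congrArg (fun p : ℚ[X] => p.coeff 0) (hfr.symm.trans hEq)
    simp only [coeff_map, hP, coeff_add, coeff_C_mul, coeff_X_pow, coeff_X, coeff_C] at hc1 hc0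
    simp at hc1 hc0
    refine ⟨⟨-(minpoly ℤ (z : K)).coeff 1, ?_⟩, ⟨(minpoly ℤ (z : K)).coeff 0, ?_⟩⟩
    · push_cast; linarith
    · rw [← hc0]

end Pool.Agent.XPR
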