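import Pool.Agent.XPR.Targets

/-! # XPR: the conjugate of a Hurwitz quaternion is a Hurwitz quaternion -/

set_option autoImplicit false

open scoped Quaternion

namespace Pool.Agent.XPR

theorem P_STAR : T_STAR := by
  rintro q ⟨x, y, z, w, rfl⟩
  refine ⟨x + w, -y, -z, -w, ?_⟩
  ext
  · simp only [Quaternion.re_star, hq_re]; push_cast; ring
  · simp only [Quaternion.imI_star, hq_imI]; push_cast; ring
  · simp only [Quaternion.imJ_star, hq_imJ]; push_cast; ring
  · simp only [Quaternion.imK_star, hq_imK]; push_cast; ring

end Pool.Agent.XPR
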